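import Mathlib

section

/-! Formal power series solutions of an elliptic differential system, their addition law,
and complex multiplication by a root of `x ^ 2 = x - 2`. -/

set_option linter.unusedSectionVars false
set_option linter.unusedSimpArgs false

namespace Pool.Agent.MP_d8ab80_nt
open PowerSeries

section basics
variable {A : Type*} [CommRing A]

lemma d_mul (f g : A⟦X⟧) : d⁄dX A (f * g) = d⁄dX A f * g + f * d⁄dX A g := by
  rw [Derivation.leibniz]; simp only [smul_eq_mul]; ring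

lemma d_ofNat (n : ℕ) [n.AtLeastTwo] : d⁄dX A (no_index (OfNat.ofNat n : A⟦X⟧)) = 0 :=
  Derivation.map_natCast _ n

lemma d_natCast (n : ℕ) : d⁄dX A (n : A⟦X⟧) = 0 := Derivation.map_natCast _ n

lemma d_pow (f : A⟦X⟧) (n : ℕ) : d⁄dX A (f ^ (n + 1)) = (n + 1) * f ^ n * d⁄dX A f := by
  rw [derivative_pow]; simp

lemma d_sq (f : A⟦X⟧) : d⁄dX A (f ^ 2) = 2 * f * d⁄dX A f := by
  rw [pow_two, d_mul]; ring

lemma d_cube (f : A⟦X⟧) : d⁄dX A (f ^ 3) = 3 * f ^ 2 * d⁄dX A f := by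
  rw [pow_succ, d_mul, d_sq]; ring

lemma d_four (f : A⟦X⟧) : d⁄dX A (f ^ 4) = 4 * f ^ 3 * d⁄dX A f := by
  rw [pow_succ, d_mul, d_cube]; ring

lemma d_rescale (a : A) (f : A⟦X⟧) :
    d⁄dX A (rescale a f) = C a * rescale a (d⁄dX A f) := by
  ext n
  simp only [coeff_derivative, coeff_rescale, coeff_C_mul]
  ring

lemma rescale_C' (a b : A) : rescale a (C b : A⟦X⟧) = C b := by
  ext n
  simp only [coeff_rescale, coeff_C]
  split_ifs with h
  · simp [h]
  · simp

lemma cc_rescale (a : A) (f : A⟦X⟧) : constantCoeff (rescale a f) = constantCoeff f := by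
  rw [← coeff_zero_eq_constantCoeff_apply, coeff_rescale]; simp

lemma eq_zero_of_X_pow_dvd (f : A⟦X⟧) (h : ∀ n, (X : A⟦X⟧) ^ n ∣ f) : f = 0 := by
  ext n
  exact (X_pow_dvd_iff.1 (h (n + 1))) n (Nat.lt_succ_self n)

/-- The logarithmic second derivative relation `N N'' - N' ^ 2 = N ^ 2 g`. -/
def LogRel (N g : A⟦X⟧) : Prop :=
  N * d⁄dX A (d⁄dX A N) - d⁄dX A N ^ 2 = N ^ 2 * g

lemma LogRel.mul {N₁ N₂ g₁ g₂ : A⟦X⟧} (h₁ : LogRel N₁ g₁) (h₂ : LogRel N₂ g₂) :
    LogRel (N₁ * N₂) (g₁ + g₂) := by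
  unfold LogRel at *
  simp only [d_mul, map_add]
  linear_combination N₂ ^ 2 * h₁ + N₁ ^ 2 * h₂

lemma LogRel.one : LogRel (1 : A⟦X⟧) 0 := by
  unfold LogRel; simp

end basics

section ode
variable {K : Type*} [Field K] [CharZero K]

lemma X_pow_succ_dvd {f : K⟦X⟧} {n : ℕ} (h : (X : K⟦X⟧) ^ n ∣ d⁄dX K f)
    (h0 : constantCoeff f = 0) : (X : K⟦X⟧) ^ (n + 1) ∣ f := by
  rw [X_pow_dvd_iff] at *
  intro m hm
  rcases m with _ | m
  · simpa using h0
  · have := h m (by omega)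
    rw [coeff_derivative] at this
    have h1 : ((m : K) + 1) ≠ 0 := by exact_mod_cast Nat.succ_ne_zero m
    exact (mul_eq_zero.1 this).resolve_right h1

/-- Coefficients of the basic solution. -/
noncomputable def tc (ρ : K) : ℕ → K
  | 0 => 0
  | 1 => 0
  | (n + 2) => ((if n = 0 then 2 else 0) + 4 * ρ * tc ρ n -
      96 * ∑ i : Fin (n + 1), tc ρ i * tc ρ (n - i)) / ((n + 1) * (n + 2))
decreasing_by all_goals omega

/-- The differential system with parameter `α`. -/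
structure Sol (ρ α : K) (τ ν : K⟦X⟧) : Prop where
  d1 : d⁄dX K τ = 2 * C α * ν
  d2 : d⁄dX K ν = C α * (1 + 2 * C ρ * τ - 48 * τ ^ 2)
  c1 : constantCoeff τ = 0
  c2 : constantCoeff ν = 0

lemma Sol.unique {ρ α : K} {τ ν τ' ν' : K⟦X⟧} (h : Sol ρ α τ ν) (h' : Sol ρ α τ' ν') :
    τ = τ' ∧ ν = ν' := by
  have key : ∀ n, (X : K⟦X⟧) ^ n ∣ τ - τ' ∧ (X : K⟦X⟧) ^ n ∣ ν - ν' := by
    intro n
    induction n with
    | zero => simp
    | succ n ih =>
      constructor
      · apply X_pow_succ_dvd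
        · rw [map_sub, h.d1, h'.d1, ← mul_sub]
          exact ih.2.mul_left _
        · simp [h.c1, h'.c1]
      · apply X_pow_succ_dvd
        · rw [map_sub, h.d2, h'.d2]
          have : C α * (1 + 2 * C ρ * τ - 48 * τ ^ 2) - C α * (1 + 2 * C ρ * τ' - 48 * τ' ^ 2)
              = (C α * (2 * C ρ - 48 * (τ + τ'))) * (τ - τ') := by ring
          rw [this]
          exact ih.1.mul_left _
        · simp [h.c2, h'.c2]
  exact ⟨sub_eq_zero.1 (eq_zero_of_X_pow_dvd _ fun n => (key n).1),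
    sub_eq_zero.1 (eq_zero_of_X_pow_dvd _ fun n => (key n).2)⟩

lemma Sol.integral {ρ α : K} {τ ν : K⟦X⟧} (h : Sol ρ α τ ν) :
    ν ^ 2 = τ * (1 + C ρ * τ - 16 * τ ^ 2) := by
  apply derivative.ext
  · simp only [d_mul, d_sq, map_add, map_sub, derivative_C, d_ofNat, derivative_one, h.d1, h.d2]
    ring
  · simp [h.c1, h.c2]

/-- The basic solution. -/
noncomputable def t0 (ρ : K) : K⟦X⟧ := mk (tc ρ)

/-- Half of its derivative. -/
noncomputable def w0 (ρ : K) : K⟦X⟧ := C (1 / 2 : K) * d⁄dX K (t0 ρ)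

lemma sol_one (ρ : K) : Sol ρ 1 (t0 ρ) (w0 ρ) := by
  have h2 : (2 : K⟦X⟧) * C (1 / 2 : K) = 1 := by
    rw [show (2 : K⟦X⟧) = C (2 : K) from (map_ofNat C 2).symm, ← map_mul]; simp
  refine ⟨?_, ?_, ?_, ?_⟩
  · rw [w0, map_one, mul_one, ← mul_assoc, h2, one_mul]
  · rw [w0, d_mul, derivative_C, zero_mul, zero_add, map_one, one_mul]
    ext n
    have e2 : (2 : K⟦X⟧) = C (2 : K) := (map_ofNat C 2).symm
    have e48 : (48 : K⟦X⟧) = C (48 : K) := (map_ofNat C 48).symm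
    rw [coeff_C_mul, coeff_derivative, coeff_derivative, map_sub, map_add, e2, e48, mul_assoc (C 2),
      coeff_C_mul, coeff_C_mul, coeff_C_mul, pow_two, coeff_mul, coeff_one,
      Finset.Nat.sum_antidiagonal_eq_sum_range_succ (fun i j => coeff i (t0 ρ) * coeff j (t0 ρ)),
      Finset.sum_range]
    simp only [t0, coeff_mk]
    rw [tc]
    have h1 : ((n : K) + 1) ≠ 0 := by exact_mod_cast Nat.succ_ne_zero n
    have h3 : ((n : K) + 2) ≠ 0 := by exact_mod_cast Nat.succ_ne_zero (n + 1)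
    push_cast
    have h4 : ((n : K) + 1 + 1) = n + 2 := by ring
    rw [h4]
    split_ifs <;> field_simp <;> ring
  · rw [← coeff_zero_eq_constantCoeff_apply, t0, coeff_mk, tc]
  · rw [w0, map_mul, ← coeff_zero_eq_constantCoeff_apply (d⁄dX K _), coeff_derivative, t0,
      coeff_mk, zero_add, tc]
    simp

/-- The solution with parameter `α`. -/
noncomputable def tt (ρ α : K) : K⟦X⟧ := rescale α (t0 ρ)

/-- The second component of the solution with parameter `α`. -/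
noncomputable def ww (ρ α : K) : K⟦X⟧ := rescale α (w0 ρ)

lemma sol_tt (ρ α : K) : Sol ρ α (tt ρ α) (ww ρ α) := by
  have h := sol_one ρ
  refine ⟨?_, ?_, ?_, ?_⟩
  · rw [tt, d_rescale, h.d1, ww]; simp only [map_mul, map_one, map_ofNat]; ring
  · rw [ww, d_rescale, h.d2, tt]
    simp only [map_mul, map_one, map_ofNat, map_add, map_sub, map_pow, rescale_C']; ring
  · rw [tt, cc_rescale, h.c1]
  · rw [ww, cc_rescale, h.c2]

lemma Sol.neg {ρ α : K} {τ ν : K⟦X⟧} (h : Sol ρ α τ ν) : Sol ρ (-α) τ (-ν) := by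
  refine ⟨?_, ?_, h.c1, ?_⟩
  · rw [h.d1, map_neg]; ring
  · rw [map_neg, h.d2, map_neg]; ring
  · simp [h.c2]

lemma tt_neg (ρ α : K) : tt ρ (-α) = tt ρ α := ((sol_tt ρ (-α)).unique (sol_tt ρ α).neg).1

lemma ww_neg (ρ α : K) : ww ρ (-α) = -ww ρ α := ((sol_tt ρ (-α)).unique (sol_tt ρ α).neg).2

lemma tt_zero (ρ : K) : tt ρ 0 = 0 := by
  rw [tt, rescale_zero_apply, (sol_one ρ).c1, map_zero]

lemma tt_one (ρ : K) : tt ρ 1 = t0 ρ := by
  rw [tt, rescale_one]; rfl

lemma t0_ne_zero (ρ : K) : t0 ρ ≠ 0 := by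
  intro h
  have h1 := (sol_one ρ).d1
  have h2 := (sol_one ρ).d2
  rw [h] at h1 h2
  have h3 : w0 ρ = 0 := by rw [w0, h]; simp
  rw [h3] at h2
  simp at h2

lemma sol_of_frac {ρ α : K} {Δ n₁ n₂ : K⟦X⟧} (hΔ : constantCoeff Δ = 1)
    (h₁ : Δ * d⁄dX K n₁ - 2 * n₁ * d⁄dX K Δ = 2 * C α * n₂)
    (h₂ : Δ * d⁄dX K n₂ - 3 * n₂ * d⁄dX K Δ = C α * (Δ ^ 4 + 2 * C ρ * n₁ * Δ ^ 2 - 48 * n₁ ^ 2))
    (c₁ : constantCoeff n₁ = 0) (c₂ : constantCoeff n₂ = 0) :
    tt ρ α * Δ ^ 2 = n₁ := by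
  have hI : Δ * Δ⁻¹ = 1 := PowerSeries.mul_inv_cancel _ (by rw [hΔ]; exact one_ne_zero)
  have dI := derivative_inv' Δ
  set I := Δ⁻¹
  have hs : Sol ρ α (n₁ * I ^ 2) (n₂ * I ^ 3) := by
    refine ⟨?_, ?_, ?_, ?_⟩
    · simp only [d_mul, d_sq, dI]
      linear_combination I ^ 3 * h₁ - d⁄dX K n₁ * I ^ 2 * hI
    · simp only [d_mul, d_cube, dI]
      linear_combination I ^ 4 * h₂ + (- d⁄dX K n₂ * I ^ 3 + C α * ((Δ * I) ^ 3 + (Δ * I) ^ 2
        + Δ * I + 1 + 2 * C ρ * n₁ * I ^ 2 * (Δ * I + 1))) * hI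
    · simp [c₁]
    · simp [c₂]
  rw [((sol_tt ρ α).unique hs).1]
  linear_combination n₁ * (Δ * I + 1) * hI

/-- The addition law. -/
lemma tt_add (ρ x y : K) :
    tt ρ (x + y) * (1 + 16 * tt ρ x * tt ρ y) ^ 2 =
      tt ρ x * (1 + C ρ * tt ρ y - 16 * tt ρ y ^ 2) + tt ρ y * (1 + C ρ * tt ρ x - 16 * tt ρ x ^ 2)
        + 2 * ww ρ x * ww ρ y := by
  have hx := sol_tt ρ x
  have hy := sol_tt ρ y
  have ix := hx.integral
  have iy := hy.integral
  set tx := tt ρ x
  set ty := tt ρ y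
  set wx := ww ρ x
  set wy := ww ρ y
  set r := (C ρ : K⟦X⟧)
  apply sol_of_frac (n₂ := wx + wy - 48*tx*ty*wx - 48*tx*ty*wy + 2*tx*wy*r - 48*tx^2*wy
    + 2*ty*wx*r - 48*ty^2*wx - 32*tx*ty^2*wx*r + 256*tx*ty^3*wx - 32*tx^2*ty*wy*r
    + 256*tx^3*ty*wy)
  · simp [hx.c1]
  · simp only [d_mul, d_sq, d_cube, map_add, map_sub, derivative_C, d_ofNat, derivative_one,
      hx.d1, hx.d2, hy.d1, hy.d2, r]
    linear_combination (- 128*ty*wy*C x) * ix + (- 128*tx*wx*C y) * iy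
  · simp only [d_mul, d_sq, d_cube, map_add, map_sub, derivative_C, d_ofNat, derivative_one,
      hx.d1, hx.d2, hy.d1, hy.d2, r]
    linear_combination (- 192*ty*C x + 192*wy^2*C x + 192*wy^2*C y + 3072*tx*ty^2*C x
      - 256*ty^2*C x*r + 5120*ty^3*C x + 2048*tx*ty^3*C x*r - 16384*tx*ty^4*C x) * ix
      + (192*tx*C x + 3072*tx^2*ty*C y + 192*tx^2*C x*r - 64*tx^2*C y*r - 3072*tx^3*C x
      + 2048*tx^3*C y + 2048*tx^3*ty*C y*r - 16384*tx^4*ty*C y) * iy
  · simp [hx.c1, hy.c1, hx.c2]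
  · simp [hx.c1, hy.c1, hx.c2, hy.c2]

lemma tt_sub (ρ x y : K) :
    tt ρ (x - y) * (1 + 16 * tt ρ x * tt ρ y) ^ 2 =
      tt ρ x * (1 + C ρ * tt ρ y - 16 * tt ρ y ^ 2) + tt ρ y * (1 + C ρ * tt ρ x - 16 * tt ρ x ^ 2)
        - 2 * ww ρ x * ww ρ y := by
  have h := tt_add ρ x (-y)
  rw [tt_neg, ww_neg, ← sub_eq_add_neg] at h
  rw [h]; ring

lemma delta_ne_zero (ρ x y : K) : (1 + 16 * tt ρ x * tt ρ y) ≠ 0 := by
  intro h
  have := congrArg constantCoeff h
  simp [(sol_tt ρ x).c1] at this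

lemma tt_add_mul_sub (ρ x y : K) :
    tt ρ (x + y) * tt ρ (x - y) * (1 + 16 * tt ρ x * tt ρ y) ^ 2 = (tt ρ x - tt ρ y) ^ 2 := by
  have h1 := tt_add ρ x y
  have h2 := tt_sub ρ x y
  have ix := (sol_tt ρ x).integral
  have iy := (sol_tt ρ y).integral
  apply mul_right_cancel₀ (pow_ne_zero 2 (delta_ne_zero ρ x y))
  set tx := tt ρ x
  set ty := tt ρ y
  set wx := ww ρ x
  set wy := ww ρ y
  set r := (C ρ : K⟦X⟧)
  calc _ = (tt ρ (x + y) * (1 + 16 * tx * ty) ^ 2) * (tt ρ (x - y) * (1 + 16 * tx * ty) ^ 2) := by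
        ring
    _ = _ := by
        rw [h1, h2]
        linear_combination (- 4*wy^2) * ix + (- 4*tx - 4*tx^2*r + 64*tx^3) * iy

lemma logRel_add (ρ x y : K) :
    LogRel (1 + 16 * tt ρ x * tt ρ y) (16 * (C (x + y) ^ 2 * tt ρ (x + y) + C (x - y) ^ 2 * tt ρ (x - y)
      - 2 * C x ^ 2 * tt ρ x - 2 * C y ^ 2 * tt ρ y)) := by
  have h1 := tt_add ρ x y
  have h2 := tt_sub ρ x y
  have hx := sol_tt ρ x
  have hy := sol_tt ρ y
  have ix := hx.integral
  have iy := hy.integral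
  unfold LogRel
  set tx := tt ρ x
  set ty := tt ρ y
  set wx := ww ρ x
  set wy := ww ρ y
  simp only [d_mul, map_add, map_sub, derivative_C, d_ofNat, derivative_one, map_zero,
      hx.d1, hx.d2, hy.d1, hy.d2]
  linear_combination (- 1024*ty^2*C x^2) * ix + (- 1024*tx^2*C y^2) * iy
    - 16 * (C x + C y) ^ 2 * h1 - 16 * (C x - C y) ^ 2 * h2

/-- Complex multiplication by `ψ`. -/
lemma tt_cm {ρ ψ σ : K} (hψ : ψ ^ 2 = ψ - 2) (hσ : σ ^ 2 = 1) (hρ : ρ = 3 * σ * (2 * ψ - 1))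
    (β : K) : tt ρ (ψ * β) * (1 + 4 * C σ * C ψ * tt ρ β) ^ 2 =
      C ψ ^ 2 * tt ρ β * (1 + C σ * (3 * C ψ - 1) * tt ρ β) := by
  have hx := sol_tt ρ β
  have ix := hx.integral
  have hf : (C ψ : K⟦X⟧) ^ 2 = C ψ - 2 := by
    rw [← map_pow, hψ, map_sub, map_ofNat]
  have hs : (C σ : K⟦X⟧) ^ 2 = 1 := by rw [← map_pow, hσ, map_one]
  have hr : (C ρ : K⟦X⟧) = 3 * C σ * (2 * C ψ - 1) := by
    rw [hρ]; simp only [map_mul, map_sub, map_ofNat, map_one]
  have d1 := hx.d1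
  have d2 := hx.d2
  rw [hr] at ix d2
  set t := tt ρ β
  set w := ww ρ β
  apply sol_of_frac (n₂ := C ψ * w * (1 - 2 * C σ * (1 - C ψ) * t))
  · simp [hx.c1]
  · simp only [d_mul, d_sq, map_add, map_sub, map_mul C, derivative_C, d_ofNat, derivative_one,
      d1]
    ring
  · simp only [d_mul, map_add, map_sub, map_mul C, derivative_C, d_ofNat, derivative_one,
      d1, d2, hr]
    set f := (C ψ : K⟦X⟧)
    set s := (C σ : K⟦X⟧)
    set b := (C β : K⟦X⟧)
    linear_combination (- 4*b*f*s - 20*b*f^2*s + 32*b*f^2*s^2*t - 32*b*f^3*s^2*t) * ix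
      + (- 144*b*t^2 - 6*b*f*s*t - 48*b*f*t^2 - 12*b*f^2*s*t + 48*b*f^2*t^2 + 32*b*s*t^3
        + 144*b*s^2*t^2 - 768*b*f*s*t^3 + 36*b*f*s^2*t^2 + 48*b*f^3*t^2 - 384*b*f^2*s*t^3
        - 54*b*f^2*s^2*t^2 + 2304*b*s^2*t^4 - 32*b*s^3*t^3 + 512*b*f*s^2*t^4 + 848*b*f*s^3*t^3
        + 192*b*f^3*s*t^3 - 132*b*f^3*s^2*t^2 - 960*b*f^2*s^2*t^4 + 416*b*f^2*s^3*t^3
        + 288*b*f^4*s*t^3 - 2304*b*s^4*t^4 - 512*b*f*s^4*t^4 - 672*b*f^3*s^2*t^4
        - 144*b*f^3*s^3*t^3 + 896*b*f^2*s^4*t^4 + 144*b*f^4*s^2*t^4 - 480*b*f^4*s^3*t^3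
        + 704*b*f^3*s^4*t^4 + 432*b*f^5*s^2*t^4 - 96*b*f^4*s^4*t^4 - 576*b*f^5*s^4*t^4) * hf
      + (- 288*b*t^2 + 96*b*f*t^2 + 64*b*s*t^3 - 1728*b*f*s*t^3 + 4608*b*s^2*t^4
        - 1280*b*f*s^2*t^4) * hs
  · simp [hx.c1]
  · simp [hx.c2]

lemma logRel_cm {ρ ψ σ : K} (hψ : ψ ^ 2 = ψ - 2) (hσ : σ ^ 2 = 1) (hρ : ρ = 3 * σ * (2 * ψ - 1))
    (β : K) : LogRel (1 + 4 * C σ * C ψ * tt ρ β)
      (8 * C σ * C ψ * C β ^ 2 + 16 * C (ψ * β) ^ 2 * tt ρ (ψ * β) - 32 * C β ^ 2 * tt ρ β) := by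
  have h1 := tt_cm hψ hσ hρ β
  have hx := sol_tt ρ β
  have ix := hx.integral
  have hf : (C ψ : K⟦X⟧) ^ 2 = C ψ - 2 := by
    rw [← map_pow, hψ, map_sub, map_ofNat]
  have hs : (C σ : K⟦X⟧) ^ 2 = 1 := by rw [← map_pow, hσ, map_one]
  have hr : (C ρ : K⟦X⟧) = 3 * C σ * (2 * C ψ - 1) := by
    rw [hρ]; simp only [map_mul, map_sub, map_ofNat, map_one]
  have d1 := hx.d1
  have d2 := hx.d2
  rw [hr] at ix d2
  unfold LogRel
  set t := tt ρ β
  set w := ww ρ β
  simp only [d_mul, d_sq, map_add, map_sub, map_mul C, derivative_C, d_ofNat, derivative_one,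
      d1, d2, map_zero]
  set f := (C ψ : K⟦X⟧)
  set s := (C σ : K⟦X⟧)
  set b := (C β : K⟦X⟧)
  linear_combination (- 64*b^2*f^2*s^2) * ix
    + (16*b^2*t - 16*b^2*f*t - 16*b^2*f^2*t + 128*b^2*s*t^2 + 64*b^2*f*s*t^2 - 32*b^2*f^2*s*t^2
      - 128*b^2*s^3*t^2 - 128*b^2*f*s^3*t^2 - 48*b^2*f^3*s*t^2) * hf
    + (- 48*b^2*f*t + 256*b^2*s*t^2 + 128*b^2*f*s*t^2) * hs - 16 * f ^ 2 * b ^ 2 * h1

end ode

end Pool.Agent.MP_d8ab80_nt

end

section

/-! Coefficient functionals, Frobenius expansion and reduction of power series. -/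

set_option linter.unusedSectionVars false
set_option linter.unusedSimpArgs false

namespace Pool.Agent.MP_d8ab80_nt
open PowerSeries

section
variable {A : Type*} [CommRing A]

/-- The functional `3 [u ^ (p-1)] - [u ^ (3p-1)]`, `p = 2 n + 1`. -/
noncomputable def Lam (n : ℕ) (f : A⟦X⟧) : A := 3 * coeff (2 * n) f - coeff (6 * n + 2) f

/-- The functional `[u ^ p] - [u ^ (3p)]`, `p = 2 n + 1`. -/
noncomputable def Psi (n : ℕ) (f : A⟦X⟧) : A := coeff (2 * n + 1) f - coeff (6 * n + 3) f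

lemma Lam_add (n : ℕ) (f g : A⟦X⟧) : Lam n (f + g) = Lam n f + Lam n g := by
  simp only [Lam, map_add]; ring

lemma Lam_sub (n : ℕ) (f g : A⟦X⟧) : Lam n (f - g) = Lam n f - Lam n g := by
  simp only [Lam, map_sub]; ring

lemma Lam_C (n : ℕ) (a : A) (f : A⟦X⟧) : Lam n (C a * f) = a * Lam n f := by
  simp only [Lam, coeff_C_mul]; ring

lemma Psi_add (n : ℕ) (f g : A⟦X⟧) : Psi n (f + g) = Psi n f + Psi n g := by
  simp only [Psi, map_add]; ring

lemma Psi_sub (n : ℕ) (f g : A⟦X⟧) : Psi n (f - g) = Psi n f - Psi n g := by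
  simp only [Psi, map_sub]; ring

lemma Psi_C (n : ℕ) (a : A) (f : A⟦X⟧) : Psi n (C a * f) = a * Psi n f := by
  simp only [Psi, coeff_C_mul]; ring

lemma Psi_zero (n : ℕ) : Psi n (0 : A⟦X⟧) = 0 := by simp [Psi]

lemma Psi_sum (n : ℕ) {ι : Type*} (s : Finset ι) (f : ι → A⟦X⟧) :
    Psi n (∑ i ∈ s, f i) = ∑ i ∈ s, Psi n (f i) := by
  simp only [Psi, map_sum, Finset.sum_sub_distrib]

lemma Lam_d (n : ℕ) (f : A⟦X⟧) : Lam n (d⁄dX A f) = 3 * (2 * n + 1) * Psi n f := by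
  simp only [Lam, Psi, coeff_derivative]; push_cast; ring

lemma Psi_map {B : Type*} [CommRing B] (ρ : A →+* B) (n : ℕ) (f : A⟦X⟧) :
    Psi n (PowerSeries.map ρ f) = ρ (Psi n f) := by
  simp only [Psi, coeff_map, map_sub]

lemma Lam_expand (n : ℕ) (f : A⟦X⟧) :
    Lam n (X ^ (2 * n) * expand (2 * n + 1) (by omega) f) = 3 * coeff 0 f - coeff 2 f := by
  have h0 := coeff_X_pow_mul (expand (2 * n + 1) (by omega) f) (2 * n) 0
  have h2 := coeff_X_pow_mul (expand (2 * n + 1) (by omega) f) (2 * n) ((2 * n + 1) * 2)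
  rw [coeff_expand_mul, show (2 * n + 1) * 2 + 2 * n = 6 * n + 2 by ring] at h2
  rw [zero_add] at h0
  rw [Lam, h0, h2]
  simp

lemma Psi_X_pow_mul (n : ℕ) {N : ℕ} (hN : 6 * n + 3 < N) (f : A⟦X⟧) : Psi n (X ^ N * f) = 0 := by
  rw [Psi, coeff_X_pow_mul', coeff_X_pow_mul', if_neg (by omega), if_neg (by omega), sub_zero]

lemma d_expand (p : ℕ) (f : A⟦X⟧) : d⁄dX A (expand (p + 1) (by omega) f) =
    ((p : A⟦X⟧) + 1) * X ^ p * expand (p + 1) (by omega) (d⁄dX A f) := by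
  ext m
  have e : ((p : A⟦X⟧) + 1) = C ((p : A) + 1) := by simp
  rw [coeff_derivative, e, mul_assoc, coeff_C_mul, coeff_X_pow_mul', coeff_expand, coeff_expand]
  by_cases h : (p + 1) ∣ m + 1
  · obtain ⟨q, hq⟩ := h
    rcases q with _ | q
    · omega
    have hm : m - p = (p + 1) * q := by
      have : m + 1 = (p + 1) * q + (p + 1) := by rw [hq]; ring
      omega
    have hle : p ≤ m := by
      have : m + 1 = (p + 1) * q + (p + 1) := by rw [hq]; ring
      omega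
    have hc : ((m : A) + 1) = (p + 1) * (q + 1) := by exact_mod_cast congrArg (Nat.cast : ℕ → A) hq
    rw [if_pos ⟨_, hq⟩, if_pos hle, hm, if_pos (dvd_mul_right _ _), hq,
      Nat.mul_div_cancel_left _ (by omega), Nat.mul_div_cancel_left _ (by omega), coeff_derivative,
      hc]
    ring
  · rw [if_neg h, zero_mul]
    split_ifs with h1 h2
    · exfalso; apply h
      have : m + 1 = (m - p) + (p + 1) := by omega
      rw [this]; exact dvd_add h2 dvd_rfl
    · simp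
    · simp

lemma coeff_one_add_X_sq_pow (M N : ℕ) : coeff N ((1 + X ^ 2 : A⟦X⟧) ^ M) =
    if 2 ∣ N then (M.choose (N / 2) : A) else 0 := by
  have : (1 + X ^ 2 : A⟦X⟧) ^ M = expand 2 two_ne_zero (((1 + Polynomial.X : Polynomial A) ^ M :
      Polynomial A) : A⟦X⟧) := by
    simp
  rw [this, coeff_expand]
  simp only [Polynomial.coeff_coe, Polynomial.coeff_one_add_X_pow]

lemma Psi_pal (n i M : ℕ) (h : i + M = 4 * n + 2) :
    Psi n (X ^ i * (1 + X ^ 2 : A⟦X⟧) ^ M) = 0 := by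
  rw [Psi, coeff_X_pow_mul', coeff_X_pow_mul', coeff_one_add_X_sq_pow, coeff_one_add_X_sq_pow,
    if_pos (show i ≤ 6 * n + 3 by omega), sub_eq_zero]
  by_cases h1 : i ≤ 2 * n + 1
  · rw [if_pos h1]
    by_cases h2 : 2 ∣ 2 * n + 1 - i
    · rw [if_pos h2, if_pos (by omega), ← Nat.choose_symm_of_eq_add (show M = (2 * n + 1 - i) / 2 +
        (6 * n + 3 - i) / 2 by omega)]
    · rw [if_neg h2, if_neg (by omega)]
  · rw [if_neg h1]
    split_ifs with h2
    · rw [Nat.choose_eq_zero_of_lt (by omega)]; simp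
    · rfl

lemma Psi_pal_aeval (n : ℕ) {ie : A⟦X⟧} (hie : ie * (1 + X ^ 2) = 1) (b : Polynomial A)
    (hb : b.natDegree ≤ 4 * n + 2) :
    Psi n ((1 + X ^ 2) ^ (4 * n + 2) * Polynomial.aeval (X * ie) b) = 0 := by
  rw [Polynomial.aeval_eq_sum_range' (Nat.lt_succ_of_le hb), Finset.mul_sum, Psi_sum]
  refine Finset.sum_eq_zero fun i hi => ?_
  obtain ⟨M, hM⟩ : ∃ M, i + M = 4 * n + 2 := ⟨4 * n + 2 - i, by simp at hi; omega⟩
  have : (1 + X ^ 2) ^ (4 * n + 2) * (b.coeff i • (X * ie) ^ i) =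
      C (b.coeff i) * (X ^ i * (1 + X ^ 2 : A⟦X⟧) ^ M) := by
    rw [← hM, smul_eq_C_mul, pow_add, mul_pow]
    have : ie ^ i * (1 + X ^ 2) ^ i = 1 := by rw [← mul_pow, hie, one_pow]
    linear_combination (C (b.coeff i) * X ^ i * (1 + X ^ 2) ^ M) * this
  rw [this, Psi_C, Psi_pal n i M hM, mul_zero]

lemma map_d {B : Type*} [CommRing B] (ρ : A →+* B) (f : A⟦X⟧) :
    PowerSeries.map ρ (d⁄dX A f) = d⁄dX B (PowerSeries.map ρ f) := by
  ext n; simp [coeff_derivative]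

lemma map_aeval' {B : Type*} [CommRing B] (ρ : A →+* B) (s : A⟦X⟧) (P : Polynomial A) :
    PowerSeries.map ρ (Polynomial.aeval s P) =
      Polynomial.aeval (PowerSeries.map ρ s) (P.map ρ) := by
  induction P using Polynomial.induction_on' with
  | add p q hp hq => simp [hp, hq]
  | monomial n a => simp [Polynomial.aeval_monomial, PowerSeries.algebraMap_apply]

lemma d_aeval (s : A⟦X⟧) (P : Polynomial A) :
    d⁄dX A (Polynomial.aeval s P) = Polynomial.aeval s (Polynomial.derivative P) * d⁄dX A s := by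
  rw [Derivation.map_aeval, smul_eq_mul]

lemma cc_aeval {s : A⟦X⟧} (hs : constantCoeff s = 0) (P : Polynomial A) :
    constantCoeff (Polynomial.aeval s P) = P.coeff 0 := by
  induction P using Polynomial.induction_on' with
  | add p q hp hq => simp [hp, hq]
  | monomial n a =>
    rw [Polynomial.aeval_monomial, map_mul, map_pow, hs, Polynomial.coeff_monomial]
    rcases n with _ | n <;> simp [PowerSeries.algebraMap_apply]

lemma exists_inv {f : A⟦X⟧} (h : constantCoeff f = 1) : ∃ g, g * f = 1 :=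
  ⟨invOfUnit f 1, by rw [mul_comm]; exact mul_invOfUnit f 1 (by simpa using h)⟩

end

section red
variable {A : Type*} [CommRing A] {p : ℕ} [Fact p.Prime]

lemma expand_zmod (hp : p ≠ 0) (f : (ZMod p)⟦X⟧) : expand p hp f = f ^ p := by
  have := MvPowerSeries.map_frobenius_expand (R := ZMod p) p hp (f := f)
  rw [ZMod.frobenius_zmod] at this
  exact this

lemma map_expand_zmod (ρ : A →+* ZMod p) (hp : p ≠ 0) (f : A⟦X⟧) :
    PowerSeries.map ρ (expand p hp f) = PowerSeries.map ρ f ^ p := by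
  rw [map_expand, expand_zmod]

lemma series_lift (ρ : A →+* ZMod p) (hρ : ∀ x, ρ x = 0 ↔ (p : A) ∣ x) {f g : A⟦X⟧}
    (h : PowerSeries.map ρ f = PowerSeries.map ρ g) : ∃ k, f = g + C (p : A) * k := by
  have : ∀ n, ∃ y, coeff n (f - g) = p * y := fun n => (hρ _).1 (by
    rw [← coeff_map, map_sub, h, sub_self, map_zero])
  choose y hy using this
  refine ⟨mk y, ?_⟩
  ext n
  rw [map_add, coeff_C_mul, coeff_mk, ← hy, map_sub]; ring

lemma poly_lift (ρ : A →+* ZMod p) (hρ : ∀ x, ρ x = 0 ↔ (p : A) ∣ x) {f g : Polynomial A}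
    (h : f.map ρ = g.map ρ) : ∃ k, f = g + Polynomial.C (p : A) * k := by
  have : Polynomial.C (p : A) ∣ f - g := by
    rw [Polynomial.C_dvd_iff_dvd_coeff]
    intro n
    rw [← hρ, ← Polynomial.coeff_map, Polynomial.map_sub, h, sub_self, Polynomial.coeff_zero]
  obtain ⟨k, hk⟩ := this
  exact ⟨k, by rw [← hk]; ring⟩

lemma cancel_unit [IsDomain A] [CharZero A] (ρ : A →+* ZMod p) (hρ : ∀ x, ρ x = 0 ↔ (p : A) ∣ x)
    {u x : A} (hu : ρ u ≠ 0) (h : (p : A) ^ 2 ∣ u * x) : (p : A) ^ 2 ∣ x := by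
  have hp0 : (p : A) ≠ 0 := by exact_mod_cast (Fact.out : p.Prime).ne_zero
  have h1 : ∀ y, (p : A) ∣ u * y → (p : A) ∣ y := by
    intro y hy
    rw [← hρ, map_mul] at hy
    exact (hρ _).1 ((mul_eq_zero.1 hy).resolve_left hu)
  obtain ⟨y, rfl⟩ := h1 x ((dvd_pow_self _ two_ne_zero).trans h)
  rw [pow_two, mul_left_comm, mul_dvd_mul_iff_left hp0] at h
  rw [pow_two]
  exact mul_dvd_mul_left _ (h1 y h)

lemma map_p_eq_zero (ρ : A →+* ZMod p) : ρ (p : A) = 0 := by
  rw [map_natCast, ZMod.natCast_self]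

end red

end Pool.Agent.MP_d8ab80_nt

end

section

/-! Legendre polynomials: generating function and interpolation in the degree. -/

set_option linter.unusedSectionVars false
set_option linter.unusedSimpArgs false

namespace Pool.Agent.MP_d8ab80_nt
open Finset

/-- The coefficient `C(j+k,2k) C(2k,k)`. -/
def bb (j k : ℕ) : ℕ := (j + k).choose (2 * k) * k.centralBinom

lemma choose_succ_int (n k : ℕ) :
    ((k : ℤ) + 1) * (n.choose (k + 1) : ℤ) = (n.choose k : ℤ) * (n - k) := by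
  rcases le_or_gt k n with h | h
  · have := Nat.choose_succ_right_eq n k
    zify [h] at this
    linarith
  · rw [Nat.choose_eq_zero_of_lt h, Nat.choose_eq_zero_of_lt (by omega)]; simp

lemma choose_succ_succ_int (n k : ℕ) :
    ((n : ℤ) + 1) * (n.choose k : ℤ) = ((n + 1).choose (k + 1) : ℤ) * (k + 1) := by
  exact_mod_cast Nat.add_one_mul_choose_eq n k

lemma cb_succ (k : ℕ) :
    ((k : ℤ) + 1) * ((k + 1).centralBinom : ℤ) = 2 * (2 * k + 1) * (k.centralBinom : ℤ) := by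
  exact_mod_cast Nat.succ_mul_centralBinom_succ k

lemma bb_zero (j : ℕ) : bb j 0 = 1 := by simp [bb]

lemma bb_eq_zero {j k : ℕ} (h : j < k) : bb j k = 0 := by
  rw [bb, Nat.choose_eq_zero_of_lt (by omega), zero_mul]

lemma bb_succ (j k : ℕ) :
    ((k : ℤ) + 1) ^ 2 * bb j (k + 1) = (j - k) * (j + k + 1) * bb j k := by
  have h1 := cb_succ k
  have h2 := choose_succ_succ_int (j + k) (2 * k + 1)
  have h3 := choose_succ_int (j + k) (2 * k)
  simp only [bb]
  push_cast at *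
  rw [show j + (k + 1) = j + k + 1 by ring, show 2 * (k + 1) = 2 * k + 1 + 1 by ring]
  apply mul_left_cancel₀ (show (2 : ℤ) ≠ 0 by norm_num)
  linear_combination (2 * (k + 1) * ((j + k + 1).choose (2 * k + 1 + 1) : ℤ)) * h1
    - (2 * (2 * k + 1) * (k.centralBinom : ℤ)) * h2
    + (2 * (j + k + 1) * (k.centralBinom : ℤ)) * h3

lemma bb_i (j k : ℕ) : ((k : ℤ) + 1) * bb (j + 1) (k + 1) + 2 * k * bb (j + 1) k
    - (k + 1) * bb j (k + 1) = 2 * (j + 1) * bb (j + 1) k := by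
  have h1 := cb_succ k
  have h3 := choose_succ_int (j + k + 1) (2 * k)
  simp only [bb]
  rw [show j + 1 + (k + 1) = (j + k + 1) + 1 by ring, show 2 * (k + 1) = 2 * k + 1 + 1 by ring,
    show j + (k + 1) = j + k + 1 by ring, show j + 1 + k = j + k + 1 by ring,
    Nat.choose_succ_succ' (j + k + 1) (2 * k + 1)]
  push_cast at *
  linear_combination (((j + k + 1).choose (2 * k + 1) : ℤ)) * h1
    + (2 * (k.centralBinom : ℤ)) * h3

lemma bb_ii (j k : ℕ) : ((k : ℤ) + 1) * bb (j + 1) (k + 1) - (k + 1) * bb j (k + 1)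
    - 2 * k * bb j k = 2 * (j + 1) * bb j k := by
  have h1 := cb_succ k
  have h3 := choose_succ_succ_int (j + k) (2 * k)
  simp only [bb]
  rw [show j + 1 + (k + 1) = (j + k + 1) + 1 by ring, show 2 * (k + 1) = 2 * k + 1 + 1 by ring,
    show j + (k + 1) = j + k + 1 by ring, Nat.choose_succ_succ' (j + k + 1) (2 * k + 1)]
  push_cast at *
  linear_combination (((j + k + 1).choose (2 * k + 1) : ℤ)) * h1
    - (2 * (k.centralBinom : ℤ)) * h3

section
variable {A : Type*} [CommRing A]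

/-- The Legendre polynomial of degree `j` at `1 - 2 z`. -/
def pj (z : A) (j : ℕ) : A := ∑ k ∈ range (j + 1), (bb j k : A) * (-z) ^ k

/-- Its logarithmic derivative numerator `z d/dz`. -/
def dj (z : A) (j : ℕ) : A := ∑ k ∈ range (j + 1), (k : A) * (bb j k : A) * (-z) ^ k

lemma pj_eq (z : A) {j N : ℕ} (h : j < N) : pj z j = ∑ k ∈ range N, (bb j k : A) * (-z) ^ k := by
  rw [pj]
  apply sum_subset (range_subset_range.2 h)
  intro k _ hk
  rw [bb_eq_zero (by simpa using hk)]; simp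

lemma dj_eq (z : A) {j N : ℕ} (h : j < N) :
    dj z j = ∑ k ∈ range N, (k : A) * (bb j k : A) * (-z) ^ k := by
  rw [dj]
  apply sum_subset (range_subset_range.2 h)
  intro k _ hk
  rw [bb_eq_zero (by simpa using hk)]; simp

lemma dj_eq' (z : A) {j N : ℕ} (h : j ≤ N) :
    dj z j = ∑ k ∈ range N, ((k : A) + 1) * (bb j (k + 1) : A) * (-z) ^ (k + 1) := by
  rw [dj_eq z (Nat.lt_succ_of_le h), sum_range_succ']
  simp

lemma pj_zero (z : A) : pj z 0 = 1 := by simp [pj, bb_zero]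

lemma dj_zero (z : A) : dj z 0 = 0 := by simp [dj]

lemma dj_i (z : A) (j : ℕ) :
    (1 - 2 * z) * dj z (j + 1) - dj z j = -2 * z * (j + 1) * pj z (j + 1) := by
  have e : (1 - 2 * z) * dj z (j + 1) = dj z (j + 1) - 2 * z * dj z (j + 1) := by ring
  rw [e]
  nth_rewrite 1 [dj_eq' z (show j + 1 ≤ j + 2 by omega)]
  rw [dj_eq' z (show j ≤ j + 2 by omega), dj_eq z (show j + 1 < j + 2 by omega),
    pj_eq z (show j + 1 < j + 2 by omega), mul_sum, mul_sum, ← sum_sub_distrib, ← sum_sub_distrib]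
  refine sum_congr rfl fun k _ => ?_
  have := congrArg (Int.cast : ℤ → A) (bb_i j k)
  push_cast at this
  linear_combination (-z) ^ (k + 1) * this

lemma dj_ii (z : A) (j : ℕ) :
    dj z (j + 1) - (1 - 2 * z) * dj z j = -2 * z * (j + 1) * pj z j := by
  have e : (1 - 2 * z) * dj z j = dj z j - 2 * z * dj z j := by ring
  rw [e]
  nth_rewrite 1 [dj_eq' z (show j ≤ j + 1 by omega)]
  rw [dj_eq' z (show j + 1 ≤ j + 1 by omega), dj_eq z (show j < j + 1 by omega),
    pj_eq z (show j < j + 1 by omega), mul_sum, mul_sum, ← sum_sub_distrib, ← sum_sub_distrib]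
  refine sum_congr rfl fun k _ => ?_
  have := congrArg (Int.cast : ℤ → A) (bb_ii j k)
  push_cast at this
  linear_combination (-z) ^ (k + 1) * this

/-- The generating function of the Legendre values. -/
noncomputable def Gs (z : A) : PowerSeries A := PowerSeries.mk (pj z)

/-- The generating function of the derivatives. -/
noncomputable def G1s (z : A) : PowerSeries A := PowerSeries.mk (dj z)

lemma coeff_Gs (z : A) (n : ℕ) : PowerSeries.coeff n (Gs z) = pj z n := PowerSeries.coeff_mk _ _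

lemma coeff_G1s (z : A) (n : ℕ) : PowerSeries.coeff n (G1s z) = dj z n := PowerSeries.coeff_mk _ _

lemma cc_Gs (z : A) : PowerSeries.constantCoeff (Gs z) = 1 := by
  rw [← PowerSeries.coeff_zero_eq_constantCoeff_apply, coeff_Gs, pj_zero]

lemma cc_G1s (z : A) : PowerSeries.constantCoeff (G1s z) = 0 := by
  rw [← PowerSeries.coeff_zero_eq_constantCoeff_apply, coeff_G1s, dj_zero]

open PowerSeries in
lemma gf_i (z : A) : (1 - 2 * C z - X) * G1s z = -2 * C z * (X * d⁄dX A (Gs z)) := by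
  have e1 : (1 - 2 * C z - X) * G1s z = C (1 - 2 * z) * G1s z - X * G1s z := by
    simp only [map_sub, map_mul, map_one, map_ofNat]; ring
  have e2 : (-2 * C z : A⟦X⟧) = C (-2 * z) := by simp only [map_neg, map_mul, map_ofNat]
  rw [e1, e2]
  ext n
  rcases n with _ | n
  · simp [cc_G1s]
  · rw [map_sub, coeff_C_mul, coeff_C_mul, coeff_succ_X_mul, coeff_succ_X_mul, coeff_derivative]
    simp only [coeff_Gs, coeff_G1s]
    linear_combination dj_i z n

open PowerSeries in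
lemma gf_ii (z : A) : G1s z - (1 - 2 * C z) * (X * G1s z) =
    -2 * C z * (X * (Gs z + X * d⁄dX A (Gs z))) := by
  have e1 : (1 - 2 * C z : A⟦X⟧) = C (1 - 2 * z) := by
    simp only [map_sub, map_mul, map_one, map_ofNat]
  have e2 : (-2 * C z : A⟦X⟧) = C (-2 * z) := by simp only [map_neg, map_mul, map_ofNat]
  rw [e1, e2]
  ext n
  rcases n with _ | n
  · simp [cc_G1s]
  · rw [map_sub, coeff_C_mul, coeff_C_mul, coeff_succ_X_mul, coeff_succ_X_mul, map_add]
    have : coeff n (X * d⁄dX A (Gs z)) = n * pj z n := by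
      rcases n with _ | n
      · simp
      · rw [coeff_succ_X_mul, coeff_derivative, coeff_Gs]; push_cast; ring
    rw [this]
    simp only [coeff_Gs, coeff_G1s]
    linear_combination dj_ii z n

open PowerSeries in
lemma gf_sq [IsDomain A] [CharZero A] {z : A} (hz : z ≠ 0) :
    ((1 - X) ^ 2 + 4 * C z * X) * Gs z ^ 2 = 1 := by
  have h1 := gf_i z
  have h2 := gf_ii z
  have h0 : (-2 * C z * X : A⟦X⟧) ≠ 0 := by
    have e2 : (-2 * C z : A⟦X⟧) = C (-2 * z) := by simp only [map_neg, map_mul, map_ofNat]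
    rw [e2]
    refine mul_ne_zero ?_ X_ne_zero
    intro h
    have := congrArg constantCoeff h
    simp [hz] at this
  set G := Gs z
  set G1 := G1s z
  have h3 : ((1 - X) ^ 2 + 4 * C z * X) * d⁄dX A G = (1 - 2 * C z - X) * G := by
    apply mul_left_cancel₀ h0
    linear_combination (1 - 2 * C z - X) * h2 - (((1 - X) ^ 2 + 4 * C z * X)
      + (1 - 2 * C z - X) * X) * h1
  apply derivative.ext
  · simp only [d_mul, d_sq, map_add, map_sub, derivative_C, d_ofNat, derivative_one, derivative_X]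
    linear_combination 2 * G * h3
  · simp [G, cc_Gs]

open PowerSeries in
lemma gf_d [IsDomain A] [CharZero A] {z : A} (hz : z ≠ 0) :
    G1s z = -2 * C z * X * Gs z ^ 3 := by
  have h1 := gf_i z
  have h2 := gf_ii z
  have h3 := gf_sq hz
  linear_combination Gs z ^ 2 * (h2 - X * h1) - G1s z * h3

end

/-- The interpolation polynomial. -/
noncomputable def HH (k : ℕ) : Polynomial ℤ :=
  ∏ i ∈ range k, (Polynomial.C (16 * (i : ℤ) * (i + 1)) - Polynomial.X)

lemma HH_succ (k : ℕ) (B : ℤ) :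
    (HH (k + 1)).eval B = (HH k).eval B * (16 * k * (k + 1) - B) := by
  rw [HH, prod_range_succ, Polynomial.eval_mul, ← HH]; simp

lemma HH_zero (B : ℤ) : (HH 0).eval B = 1 := by simp [HH]

lemma HH_bb (j k : ℕ) :
    (HH k).eval (16 * (j : ℤ) * (j + 1)) = (-16) ^ k * (k.factorial : ℤ) ^ 2 * bb j k := by
  induction k with
  | zero => simp [HH_zero, bb_zero]
  | succ k ih =>
    rw [HH_succ, ih, Nat.factorial_succ]
    push_cast
    linear_combination (16 * (-16) ^ k * (k.factorial : ℤ) ^ 2) * bb_succ j k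

lemma HH_a (k : ℕ) : 4 ^ k * (HH k).eval (-3) =
    (k.factorial : ℤ) ^ 2 * ((k.centralBinom : ℤ) * (2 * k).centralBinom) := by
  induction k with
  | zero => simp [HH_zero]
  | succ k ih =>
    rw [HH_succ, Nat.factorial_succ, show 2 * (k + 1) = 2 * k + 1 + 1 by ring]
    have h1 := cb_succ k
    have h2 := cb_succ (2 * k)
    have h3 := cb_succ (2 * k + 1)
    push_cast at *
    apply mul_left_cancel₀ (show (2 : ℤ) ≠ 0 by norm_num)
    linear_combination (8 * (16 * k * (k + 1) + 3)) * ih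
      - ((k.factorial : ℤ) ^ 2 * (2 * k + 2) * ((2 * k + 1 + 1).centralBinom : ℤ)) * h1
      - ((k.factorial : ℤ) ^ 2 * 2 * (2 * k + 1) * (k.centralBinom : ℤ)) * h3
      - ((k.factorial : ℤ) ^ 2 * 4 * (4 * k + 3) * (k.centralBinom : ℤ)) * h2

lemma HH_c (k : ℕ) : (HH k).eval (-4) = (k.factorial : ℤ) ^ 2 * (k.centralBinom : ℤ) ^ 2 := by
  induction k with
  | zero => simp [HH_zero]
  | succ k ih =>
    rw [HH_succ, Nat.factorial_succ, ih]
    have h1 := cb_succ k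
    push_cast at *
    linear_combination (-(k.factorial : ℤ) ^ 2 * (((k : ℤ) + 1) * ((k + 1).centralBinom : ℤ)
      + 2 * (2 * k + 1) * (k.centralBinom : ℤ))) * h1

lemma taylor_dvd (P : Polynomial ℤ) (x d₁ d₂ q : ℤ) (h₁ : q ∣ d₁) (h₂ : q ∣ d₂)
    (h : q ^ 2 ∣ 3 * d₁ + d₂) :
    q ^ 2 ∣ 4 * P.eval x - 3 * P.eval (x + d₁) - P.eval (x + d₂) := by
  obtain ⟨k₁, e₁⟩ := P.binomExpansion x d₁
  obtain ⟨k₂, e₂⟩ := P.binomExpansion x d₂
  obtain ⟨u₁, rfl⟩ := h₁
  obtain ⟨u₂, rfl⟩ := h₂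
  obtain ⟨u, hu⟩ := h
  exact ⟨-(Polynomial.eval x (Polynomial.derivative P) * u) - 3 * k₁ * u₁ ^ 2 - k₂ * u₂ ^ 2, by
    rw [e₁, e₂]
    linear_combination (-Polynomial.eval x (Polynomial.derivative P)) * hu⟩

lemma cancel_fact {p k : ℕ} (hp : p.Prime) (hk : k < p) (e : ℕ) {x : ℤ}
    (h : (p : ℤ) ^ e ∣ (k.factorial : ℤ) ^ 2 * x) : (p : ℤ) ^ e ∣ x := by
  have hc : IsCoprime ((p : ℤ) ^ e) ((k.factorial : ℤ) ^ 2) := by
    apply IsCoprime.pow
    rw [Nat.isCoprime_iff_coprime, hp.coprime_iff_not_dvd, hp.dvd_factorial]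
    omega
  exact hc.dvd_of_dvd_mul_left h

lemma interp_sq {p k j₁ j₂ : ℕ} (hp : p.Prime) (hk : k < p)
    (h₁ : (p : ℤ) ∣ 16 * j₁ * (j₁ + 1) + 3) (h₂ : (p : ℤ) ∣ 16 * j₂ * (j₂ + 1) + 3)
    (h : (p : ℤ) ^ 2 ∣ 3 * (16 * j₁ * (j₁ + 1) + 3) + (16 * j₂ * (j₂ + 1) + 3)) :
    (p : ℤ) ^ 2 ∣ 4 * ((k.centralBinom : ℤ) * (2 * k).centralBinom)
      - (-64) ^ k * (3 * bb j₁ k + bb j₂ k) := by
  apply cancel_fact hp hk
  have := (taylor_dvd (HH k) (-3) _ _ _ h₁ h₂ h).mul_left (4 ^ k)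
  rw [show (-3 : ℤ) + (16 * j₁ * (j₁ + 1) + 3) = 16 * j₁ * (j₁ + 1) by ring,
    show (-3 : ℤ) + (16 * j₂ * (j₂ + 1) + 3) = 16 * j₂ * (j₂ + 1) by ring, HH_bb, HH_bb] at this
  have e : (-64 : ℤ) ^ k = 4 ^ k * (-16) ^ k := by rw [← mul_pow]; norm_num
  have e2 : (k.factorial : ℤ) ^ 2 * (4 * ((k.centralBinom : ℤ) * (2 * k).centralBinom)
      - (-64) ^ k * (3 * bb j₁ k + bb j₂ k)) = 4 ^ k * (4 * (HH k).eval (-3)
      - 3 * ((-16) ^ k * (k.factorial : ℤ) ^ 2 * bb j₁ k)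
      - (-16) ^ k * (k.factorial : ℤ) ^ 2 * bb j₂ k) := by
    rw [e]; linear_combination (-4) * HH_a k
  rw [e2]; exact this

lemma interp_one {p k j : ℕ} (hp : p.Prime) (hk : k < p)
    (h₁ : (p : ℤ) ∣ 16 * j * (j + 1) + 3) :
    (p : ℤ) ∣ ((k.centralBinom : ℤ) * (2 * k).centralBinom) - (-64) ^ k * bb j k := by
  rw [← pow_one (p : ℤ)]
  apply cancel_fact hp hk
  rw [pow_one]
  rw [← sub_neg_eq_add] at h₁
  have := (h₁.trans (Polynomial.sub_dvd_eval_sub (16 * (j : ℤ) * (j + 1)) (-3) (HH k))).mul_left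
    (-4 ^ k)
  rw [HH_bb] at this
  have e : (-64 : ℤ) ^ k = 4 ^ k * (-16) ^ k := by rw [← mul_pow]; norm_num
  have e2 : (k.factorial : ℤ) ^ 2 * (((k.centralBinom : ℤ) * (2 * k).centralBinom)
      - (-64) ^ k * bb j k) = -4 ^ k * ((-16) ^ k * (k.factorial : ℤ) ^ 2 * bb j k
      - (HH k).eval (-3)) := by
    rw [e]; linear_combination (-1) * HH_a k
  rw [e2]; exact this

lemma interp_c {p k n : ℕ} (hp : p.Prime) (hk : k < p) (hn : p = 2 * n + 1) :
    (p : ℤ) ∣ (k.centralBinom : ℤ) ^ 2 - (-16) ^ k * bb n k := by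
  rw [← pow_one (p : ℤ)]
  apply cancel_fact hp hk
  rw [pow_one]
  have h₁ : (p : ℤ) ∣ 16 * n * (n + 1) - (-4) := ⟨4 * p, by rw [hn]; push_cast; ring⟩
  have := (h₁.trans (Polynomial.sub_dvd_eval_sub (16 * (n : ℤ) * (n + 1)) (-4) (HH k))).neg_right
  rw [HH_bb, HH_c] at this
  have e2 : (k.factorial : ℤ) ^ 2 * ((k.centralBinom : ℤ) ^ 2 - (-16) ^ k * bb n k) =
      -((-16) ^ k * (k.factorial : ℤ) ^ 2 * bb n k
        - (k.factorial : ℤ) ^ 2 * (k.centralBinom : ℤ) ^ 2) := by ring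
  rw [e2]; exact this

end Pool.Agent.MP_d8ab80_nt

end

section

/-! A product formula for Legendre polynomials. -/

set_option linter.unusedSectionVars false
set_option linter.unusedSimpArgs false

namespace Pool.Agent.MP_d8ab80_nt
open Polynomial Finset

variable {k : Type*} [Field k]

/-- The Legendre operator. -/
noncomputable def LL (g : k[X]) : k[X] := derivative (X * (1 - X) * derivative g)

lemma LL_add (f g : k[X]) : LL (f + g) = LL f + LL g := by
  simp only [LL, derivative_add, mul_add]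

lemma LL_C (a : k) (f : k[X]) : LL (C a * f) = C a * LL f := by
  simp only [LL, derivative_C_mul, mul_left_comm _ (C a)]

lemma LL_sum {ι : Type*} (s : Finset ι) (f : ι → k[X]) : LL (∑ i ∈ s, f i) = ∑ i ∈ s, LL (f i) := by
  simp only [LL, derivative_sum, mul_sum]

lemma X_mul_deriv_coeff (g : k[X]) (j : ℕ) : (X * derivative g).coeff j = j * g.coeff j := by
  rcases j with _ | j
  · simp
  · rw [coeff_X_mul, coeff_derivative]; push_cast; ring

lemma LL_coeff (g : k[X]) (j : ℕ) :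
    (LL g).coeff j = (j + 1) ^ 2 * g.coeff (j + 1) - j * (j + 1) * g.coeff j := by
  have : X * (1 - X) * derivative g = X * derivative g - X * (X * derivative g) := by ring
  rw [LL, coeff_derivative, this, coeff_sub, coeff_X_mul (X * _), X_mul_deriv_coeff,
    X_mul_deriv_coeff]
  push_cast; ring

/-- The basic monomials. -/
noncomputable def EE (i j : ℕ) : k[X] := X ^ i * (1 - X) ^ j

lemma LL_EE (i j : ℕ) : LL (EE i j : k[X]) + ((i : k[X]) + (j : k[X])) * ((i : k[X]) + (j : k[X]) + 1)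
    * (EE i j : k[X]) =
    (i : k[X]) ^ 2 * EE (i - 1) j + (j : k[X]) ^ 2 * EE i (j - 1) := by
  have h1 : X * (1 - X) * derivative (EE i j : k[X]) =
      ((i : k[X]) * (1 - X) - (j : k[X]) * X) * EE i j := by
    rcases i with _ | i <;> rcases j with _ | j <;>
      simp only [EE, derivative_mul, derivative_pow_succ, derivative_sub, derivative_one,
        derivative_X, pow_zero, map_add, map_natCast, map_one] <;> push_cast <;> ring
  rw [LL, h1]
  rcases i with _ | i <;> rcases j with _ | j <;>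
    simp only [EE, derivative_mul, derivative_pow_succ, derivative_sub, derivative_one,
      derivative_X, pow_zero, map_add, map_natCast, map_one, derivative_natCast,
      Nat.add_sub_cancel, Nat.zero_sub] <;> push_cast <;> ring

/-- The homogeneous pieces. -/
noncomputable def ff (a b : k) (m : ℕ) : k[X] :=
  ∑ x ∈ antidiagonal m, C ((m.choose x.1 : k) ^ 2 * a ^ x.1 * b ^ x.2) * EE x.1 x.2

lemma LL_ff_zero (a b : k) : LL (ff a b 0) = 0 := by simp [ff, EE, LL]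

lemma LL_ff (a b : k) (m : ℕ) : LL (ff a b (m + 1)) + ((m : k[X]) + 1) * (m + 2) * ff a b (m + 1) =
    ((m : k[X]) + 1) ^ 2 * C (a + b) * ff a b m := by
  have h1 : LL (ff a b (m + 1)) + ((m : k[X]) + 1) * (m + 2) * ff a b (m + 1) =
      ∑ x ∈ antidiagonal (m + 1), C (((m + 1).choose x.1 : k) ^ 2 * a ^ x.1 * b ^ x.2) *
        ((x.1 : k[X]) ^ 2 * EE (x.1 - 1) x.2) +
      ∑ x ∈ antidiagonal (m + 1), C (((m + 1).choose x.1 : k) ^ 2 * a ^ x.1 * b ^ x.2) *
        ((x.2 : k[X]) ^ 2 * EE x.1 (x.2 - 1)) := by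
    rw [ff, LL_sum, mul_sum, ← sum_add_distrib, ← sum_add_distrib]
    refine sum_congr rfl fun x hx => ?_
    have h2 : ((x.1 : k[X]) + x.2) = m + 1 := by
      exact_mod_cast congrArg (Nat.cast : ℕ → k[X]) (mem_antidiagonal.1 hx)
    have h3 := LL_EE (k := k) x.1 x.2
    rw [h2] at h3
    rw [LL_C]
    linear_combination C (((m + 1).choose x.1 : k) ^ 2 * a ^ x.1 * b ^ x.2) * h3
  rw [h1, Finset.Nat.sum_antidiagonal_succ, Finset.Nat.sum_antidiagonal_succ', ff, mul_sum]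
  simp only [Nat.cast_zero, ne_eq, OfNat.ofNat_ne_zero, not_false_eq_true, zero_pow, zero_mul,
    mul_zero, zero_add, Nat.add_sub_cancel]
  rw [← sum_add_distrib]
  refine sum_congr rfl fun x hx => ?_
  have hm := mem_antidiagonal.1 hx
  have h2 : ((m : k[X]) + 1) * (m.choose x.1 : k[X]) = ((m + 1).choose (x.1 + 1) : k[X]) * (x.1 + 1) := by
    exact_mod_cast congrArg (Nat.cast : ℕ → k[X]) (Nat.add_one_mul_choose_eq m x.1)
  have h3 : ((m : k[X]) + 1) * (m.choose x.1 : k[X]) = ((m + 1).choose x.1 : k[X]) * (x.2 + 1) := by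
    have := Nat.add_one_mul_choose_eq m x.2
    rw [Nat.choose_symm_of_eq_add (show m = x.2 + x.1 by omega),
      Nat.choose_symm_of_eq_add (show m + 1 = (x.2 + 1) + x.1 by omega)] at this
    exact_mod_cast congrArg (Nat.cast : ℕ → k[X]) this
  simp only [map_mul, map_pow, map_natCast, map_add]
  push_cast
  linear_combination (-(C a ^ (x.1 + 1) * C b ^ x.2 * EE x.1 x.2) * ((m + 1) * (m.choose x.1 : k[X])
      + ((m + 1).choose (x.1 + 1) : k[X]) * (x.1 + 1))) * h2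
    + (-(C a ^ x.1 * C b ^ (x.2 + 1) * EE x.1 x.2) * ((m + 1) * (m.choose x.1 : k[X])
      + ((m + 1).choose x.1 : k[X]) * (x.2 + 1))) * h3

lemma ff_natDegree (a b : k) (m : ℕ) : (ff a b m).natDegree ≤ m := by
  refine natDegree_sum_le_of_forall_le _ _ fun x hx => (natDegree_C_mul_le _ _).trans ?_
  have h1 : ((1 - X : k[X]) ^ x.2).natDegree ≤ x.2 * 1 :=
    natDegree_pow_le_of_le _ (by compute_degree)
  have := natDegree_mul_le_of_le (natDegree_X_pow_le (R := k) x.1) h1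
  have hm := mem_antidiagonal.1 hx
  rw [EE]; omega

lemma ff_eval (a b t : k) (m : ℕ) : (ff a b m).eval t =
    (((1 + C (a * t) * X) * (1 + C (b * (1 - t)) * X)) ^ m).coeff m := by
  have hc : ∀ (u : k) (i : ℕ), ((1 + C u * X) ^ m).coeff i = m.choose i * u ^ i := by
    intro u i
    have : (1 + C u * X) ^ m = ((1 + X) ^ m).comp (C u * X) := by simp
    rw [this, comp_C_mul_X_coeff, coeff_one_add_X_pow]
  rw [ff, eval_finsetSum, mul_pow, coeff_mul]
  refine sum_congr rfl fun x hx => ?_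
  have hm := mem_antidiagonal.1 hx
  rw [hc, hc, Nat.choose_symm_of_eq_add (show m = x.2 + x.1 by omega)]
  simp only [EE, eval_mul, eval_C, eval_pow, eval_X, eval_sub, eval_one, mul_pow]
  ring

lemma legendre_unique {n : ℕ} (hchar : ∀ j < n, ((j : k) + 1) ≠ 0) {g : k[X]}
    (hg : g.natDegree ≤ n) (hL : LL g + (n : k[X]) * (n + 1) * g = 0) (t : k) :
    g.eval t = g.eval 0 * pj t n := by
  have key : ∀ j ≤ n, g.coeff j = g.coeff 0 * ((-1) ^ j * bb n j) := by
    intro j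
    induction j with
    | zero => intro _; simp [bb_zero]
    | succ j ih =>
      intro hj
      have h1 := congrArg (fun P => coeff P j) hL
      have e : (n : k[X]) * (n + 1) = C ((n : k) * (n + 1)) := by simp
      simp only [e, coeff_add, coeff_C_mul, LL_coeff, coeff_zero] at h1
      have h2 := congrArg (Int.cast : ℤ → k) (bb_succ n j)
      push_cast at h2
      apply mul_left_cancel₀ (pow_ne_zero 2 (hchar j (by omega)))
      rw [ih (by omega)] at h1
      linear_combination h1 + (g.coeff 0 * (-1) ^ j) * h2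
  rw [eval_eq_sum_range' (Nat.lt_succ_of_le hg), pj, mul_sum, ← coeff_zero_eq_eval_zero]
  refine sum_congr rfl fun j hj => ?_
  rw [key j (by simpa [Nat.lt_succ_iff] using hj), neg_pow t]
  ring

lemma ff_eval_zero (a b : k) (m : ℕ) : (ff a b m).eval 0 = b ^ m := by
  rw [ff_eval]
  have : ((1 + C (a * 0) * X) * (1 + C (b * (1 - 0)) * X)) ^ m = ((1 + X) ^ m).comp (C b * X) := by
    simp
  rw [this, comp_C_mul_X_coeff, coeff_one_add_X_pow]; simp

lemma pj_eq_coeff {n : ℕ} (hchar : ∀ j < n, ((j : k) + 1) ≠ 0) (t : k) :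
    pj t n = (((1 - C t * X) * (1 + C (1 - t) * X)) ^ n).coeff n := by
  have h := legendre_unique hchar (ff_natDegree (-1) 1 n) (by
    rcases n with _ | n
    · simp [LL_ff_zero]
    · have := LL_ff (-1 : k) 1 n
      simp only [neg_add_cancel, map_zero, mul_zero, zero_mul] at this
      push_cast
      linear_combination this) t
  rw [ff_eval_zero, one_pow, one_mul, ff_eval] at h
  rw [← h]
  simp [sub_eq_add_neg]

theorem product_formula {n : ℕ} (hchar : ∀ j < n, ((j : k) + 1) ≠ 0) (t y : k) :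
    ∑ m ∈ range (n + 1), (-1) ^ m * (bb n m : k) * (ff (1 - y) y m).eval t = pj y n * pj t n := by
  set g := ∑ m ∈ range (n + 1), C ((-1) ^ m * (bb n m : k)) * ff (1 - y) y m with hg
  have tel : ∀ N, ∑ m ∈ range (N + 1), C ((-1) ^ m * (bb n m : k)) *
      (LL (ff (1 - y) y m) + (n : k[X]) * (n + 1) * ff (1 - y) y m) =
      C ((-1) ^ N * (bb n N : k)) * ((n : k[X]) * (n + 1) - N * (N + 1)) * ff (1 - y) y N := by
    intro N
    induction N with
    | zero => simp [LL_ff_zero, mul_assoc]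
    | succ N ih =>
      rw [sum_range_succ, ih]
      have h1 := LL_ff (1 - y) y N
      rw [sub_add_cancel, map_one] at h1
      have h2 := congrArg (Int.cast : ℤ → k[X]) (bb_succ n N)
      simp only [map_mul, map_pow, map_neg, map_one, map_natCast]
      push_cast at h2 ⊢
      linear_combination ((-1) ^ (N + 1) * (bb n (N + 1) : k[X])) * h1
        - ((-1) ^ N * ff (1 - y) y N) * h2
  have h := legendre_unique hchar (g := g) (natDegree_sum_le_of_forall_le _ _ fun m hm =>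
    (natDegree_C_mul_le _ _).trans ((ff_natDegree _ _ _).trans
      (by simpa [Nat.lt_succ_iff] using hm))) (by
    have := tel n
    rw [sub_self, mul_zero, zero_mul] at this
    rw [← this, hg, LL_sum, mul_sum, ← sum_add_distrib]
    refine sum_congr rfl fun m _ => ?_
    rw [LL_C]; ring) t
  simp only [hg, eval_finsetSum, eval_mul, eval_C, ff_eval_zero] at h
  rw [h, pj]
  congr 1
  refine sum_congr rfl fun m _ => ?_
  rw [neg_pow y]; ring

lemma coeff_one_add_sq (c : k) (m : ℕ) : ((1 + C c * X ^ 2) ^ m).coeff m =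
    if 2 ∣ m then (m.choose (m / 2) : k) * c ^ (m / 2) else 0 := by
  have : (1 + C c * X ^ 2) ^ m = expand k 2 (((1 + X) ^ m).comp (C c * X)) := by simp
  rw [this, coeff_expand two_pos, comp_C_mul_X_coeff, coeff_one_add_X_pow]

lemma sum_even (F : ℕ → k) (hF : ∀ j, F (2 * j + 1) = 0) (N : ℕ) :
    ∑ m ∈ range (2 * N), F m = ∑ j ∈ range N, F (2 * j) := by
  induction N with
  | zero => simp
  | succ N ih => rw [show 2 * (N + 1) = 2 * N + 1 + 1 by ring, sum_range_succ, sum_range_succ, ih,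
      hF, sum_range_succ, add_zero]

theorem even_sum {n N : ℕ} (hN : n < 2 * N) (hchar : ∀ j < n, ((j : k) + 1) ≠ 0) {t y c : k}
    (h1 : (1 - y) * t + y * (1 - t) = 0) (h2 : (1 - y) * t * (y * (1 - t)) = c) :
    ∑ j ∈ range N, (j.centralBinom : k) * (bb n (2 * j) : k) * c ^ j = pj y n * pj t n := by
  rw [← product_formula hchar]
  have e : ∀ m, (ff (1 - y) y m).eval t =
      if 2 ∣ m then (m.choose (m / 2) : k) * c ^ (m / 2) else 0 := by
    intro m
    rw [ff_eval, ← coeff_one_add_sq]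
    congr 2
    have e1 := congrArg C h1
    have e2 := congrArg C h2
    rw [map_add, map_zero] at e1
    rw [map_mul] at e2
    linear_combination X * e1 + X ^ 2 * e2
  rw [sum_subset (range_subset_range.2 (show n + 1 ≤ 2 * N by omega)) (fun m _ hm => by
    rw [bb_eq_zero (by simpa using hm)]; simp), sum_even _ (fun j => by
    rw [e, if_neg (by omega), mul_zero])]
  refine sum_congr rfl fun j _ => ?_
  rw [e, if_pos (dvd_mul_right _ _), Nat.mul_div_cancel_left _ two_pos, pow_mul, Nat.centralBinom]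
  ring

end Pool.Agent.MP_d8ab80_nt

end
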