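import Pool.Agent.Mg.Fd8ab80.G3f8edb

/-! Multiplication by every element of `ℤ[φ]`, `φ ^ 2 = φ - 2`, as a rational map. -/

set_option linter.unusedSectionVars false
set_option linter.unusedSimpArgs false

namespace Pool.Agent.MP_d8ab80_nt
open Polynomial

variable {R : Type*} [CommRing R] [IsDomain R] [CharZero R]

/-- The field of fractions. -/
abbrev FK (R : Type*) [CommRing R] := FractionRing R

/-- The curve parameter. -/
noncomputable def rhoK (φ : R) : FK R := algebraMap R (FK R) (3 * (2 * φ - 1))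

/-- Evaluation at the basic solution. -/
noncomputable def ev (φ : R) : R[X] →ₐ[R] PowerSeries (FK R) := aeval (t0 (rhoK φ))

lemma ev_C (φ c : R) : ev φ (C c) = PowerSeries.C (algebraMap R (FK R) c) := by
  rw [ev, aeval_C, PowerSeries.algebraMap_apply]

lemma ev_X (φ : R) : ev φ X = t0 (rhoK φ) := by rw [ev, aeval_X]

lemma cc_ev (φ : R) (P : R[X]) :
    PowerSeries.constantCoeff (ev φ P) = algebraMap R (FK R) (P.coeff 0) := by
  induction P using Polynomial.induction_on' with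
  | add p q hp hq => simp [hp, hq]
  | monomial n a =>
    rw [← C_mul_X_pow_eq_monomial, map_mul, map_pow, ev_C, ev_X, map_mul, map_pow,
      (sol_one _).c1, PowerSeries.constantCoeff_C, coeff_C_mul, coeff_X_pow]
    rcases n with _ | n <;> simp

lemma ev_inj (φ : R) {P : R[X]} (h : ev φ P = 0) : P = 0 := by
  by_contra hP
  obtain ⟨q, h1, h2⟩ := exists_eq_pow_rootMultiplicity_mul_and_not_dvd P hP 0
  rw [h1, map_mul, map_pow, map_zero, sub_zero, ev_X] at h
  have h3 := (mul_eq_zero.1 h).resolve_left (pow_ne_zero _ (t0_ne_zero _))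
  have h4 := cc_ev φ q
  rw [h3, map_zero] at h4
  apply h2
  rw [map_zero, sub_zero, X_dvd_iff]
  exact (IsFractionRing.injective R (FK R)) (by rw [← h4, map_zero])

lemma d_ev (φ : R) (P : R[X]) :
    PowerSeries.derivative (FK R) (ev φ P) = ev φ (derivative P) * (2 * w0 (rhoK φ)) := by
  induction P using Polynomial.induction_on with
  | C a => simp [ev_C]
  | add p q hp hq => simp only [map_add, hp, hq]; ring
  | monomial n a ih =>
    rw [pow_succ, ← mul_assoc, map_mul, d_mul, ih, ev_X, (sol_one _).d1,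
      derivative_mul (f := C a * X ^ n), derivative_X]
    simp only [map_add, map_mul, map_one, ev_X, mul_one]
    ring

/-- The element `a + b φ`. -/
def al (φ : R) (a b : ℤ) : R := a + b * φ

/-- Normalised top coefficient of the numerator. -/
def ah (φ : R) (a b : ℤ) : R :=
  if b % 2 = 0 then (if a % 2 = 0 then 0 else 1) else (if a % 2 = 0 then (1 - φ) ^ 2 else -φ ^ 2)

/-- Normalised top coefficient of the denominator. -/
def nh (φ : R) (a b : ℤ) : R :=
  if b % 2 = 0 then (if a % 2 = 0 then 1 else 0) else (if a % 2 = 0 then φ ^ 2 else (1 - φ) ^ 2)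

/-- The right side of the logarithmic relation. -/
noncomputable def gg (φ : R) (a b : ℤ) (m : ℕ) : PowerSeries (FK R) :=
  PowerSeries.C (algebraMap R (FK R) (8 * b * al φ a b)) +
    16 * PowerSeries.C (algebraMap R (FK R) (al φ a b)) ^ 2 *
      tt (rhoK φ) (algebraMap R (FK R) (al φ a b)) - 16 * m * t0 (rhoK φ)

/-- The inductive data. -/
structure Good (φ : R) (a b : ℤ) (m : ℕ) (T F : R[X]) : Prop where
  hm : (m : ℤ) = a ^ 2 + a * b + 2 * b ^ 2
  hT : ev φ (X * T) = tt (rhoK φ) (algebraMap R (FK R) (al φ a b)) * ev φ F ^ 2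
  F0 : F.eval 0 = 1
  T0 : T.eval 0 = al φ a b ^ 2
  hL : LogRel (ev φ F) (gg φ a b m)
  dT : (X * T).natDegree ≤ m
  dF : (F ^ 2).natDegree ≤ m
  cT : 4 * (X * T).coeff m = 4 ^ m * ah φ a b
  cF : (F ^ 2).coeff m = 4 ^ m * nh φ a b

/-- The finer data for elements congruent to `1` modulo `2`. -/
structure GoodOdd (φ : R) (a b : ℤ) (n : ℕ) (A F : R[X]) : Prop where
  hm : 2 * (n : ℤ) + 1 = a ^ 2 + a * b + 2 * b ^ 2
  hT : ev φ (X * A ^ 2) = tt (rhoK φ) (algebraMap R (FK R) (al φ a b)) * ev φ F ^ 2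
  F0 : F.eval 0 = 1
  A0 : A.eval 0 = al φ a b
  hL : LogRel (ev φ F) (gg φ a b (2 * n + 1))
  dA : A.natDegree ≤ n
  dF : F.natDegree ≤ n
  cA : A.coeff n = (if (a + b) % 4 = 1 then 1 else -1) * 4 ^ n

lemma GoodOdd.good {φ : R} {a b : ℤ} {n : ℕ} {A F : R[X]} (h : GoodOdd φ a b n A F)
    (ha : a % 2 = 1) (hb : b % 2 = 0) : Good φ a b (2 * n + 1) (A ^ 2) F := by
  have dA2 : (A ^ 2).natDegree ≤ 2 * n := natDegree_pow_le_of_le 2 h.dA
  have dF2 : (F ^ 2).natDegree ≤ 2 * n := natDegree_pow_le_of_le 2 h.dF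
  refine ⟨by push_cast; exact h.hm, h.hT, h.F0, by rw [eval_pow, h.A0], h.hL, ?_,
    dF2.trans (by omega), ?_, ?_⟩
  · have := natDegree_mul_le_of_le (natDegree_X_le (R := R)) dA2
    omega
  · rw [coeff_X_mul, coeff_pow_of_natDegree_le h.dA, h.cA, ah, if_pos hb,
      if_neg (show ¬ a % 2 = 0 by omega)]
    split_ifs <;> ring
  · rw [coeff_eq_zero_of_natDegree_lt (by omega), nh, if_pos hb,
      if_neg (show ¬ a % 2 = 0 by omega), mul_zero]

lemma step_cm {φ ψ σ : R} (hψ : ψ ^ 2 = ψ - 2) (hσ : σ ^ 2 = 1)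
    (hρ : 3 * (2 * φ - 1) = 3 * σ * (2 * ψ - 1)) {a b a' b' : ℤ} {m : ℕ} {T F : R[X]}
    (h : Good φ a b m T F)
    (hm : a' ^ 2 + a' * b' + 2 * b' ^ 2 = 2 * (a ^ 2 + a * b + 2 * b ^ 2))
    (hal : al φ a' b' = ψ * al φ a b)
    (hc : 8 * b' * al φ a' b' = 2 * (8 * b * al φ a b) + 8 * σ * ψ * al φ a b ^ 2)
    (hah : 4 * ah φ a' b' = ψ ^ 2 * ah φ a b * (4 * nh φ a b + σ * (3 * ψ - 1) * ah φ a b))
    (hnh : nh φ a' b' = (nh φ a b + σ * ψ * ah φ a b) ^ 2) :
    Good φ a' b' (m + m) (C (ψ ^ 2) * T * (F ^ 2 + C (σ * (3 * ψ - 1)) * (X * T)))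
      (F ^ 2 + C (4 * σ * ψ) * (X * T)) := by
  set ι := algebraMap R (FK R) with hι
  have hψ' : ι ψ ^ 2 = ι ψ - 2 := by rw [← map_pow, hψ, map_sub, map_ofNat]
  have hσ' : ι σ ^ 2 = 1 := by rw [← map_pow, hσ, map_one]
  have hρ' : rhoK φ = 3 * ι σ * (2 * ι ψ - 1) := by
    rw [rhoK, hρ]; simp only [map_mul, map_sub, map_ofNat, map_one, hι]
  have e1 := tt_cm hψ' hσ' hρ' (ι (al φ a b))
  have e2 := logRel_cm hψ' hσ' hρ' (ι (al φ a b))
  have hT := h.hT
  have d1 : (F ^ 2 + C (σ * (3 * ψ - 1)) * (X * T)).natDegree ≤ m :=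
    natDegree_add_le_of_degree_le h.dF ((natDegree_C_mul_le _ _).trans h.dT)
  have d2 : (F ^ 2 + C (4 * σ * ψ) * (X * T)).natDegree ≤ m :=
    natDegree_add_le_of_degree_le h.dF ((natDegree_C_mul_le _ _).trans h.dT)
  have eT : X * (C (ψ ^ 2) * T * (F ^ 2 + C (σ * (3 * ψ - 1)) * (X * T))) =
      C (ψ ^ 2) * ((X * T) * (F ^ 2 + C (σ * (3 * ψ - 1)) * (X * T))) := by ring
  have eF : ev φ (F ^ 2 + C (4 * σ * ψ) * (X * T)) = ev φ F * ev φ F *
      (1 + 4 * PowerSeries.C (ι σ) * PowerSeries.C (ι ψ) * tt (rhoK φ) (ι (al φ a b))) := by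
    rw [map_add, map_pow, map_mul (ev φ) (C _), hT, ev_C]
    simp only [map_mul, map_ofNat, ← hι]
    ring
  refine ⟨by push_cast; rw [hm, h.hm]; ring, ?_, ?_, ?_, ?_, ?_, ?_, ?_, ?_⟩
  · rw [eT, eF, hal, map_mul ι, map_mul (ev φ) (C _), map_mul (ev φ) (X * T), map_add,
      map_mul (ev φ) (C _), hT, ev_C, ev_C]
    simp only [map_mul, map_ofNat, map_pow, map_sub, map_one, ← hι]
    linear_combination (-(ev φ F) ^ 4) * e1
  · simp [h.F0]
  · simp only [eval_mul, eval_C, eval_add, eval_pow, eval_X, h.F0, h.T0, hal]; ring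
  · rw [eF]
    have := (h.hL.mul h.hL).mul e2
    have e3 : gg φ a' b' (m + m) = gg φ a b m + gg φ a b m +
        (8 * PowerSeries.C (ι σ) * PowerSeries.C (ι ψ) * PowerSeries.C (ι (al φ a b)) ^ 2
        + 16 * PowerSeries.C (ι ψ * ι (al φ a b)) ^ 2 * tt (rhoK φ) (ι ψ * ι (al φ a b))
        - 32 * PowerSeries.C (ι (al φ a b)) ^ 2 * tt (rhoK φ) (ι (al φ a b))) := by
      rw [gg, gg, hc, hal]
      simp only [map_mul, map_ofNat, map_pow, map_add, ← hι]
      push_cast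
      ring
    rw [e3]; exact this
  · rw [eT]
    exact (natDegree_C_mul_le _ _).trans (natDegree_mul_le_of_le h.dT d1)
  · rw [pow_two]; exact natDegree_mul_le_of_le d2 d2
  · rw [eT, coeff_C_mul, coeff_mul_add_eq_of_natDegree_le h.dT d1, coeff_add, coeff_C_mul, h.cF]
    apply mul_left_cancel₀ (show (4 : R) ≠ 0 by norm_num)
    have := h.cT
    rw [pow_add]
    linear_combination (-(4 ^ m * 4 ^ m)) * hah + (ψ ^ 2 * (4 * 4 ^ m * nh φ a b)
      + ψ ^ 2 * σ * (3 * ψ - 1) * (4 * (X * T).coeff m + 4 ^ m * ah φ a b)) * this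
  · rw [pow_two, coeff_mul_add_eq_of_natDegree_le d2 d2, coeff_add, coeff_C_mul, h.cF, hnh,
      pow_add]
    have := h.cT
    linear_combination (σ * ψ * (2 * 4 ^ m * nh φ a b
      + σ * ψ * (4 * (X * T).coeff m + 4 ^ m * ah φ a b))) * this

lemma step_odd {φ : R} (hφ : φ ^ 2 = φ - 2) {a b : ℤ} {m m' n : ℕ} {T F T' F' : R[X]}
    (h : Good φ (a + 1) b m T F) (h' : Good φ a b m' T' F') (hn : m + m' = n + 1) :
    GoodOdd φ (2 * a + 1) (2 * b) n (T * F' ^ 2 - F ^ 2 * T')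
      (F ^ 2 * F' ^ 2 + 16 * ((X * T) * (X * T'))) := by
  set ι := algebraMap R (FK R) with hι
  set x := ι (al φ (a + 1) b) with hx
  set y := ι (al φ a b) with hy
  have hxy : ι (al φ (2 * a + 1) (2 * b)) = x + y := by
    rw [hx, hy, ← map_add]; congr 1; simp only [al]; push_cast; ring
  have hxy' : x - y = 1 := by
    rw [hx, hy, ← map_sub, ← map_one ι]; congr 1; simp only [al]; push_cast; ring
  have e1 := tt_add_mul_sub (rhoK φ) x y
  have e2 := logRel_add (rhoK φ) x y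
  rw [hxy', tt_one] at e1 e2
  have hT := h.hT
  have hT' := h'.hT
  rw [← hι, ← hx] at hT
  rw [← hι, ← hy] at hT'
  have eF : ev φ (F ^ 2 * F' ^ 2 + 16 * ((X * T) * (X * T'))) =
      ev φ F * ev φ F * (ev φ F' * ev φ F') * (1 + 16 * tt (rhoK φ) x * tt (rhoK φ) y) := by
    rw [map_add, map_mul (ev φ) 16, map_mul (ev φ) (X * T), hT, hT']
    simp only [map_mul, map_ofNat, map_pow]
    ring
  have eA : X * (T * F' ^ 2 - F ^ 2 * T') = (X * T) * F' ^ 2 - F ^ 2 * (X * T') := by ring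
  have dXA : (X * (T * F' ^ 2 - F ^ 2 * T')).natDegree ≤ n + 1 := by
    rw [eA, ← hn]
    exact natDegree_sub_le_of_le (natDegree_mul_le_of_le h.dT h'.dF)
      (natDegree_mul_le_of_le h.dF h'.dT) |>.trans (by simp)
  have dF : (F ^ 2 * F' ^ 2 + 16 * ((X * T) * (X * T'))).natDegree ≤ n + 1 := by
    rw [← hn, show (16 : R[X]) = C 16 from rfl]
    exact natDegree_add_le_of_degree_le (natDegree_mul_le_of_le h.dF h'.dF)
      ((natDegree_C_mul_le _ _).trans (natDegree_mul_le_of_le h.dT h'.dT))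
  have hm := h.hm
  have hm' := h'.hm
  have hn' : (m : ℤ) + m' = n + 1 := by exact_mod_cast hn
  refine ⟨by linear_combination 2 * hm + 2 * hm' - 2 * hn', ?_, ?_, ?_, ?_, ?_, ?_, ?_⟩
  · apply mul_left_cancel₀ (t0_ne_zero (rhoK φ))
    have : t0 (rhoK φ) * ev φ (X * (T * F' ^ 2 - F ^ 2 * T') ^ 2) =
        ev φ (X * (T * F' ^ 2 - F ^ 2 * T')) ^ 2 := by
      rw [map_mul, map_mul, map_pow, ev_X]; ring
    rw [this, eA, eF, hxy, map_sub, map_mul (ev φ) (X * T), map_mul (ev φ) _ (X * T'), hT, hT',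
      map_pow, map_pow]
    linear_combination (-(ev φ F) ^ 4 * (ev φ F') ^ 4) * e1
  · simp [h.F0, h'.F0]
  · simp only [eval_mul, eval_sub, eval_pow, h.F0, h'.F0, h.T0, h'.T0, al]; push_cast; ring
  · rw [eF]
    have := ((h.hL.mul h.hL).mul (h'.hL.mul h'.hL)).mul e2
    have e3 : gg φ (2 * a + 1) (2 * b) (2 * n + 1) = gg φ (a + 1) b m + gg φ (a + 1) b m +
        (gg φ a b m' + gg φ a b m') +
        16 * (PowerSeries.C (x + y) ^ 2 * tt (rhoK φ) (x + y)
          + PowerSeries.C 1 ^ 2 * t0 (rhoK φ)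
          - 2 * PowerSeries.C x ^ 2 * tt (rhoK φ) x - 2 * PowerSeries.C y ^ 2 * tt (rhoK φ) y) := by
      have hn2 : ((m : PowerSeries (FK R))) + m' = n + 1 := by exact_mod_cast congrArg Nat.cast hn
      simp only [gg, map_mul, map_ofNat, map_pow, map_add, ← hι, ← hx, ← hy, hxy, map_one,
        map_intCast]
      push_cast
      linear_combination (32 * t0 (rhoK φ)) * hn2
    rw [e3]; exact this
  · rw [natDegree_le_iff_coeff_eq_zero] at dXA ⊢
    intro N hN
    rw [← coeff_X_mul]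
    exact dXA _ (by omega)
  · rw [natDegree_le_iff_coeff_eq_zero]
    intro N hN
    rcases (show N = n + 1 ∨ n + 1 < N by omega) with rfl | hN'
    · rw [← hn, show (16 : R[X]) = C 16 from rfl, coeff_add, coeff_C_mul,
        coeff_mul_add_eq_of_natDegree_le h.dF h'.dF, coeff_mul_add_eq_of_natDegree_le h.dT h'.dT,
        h.cF, h'.cF]
      have c1 := h.cT
      have c2 := h'.cT
      have c3 : nh φ (a + 1) b * nh φ a b + ah φ (a + 1) b * ah φ a b = 0 := by
        simp only [nh, ah]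
        split_ifs <;> first | omega | ring
      linear_combination (4 ^ m * 4 ^ m') * c3 + (4 * (X * T').coeff m') * c1
        + (4 ^ m * ah φ (a + 1) b) * c2
    · exact coeff_eq_zero_of_natDegree_lt (by omega)
  · rw [← coeff_X_mul, eA, ← hn, coeff_sub, coeff_mul_add_eq_of_natDegree_le h.dT h'.dF,
      coeff_mul_add_eq_of_natDegree_le h.dF h'.dT, h.cF, h'.cF]
    apply mul_left_cancel₀ (show (4 : R) ≠ 0 by norm_num)
    have c1 := h.cT
    have c2 := h'.cT
    have c3 : ah φ (a + 1) b * nh φ a b - nh φ (a + 1) b * ah φ a b =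
        (if (2 * a + 1 + 2 * b) % 4 = 1 then 1 else -1) := by
      simp only [nh, ah]
      split_ifs <;> first | omega | ring1 | linear_combination (2 * φ ^ 2 - 2 * φ) * hφ |
        linear_combination (-2 * φ ^ 2 + 2 * φ) * hφ
    have c4 : (4 : R) ^ m * 4 ^ m' = 4 * 4 ^ n := by rw [← pow_add, hn, pow_succ]; ring
    rw [← c3]
    linear_combination (4 ^ m' * nh φ a b) * c1 - (4 ^ m * nh φ (a + 1) b) * c2
      + (ah φ (a + 1) b * nh φ a b - nh φ (a + 1) b * ah φ a b) * c4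

lemma norm_nonneg' (a b : ℤ) : 0 ≤ a ^ 2 + a * b + 2 * b ^ 2 := by
  nlinarith [sq_nonneg (2 * a + b), sq_nonneg b]

lemma good_zero (φ : R) : Good φ 0 0 0 0 1 := by
  refine ⟨by simp, by simp [al, tt_zero], by simp, by simp [al], ?_, by simp, by simp,
    by simp [ah], by simp [nh]⟩
  rw [map_one]
  have : gg φ 0 0 0 = 0 := by simp [gg, al]
  rw [this]; exact LogRel.one

lemma good_one (φ : R) {a : ℤ} (ha : a = 1 ∨ a = -1) : Good φ a 0 1 1 1 := by
  have h1 : tt (rhoK φ) (algebraMap R (FK R) (al φ a 0)) = t0 (rhoK φ) := by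
    rcases ha with rfl | rfl
    · simp [al, tt_one]
    · simp [al, tt_neg, tt_one]
  have h2 : al φ a 0 ^ 2 = 1 := by rcases ha with rfl | rfl <;> simp [al]
  refine ⟨by rcases ha with rfl | rfl <;> simp, by simp [h1, ev_X], by simp, by simp [h2], ?_,
    by simp, by simp, ?_, ?_⟩
  · rw [map_one]
    have : gg φ a 0 1 = 0 := by
      rw [gg, h1, ← map_pow, ← map_pow, h2]; simp
    rw [this]; exact LogRel.one
  · rcases ha with rfl | rfl <;> simp [ah]
  · rcases ha with rfl | rfl <;> simp [nh, coeff_one]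

theorem exists_good {φ : R} (hφ : φ ^ 2 = φ - 2) (m : ℕ) :
    ∀ a b : ℤ, (m : ℤ) = a ^ 2 + a * b + 2 * b ^ 2 → ∃ T F, Good φ a b m T F := by
  induction m using Nat.strong_induction_on with
  | _ m ih =>
  intro a b hm
  rcases Nat.eq_zero_or_pos m with rfl | hpos
  · have hb : b = 0 := by
      push_cast at hm
      nlinarith [sq_nonneg (2 * a + b), sq_nonneg b]
    subst hb
    have ha : a = 0 := by
      push_cast at hm
      nlinarith [sq_nonneg a]
    subst ha
    exact ⟨_, _, good_zero φ⟩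
  rcases Int.emod_two_eq_zero_or_one a with ha | ha
  · obtain ⟨b', rfl⟩ : ∃ b', a = -2 * b' := ⟨-(a / 2), by omega⟩
    obtain ⟨a', rfl⟩ : ∃ a', b = a' + b' := ⟨b - b', by ring⟩
    obtain ⟨m', hm'⟩ := Int.eq_ofNat_of_zero_le (norm_nonneg' a' b')
    have hmm : m = m' + m' := by
      have : (m : ℤ) = m' + m' := by rw [hm, ← hm']; ring
      exact_mod_cast this
    obtain ⟨T, F, h⟩ := ih m' (by omega) a' b' hm'.symm
    rw [hmm]
    refine ⟨_, _, step_cm (ψ := φ) (σ := 1) hφ (by ring) (by ring) h (by ring) ?_ ?_ ?_ ?_⟩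
    · simp only [al]; push_cast; linear_combination (-(b' : R)) * hφ
    · simp only [al]; push_cast
      linear_combination (-8 * (b' : R) * (2 * a' + b' + b' * φ)) * hφ
    · simp only [ah, nh]
      split_ifs <;> first | omega | ring1 | linear_combination (2 - 3*φ) * hφ |
        linear_combination (2 - 3*φ - 2*φ^3 + 6*φ^4 - 3*φ^5) * hφ |
        linear_combination (2*φ^4 - 3*φ^5) * hφ
    · simp only [ah, nh]
      split_ifs <;> first | omega | ring1 | linear_combination (φ^3 - φ^4) * hφ |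
        linear_combination (2*φ - 2*φ^2 + φ^3 - φ^4) * hφ
  rcases Int.emod_two_eq_zero_or_one b with hb | hb
  · by_cases h1 : m = 1
    · subst h1
      have hb0 : b = 0 := by
        push_cast at hm
        by_contra hne
        have : 4 ≤ b ^ 2 := by
          rcases (show 2 ≤ b ∨ b ≤ -2 by omega) with h | h <;> nlinarith
        nlinarith [sq_nonneg (2 * a + b)]
      subst hb0
      have ha1 : a = 1 ∨ a = -1 := by
        push_cast at hm
        have : (a - 1) * (a + 1) = 0 := by linarith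
        rcases mul_eq_zero.1 this with h | h <;> omega
      exact ⟨_, _, good_one φ ha1⟩
    obtain ⟨a', rfl⟩ : ∃ a', a = 2 * a' + 1 := ⟨a / 2, by omega⟩
    obtain ⟨b', rfl⟩ : ∃ b', b = 2 * b' := ⟨b / 2, by omega⟩
    obtain ⟨m₁, hm₁⟩ := Int.eq_ofNat_of_zero_le (norm_nonneg' (a' + 1) b')
    obtain ⟨m₂, hm₂⟩ := Int.eq_ofNat_of_zero_le (norm_nonneg' a' b')
    have hmm : m + 1 = 2 * (m₁ + m₂) := by
      have : (m : ℤ) + 1 = 2 * (m₁ + m₂) := by rw [hm, ← hm₁, ← hm₂]; ring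
      exact_mod_cast this
    obtain ⟨T, F, h⟩ := ih m₁ (by omega) _ _ hm₁.symm
    obtain ⟨T', F', h'⟩ := ih m₂ (by omega) _ _ hm₂.symm
    obtain ⟨n, hn⟩ : ∃ n, m₁ + m₂ = n + 1 := ⟨m₁ + m₂ - 1, by omega⟩
    rw [show m = 2 * n + 1 by omega]
    exact ⟨_, _, (step_odd hφ h h' hn).good ha hb⟩
  · obtain ⟨a', rfl⟩ : ∃ a', b = -a' := ⟨-b, by ring⟩
    obtain ⟨b', rfl⟩ : ∃ b', a = a' + 2 * b' := ⟨(a - a') / 2, by omega⟩
    obtain ⟨m', hm'⟩ := Int.eq_ofNat_of_zero_le (norm_nonneg' a' b')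
    have hmm : m = m' + m' := by
      have : (m : ℤ) = m' + m' := by rw [hm, ← hm']; ring
      exact_mod_cast this
    obtain ⟨T, F, h⟩ := ih m' (by omega) a' b' hm'.symm
    rw [hmm]
    refine ⟨_, _, step_cm (ψ := 1 - φ) (σ := -1) (by linear_combination hφ) (by ring) (by ring) h
      (by ring) ?_ ?_ ?_ ?_⟩
    · simp only [al]; push_cast; linear_combination ((b' : R)) * hφ
    · simp only [al]; push_cast
      linear_combination (-8 * (b' : R) * (2 * a' + b' * φ)) * hφ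
    · simp only [ah, nh]
      split_ifs <;> first | omega | ring1 | linear_combination (1 - 3*φ) * hφ |
        linear_combination (- 8*φ^3 + 9*φ^4 - 3*φ^5) * hφ
    · simp only [ah, nh]
      split_ifs <;> first | omega | ring1 | linear_combination (φ - 3*φ^2 + 3*φ^3 - φ^4) * hφ

theorem exists_goodOdd {φ : R} (hφ : φ ^ 2 = φ - 2) {a b : ℤ} {n : ℕ} (ha : a % 2 = 1)
    (hb : b % 2 = 0) (hm : 2 * (n : ℤ) + 1 = a ^ 2 + a * b + 2 * b ^ 2) :
    ∃ A F, GoodOdd φ a b n A F := by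
  obtain ⟨a', rfl⟩ : ∃ a', a = 2 * a' + 1 := ⟨a / 2, by omega⟩
  obtain ⟨b', rfl⟩ : ∃ b', b = 2 * b' := ⟨b / 2, by omega⟩
  obtain ⟨m₁, hm₁⟩ := Int.eq_ofNat_of_zero_le (norm_nonneg' (a' + 1) b')
  obtain ⟨m₂, hm₂⟩ := Int.eq_ofNat_of_zero_le (norm_nonneg' a' b')
  have hmm : m₁ + m₂ = n + 1 := by
    have : 2 * ((m₁ : ℤ) + m₂) = 2 * (n + 1) := by
      rw [← hm₁, ← hm₂]; linear_combination -hm
    omega
  obtain ⟨T, F, h⟩ := exists_good hφ m₁ _ _ hm₁.symm
  obtain ⟨T', F', h'⟩ := exists_good hφ m₂ _ _ hm₂.symm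
  exact ⟨_, _, step_odd hφ h h' hmm⟩

lemma GoodOdd.ne_zero {φ : R} {a b : ℤ} {n : ℕ} {A F : R[X]} (h : GoodOdd φ a b n A F) :
    A ≠ 0 := by
  intro h0
  have := h.cA
  rw [h0, coeff_zero] at this
  have h4 : (4 : R) ^ n ≠ 0 := pow_ne_zero _ (by norm_num)
  split_ifs at this
  · exact h4 (by linear_combination -this)
  · exact h4 (by linear_combination this)

lemma GoodOdd.wronski {φ : R} {a b : ℤ} {n : ℕ} {A F : R[X]} (h : GoodOdd φ a b n A F) :
    (1 + C (3 * (2 * φ - 1)) * X - 16 * X ^ 2) *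
      ((A + 2 * X * derivative A) * F - 2 * X * A * derivative F) ^ 2 =
    C (al φ a b) ^ 2 * (F ^ 4 + C (3 * (2 * φ - 1)) * (X * A ^ 2) * F ^ 2 - 16 * (X * A ^ 2) ^ 2) := by
  rw [← sub_eq_zero]
  apply ev_inj φ
  have hA : ev φ A ≠ 0 := fun h0 => h.ne_zero (ev_inj φ h0)
  have hT := h.hT
  have dT := congrArg (PowerSeries.derivative (FK R)) hT
  have hs := sol_tt (rhoK φ) (algebraMap R (FK R) (al φ a b))
  have i1 := hs.integral
  have i0 := (sol_one (rhoK φ)).integral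
  rw [d_ev, d_mul, d_sq, d_ev, hs.d1] at dT
  simp only [derivative_mul, derivative_X, derivative_sq, map_mul, map_add, map_pow, map_sub,
    map_one, ev_X, ev_C, map_ofNat] at hT dT ⊢
  have hr : (PowerSeries.C (rhoK φ)) = 3 * (2 * PowerSeries.C (algebraMap R (FK R) φ) - 1) := by
    simp only [rhoK, map_mul, map_sub, map_ofNat, map_one]
  rw [← hr]
  apply mul_left_cancel₀ (mul_ne_zero (t0_ne_zero (rhoK φ)) (pow_ne_zero 2 hA))
  set t := t0 (rhoK φ)
  set w := w0 (rhoK φ)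
  set τ := tt (rhoK φ) (algebraMap R (FK R) (al φ a b))
  set ν := ww (rhoK φ) (algebraMap R (FK R) (al φ a b))
  set α := PowerSeries.C (algebraMap R (FK R) (al φ a b))
  set r := PowerSeries.C (rhoK φ)
  set u := ev φ A
  set u' := ev φ (derivative A)
  set N := ev φ F
  set N' := ev φ (derivative F)
  have two : (2 : PowerSeries (FK R)) ≠ 0 := by
    intro h2
    have := congrArg PowerSeries.constantCoeff h2
    rw [map_ofNat, map_zero] at this
    exact two_ne_zero this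
  have key : w * u * ((u + 2 * t * u') * N - 2 * t * u * N') = α * ν * N ^ 3 := by
    apply mul_left_cancel₀ two
    linear_combination N * dT - 4 * w * N' * hT
  have k2 : (w * u * ((u + 2 * t * u') * N - 2 * t * u * N')) ^ 2 = (α * ν * N ^ 3) ^ 2 := by
    rw [key]
  linear_combination k2 - (u * ((u + 2 * t * u') * N - 2 * t * u * N')) ^ 2 * i0
    + α ^ 2 * N ^ 6 * i1 - α ^ 2 * (N ^ 4 + r * N ^ 2 * (t * u ^ 2 + τ * N ^ 2)
      - 16 * ((t * u ^ 2) ^ 2 + t * u ^ 2 * τ * N ^ 2 + (τ * N ^ 2) ^ 2)) * hT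

lemma GoodOdd.theta {φ : R} {a b : ℤ} {n : ℕ} {A F : R[X]} (h : GoodOdd φ a b n A F) :
    F * (4 * X * (1 + C (3 * (2 * φ - 1)) * X - 16 * (X : R[X]) ^ 2) * derivative (derivative F)
      + (2 + 4 * C (3 * (2 * φ - 1)) * X - 96 * X ^ 2) * derivative F)
      - 4 * X * (1 + C (3 * (2 * φ - 1)) * X - 16 * X ^ 2) * derivative F ^ 2 =
    F ^ 2 * (C (8 * b * al φ a b) - 16 * (2 * (n : R[X]) + 1) * X)
      + 16 * C (al φ a b) ^ 2 * (X * A ^ 2) := by
  rw [← sub_eq_zero]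
  apply ev_inj φ
  have hT := h.hT
  have hL := h.hL
  have i0 := (sol_one (rhoK φ)).integral
  unfold LogRel gg at hL
  rw [d_ev, d_mul, d_mul, d_ev, d_ofNat, (sol_one _).d2] at hL
  have hr : (PowerSeries.C (rhoK φ)) = 3 * (2 * PowerSeries.C (algebraMap R (FK R) φ) - 1) := by
    simp only [rhoK, map_mul, map_sub, map_ofNat, map_one]
  simp only [map_mul, map_add, map_pow, map_sub,
    map_one, ev_X, ev_C, map_ofNat, map_natCast, map_intCast] at hT hL ⊢
  rw [← hr]
  push_cast at hL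
  linear_combination hL - 4 * (ev φ F * ev φ (derivative (derivative F))
    - ev φ (derivative F) ^ 2) * i0
    - 16 * PowerSeries.C (algebraMap R (FK R) (al φ a b)) ^ 2 * hT

end Pool.Agent.MP_d8ab80_nt
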