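import Pool.Agent.Mg.Fd8ab80.G3f8edb

section

/-! Consequences modulo `p` of the polynomial identities of the multiplication by `π`. -/

set_option linter.unusedSectionVars false
set_option linter.unusedSimpArgs false

namespace Pool.Agent.MP_d8ab80_nt
open Polynomial

/-- The quartic. -/
noncomputable def QQ {A : Type*} [CommRing A] (c : A) : A[X] := 1 - 4 * X ^ 2 + C c * X ^ 4

/-- Half the derivative of the quartic. -/
noncomputable def Qh {A : Type*} [CommRing A] (c : A) : A[X] := -4 * X + 2 * C c * X ^ 3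

section
variable {A : Type*} [CommRing A]

lemma QQ_map {B : Type*} [CommRing B] (ρ : A →+* B) (c : A) : (QQ c).map ρ = QQ (ρ c) := by
  simp [QQ, Polynomial.map_sub]

lemma Qh_map {B : Type*} [CommRing B] (ρ : A →+* B) (c : A) : (Qh c).map ρ = Qh (ρ c) := by
  simp [Qh]

lemma QQ_deriv (c : A) : derivative (QQ c) = 2 * Qh c := by
  simp only [QQ, Qh, derivative_add, derivative_sub, derivative_mul, derivative_one, derivative_C,
    derivative_X_pow, derivative_ofNat, map_natCast]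
  push_cast; ring

lemma QQ_deg (c : A) : (QQ c).natDegree ≤ 4 := by unfold QQ; compute_degree

lemma QQ_c0 (c : A) : (QQ c).coeff 0 = 1 := by simp [QQ]

lemma QQ_c4 (c : A) : (QQ c).coeff 4 = c := by simp [QQ, coeff_one]

lemma QQ_ne_zero [Nontrivial A] (c : A) : QQ c ≠ 0 := by
  intro h
  have := QQ_c0 c
  rw [h] at this; simp at this

end

lemma frob_shape {p : ℕ} [hp : Fact p.Prime] {a F : (ZMod p)[X]}
    (h : derivative a * F = a * derivative F) (da : a.natDegree ≤ p) (dF : F.natDegree < p)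
    (F0 : F.coeff 0 = 1) (a0 : a.coeff 0 = 0) (ap : a.coeff p = 1) : a = X ^ p ∧ F = 1 := by
  have hne : ∀ j, j + 1 < p → ((j : ZMod p) + 1) ≠ 0 := by
    intro j hj h0
    have : ((j + 1 : ℕ) : ZMod p) = 0 := by push_cast; exact h0
    rw [ZMod.natCast_eq_zero_iff] at this
    exact absurd (Nat.le_of_dvd (by omega) this) (by omega)
  have key : ∀ j, j + 1 ≤ p → X ^ (j + 1) ∣ a := by
    intro j
    induction j with
    | zero => intro _; simpa [X_dvd_iff] using a0
    | succ j ih =>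
      intro hj
      obtain ⟨b, rfl⟩ := ih (by omega)
      have h2 : (X : (ZMod p)[X]) ^ j * (C ((j : ZMod p) + 1) * b * F + X * derivative b * F
          - X * b * derivative F) = 0 := by
        rw [derivative_mul, derivative_X_pow_succ] at h
        linear_combination h
      have h3 := (mul_eq_zero.1 h2).resolve_left (pow_ne_zero _ X_ne_zero)
      have h4 := congrArg (eval 0) h3
      rw [coeff_zero_eq_eval_zero] at F0
      simp only [eval_sub, eval_add, eval_mul, eval_C, eval_X, zero_mul, F0, eval_zero, mul_one,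
        add_zero, sub_zero] at h4
      have h5 := (mul_eq_zero.1 h4).resolve_left (hne j (by omega))
      rw [pow_succ _ (j + 1)]
      apply mul_dvd_mul_left
      rw [X_dvd_iff, coeff_zero_eq_eval_zero, h5]
  have hp1 := hp.out.one_lt
  have ha : a = X ^ p := by
    have h1 := key (p - 1) (by omega)
    rw [show p - 1 + 1 = p by omega, X_pow_dvd_iff] at h1
    ext i
    rw [coeff_X_pow]
    split_ifs with hi
    · rw [hi, ap]
    · rcases lt_or_gt_of_ne hi with hi | hi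
      · exact h1 i hi
      · exact coeff_eq_zero_of_natDegree_lt (by omega)
  refine ⟨ha, ?_⟩
  rw [ha, derivative_X_pow, ZMod.natCast_self, map_zero, zero_mul, zero_mul] at h
  have h1 := (mul_eq_zero.1 h.symm).resolve_left (pow_ne_zero _ X_ne_zero)
  ext i
  rcases i with _ | i
  · simpa using F0
  · rw [coeff_one, if_neg (by omega)]
    by_cases hi : i + 1 < p
    · have := congrArg (fun P => coeff P i) h1
      simp only [coeff_derivative, coeff_zero] at this
      exact (mul_eq_zero.1 this).resolve_right (hne i hi)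
    · exact coeff_eq_zero_of_natDegree_lt (by omega)

variable {A : Type*} [CommRing A] [IsDomain A] [CharZero A] {p : ℕ} [hp : Fact p.Prime]

/-- The input data: multiplication by `π` as the rational map `a / F`. -/
structure Pack (n : ℕ) (ρ : A →+* ZMod p) (c κ π π' : A) (a F : A[X]) : Prop where
  hn : p = 2 * n + 1
  hρ : ∀ x, ρ x = 0 ↔ (p : A) ∣ x
  hc : 63 * c = 256
  hκ : 21 * κ = 32
  hπ : π * π' = p
  hπ' : ρ π' ≠ 0
  h1 : QQ c * (derivative a * F - a * derivative F) ^ 2 =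
    C π ^ 2 * (F ^ 4 - 4 * a ^ 2 * F ^ 2 + C c * a ^ 4)
  h2 : F * (QQ c * derivative (derivative F) + Qh c * derivative F) - QQ c * derivative F ^ 2 =
    F ^ 2 * (C (κ * (π ^ 2 - p)) + C (c * p) * X ^ 2) - C (c * π ^ 2) * a ^ 2
  da : a.natDegree ≤ p
  dF : F.natDegree ≤ 2 * n
  a0 : a.coeff 0 = 0
  a1 : a.coeff 1 = π
  F0 : F.coeff 0 = 1
  ap : ρ (a.coeff p) = 1

/-- The derived data. -/
structure Pack2 (n : ℕ) (ρ : A →+* ZMod p) (c κ π π' : A) (a F a₁ f W : A[X]) (γ : ZMod p)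
    (Γ : (ZMod p)[X]) : Prop where
  ea : a = X ^ p + C (p : A) * a₁
  eF : F = 1 + C (p : A) * f
  da : a₁.natDegree ≤ p
  df : f.natDegree ≤ 2 * n
  eW : derivative a * F - a * derivative F = C π * W
  QW : QQ c * W ^ 2 = F ^ 4 - 4 * a ^ 2 * F ^ 2 + C c * a ^ 4
  Wp : W.map ρ = QQ (ρ c) ^ n
  th : C π' * (F * (QQ c * derivative (derivative f) + Qh c * derivative f)
    - C (p : A) * QQ c * derivative f ^ 2) =
    F ^ 2 * (C (κ * (π - π')) + C (c * π') * X ^ 2) - C (c * π) * a ^ 2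
  eΓ : 63 * derivative (f.map ρ) * QQ (ρ c) ^ (n + 1) + 8 * (16 * X - 32 * X ^ 3) * QQ (ρ c) ^ n
    = Γ + C γ * X ^ (6 * n + 3)
  dΓ : Γ.natDegree ≤ 4 * n + 2
  eγ : ρ π' * γ = -256

lemma Pack.ρπ {n : ℕ} {ρ : A →+* ZMod p} {c κ π π' : A} {a F : A[X]}
    (h : Pack n ρ c κ π π' a F) : ρ π = 0 := by
  have := congrArg ρ h.hπ
  rw [map_mul, map_p_eq_zero] at this
  exact (mul_eq_zero.1 this).resolve_right h.hπ'

lemma two_ne_zero_zmod {n : ℕ} (hn : p = 2 * n + 1) : (2 : ZMod p) ≠ 0 := by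
  intro h
  have : ((2 : ℕ) : ZMod p) = 0 := by exact_mod_cast h
  rw [ZMod.natCast_eq_zero_iff] at this
  have h2 := (Nat.prime_dvd_prime_iff_eq hp.out Nat.prime_two).1 this
  omega

theorem Pack.pack2 {n : ℕ} {ρ : A →+* ZMod p} {c κ π π' : A} {a F : A[X]}
    (h : Pack n ρ c κ π π' a F) : ∃ a₁ f W γ Γ, Pack2 n ρ c κ π π' a F a₁ f W γ Γ := by
  have hn := h.hn
  have hp1 := hp.out.one_lt
  have hp0 : (p : A) ≠ 0 := by exact_mod_cast hp.out.ne_zero
  have hπ0 : π ≠ 0 := by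
    intro h0; apply hp0; rw [← h.hπ, h0, zero_mul]
  have ρπ := h.ρπ
  have w0 : (derivative a * F - a * derivative F).map ρ = 0 := by
    have := congrArg (Polynomial.map ρ) h.h1
    rw [Polynomial.map_mul, Polynomial.map_mul, Polynomial.map_pow, Polynomial.map_pow, map_C, ρπ,
      QQ_map, map_zero, zero_pow two_ne_zero, zero_mul] at this
    exact pow_eq_zero_iff two_ne_zero |>.1 ((mul_eq_zero.1 this).resolve_left (QQ_ne_zero _))
  obtain ⟨ha, hF⟩ : a.map ρ = X ^ p ∧ F.map ρ = 1 := by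
    apply frob_shape
    · rw [derivative_map, derivative_map, ← Polynomial.map_mul, ← Polynomial.map_mul,
        ← sub_eq_zero, ← Polynomial.map_sub, w0]
    · exact natDegree_map_le.trans h.da
    · exact natDegree_map_le.trans_lt (by have := h.dF; omega)
    · rw [coeff_map, h.F0, map_one]
    · rw [coeff_map, h.a0, map_zero]
    · rw [coeff_map, h.ap]
  obtain ⟨a₁, ea⟩ := poly_lift ρ h.hρ (f := a) (g := X ^ p) (by rw [ha]; simp)
  obtain ⟨f, eF⟩ := poly_lift ρ h.hρ (f := F) (g := 1) (by rw [hF]; simp)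
  obtain ⟨W₁, eW₁⟩ := poly_lift ρ h.hρ (g := 0) (by rw [w0]; simp)
  have da₁ : a₁.natDegree ≤ p := by
    rw [← natDegree_C_mul hp0, show C (p : A) * a₁ = a - X ^ p by rw [ea]; ring]
    exact (natDegree_sub_le _ _).trans (max_le h.da (natDegree_X_pow_le _))
  have df : f.natDegree ≤ 2 * n := by
    rw [← natDegree_C_mul hp0, show C (p : A) * f = F - 1 by rw [eF]; ring]
    exact (natDegree_sub_le _ _).trans (max_le h.dF (by simp))
  have hπC : C π * C π' = (C (p : A) : A[X]) := by rw [← C_mul, h.hπ]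
  have eW : derivative a * F - a * derivative F = C π * (C π' * W₁) := by
    rw [eW₁, ← hπC]; ring
  set W := C π' * W₁
  have QW : QQ c * W ^ 2 = F ^ 4 - 4 * a ^ 2 * F ^ 2 + C c * a ^ 4 := by
    apply mul_left_cancel₀ (pow_ne_zero 2 (C_ne_zero.2 hπ0))
    rw [← h.h1, eW]; ring
  have W0 : W.coeff 0 = 1 := by
    have := congrArg (fun P => coeff P 0) eW
    simp only [coeff_sub, mul_coeff_zero, coeff_derivative, h.a0, h.F0, coeff_C_zero, zero_add,
      h.a1] at this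
    apply mul_left_cancel₀ hπ0
    linear_combination -this
  have Wp : W.map ρ = QQ (ρ c) ^ n := by
    have h3 := congrArg (Polynomial.map ρ) QW
    simp only [Polynomial.map_mul, Polynomial.map_pow, Polynomial.map_add, Polynomial.map_sub,
      QQ_map, ha, hF, map_C, Polynomial.map_ofNat] at h3
    have h4 : QQ (ρ c) ^ p = 1 - 4 * (X ^ p) ^ 2 + C (ρ c) * (X ^ p) ^ 4 := by
      rw [← ZMod.expand_card]; simp [QQ, map_ofNat]
    have h5 : QQ (ρ c) * ((W.map ρ - QQ (ρ c) ^ n) * (W.map ρ + QQ (ρ c) ^ n)) = 0 := by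
      have h6 : QQ (ρ c) ^ p = QQ (ρ c) * (QQ (ρ c) ^ n) ^ 2 := by
        rw [← pow_mul, ← pow_succ']; congr 1; omega
      linear_combination h3 - h4 + h6
    rcases mul_eq_zero.1 ((mul_eq_zero.1 h5).resolve_left (QQ_ne_zero _)) with h6 | h6
    · exact sub_eq_zero.1 h6
    · exfalso
      have h7 := congrArg (fun P => coeff P 0) h6
      have h8 : (QQ (ρ c) ^ n).coeff 0 = 1 := by
        rw [← constantCoeff_apply, map_pow, constantCoeff_apply, QQ_c0, one_pow]
      simp only [coeff_add, coeff_map, W0, map_one, coeff_zero, h8] at h7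
      exact two_ne_zero_zmod hn (by linear_combination h7)
  have dF' : derivative F = C (p : A) * derivative f := by
    rw [eF]; simp
  have th : C π' * (F * (QQ c * derivative (derivative f) + Qh c * derivative f)
      - C (p : A) * QQ c * derivative f ^ 2) =
      F ^ 2 * (C (κ * (π - π')) + C (c * π') * X ^ 2) - C (c * π) * a ^ 2 := by
    apply mul_left_cancel₀ (C_ne_zero.2 hp0)
    have h2 := h.h2
    rw [dF', derivative_C_mul] at h2
    simp only [map_mul, map_sub, map_pow] at h2 ⊢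
    linear_combination C π' * h2 + (F ^ 2 * C κ * C π - C c * C π * a ^ 2) * hπC
  obtain ⟨m, rfl⟩ : ∃ m, n = m + 1 := ⟨n - 1, by omega⟩
  have lead : ρ π' * ρ (f.coeff (2 * m + 2)) = ρ c ^ (m + 1) := by
    have d1 : (derivative a).natDegree ≤ 2 * m + 2 :=
      (natDegree_derivative_le a).trans (by have := h.da; omega)
    have d2 : F.natDegree ≤ 2 * m + 2 := h.dF
    have d3 : a.natDegree ≤ 2 * m + 3 := by have := h.da; omega
    have d4 : (derivative F).natDegree ≤ 2 * m + 1 :=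
      (natDegree_derivative_le F).trans (by omega)
    have h3 := congrArg (fun P => coeff P (4 * m + 4)) eW
    simp only [coeff_sub, coeff_C_mul] at h3
    have e1 := coeff_mul_add_eq_of_natDegree_le d1 d2
    have e2 := coeff_mul_add_eq_of_natDegree_le d3 d4
    rw [show 2 * m + 2 + (2 * m + 2) = 4 * m + 4 by ring] at e1
    rw [show 2 * m + 3 + (2 * m + 1) = 4 * m + 4 by ring] at e2
    have e3 : F.coeff (2 * m + 2) = p * f.coeff (2 * m + 2) := by
      rw [eF, coeff_add, coeff_C_mul, coeff_one, if_neg (by omega), zero_add]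
    rw [e1, e2, coeff_derivative, coeff_derivative, show 2 * m + 1 + 1 = 2 * m + 2 by ring,
      show 2 * m + 2 + 1 = p by omega, e3] at h3
    have h4 : π' * a.coeff p * f.coeff (2 * m + 2) = W.coeff (4 * m + 4) := by
      apply mul_left_cancel₀ hπ0
      push_cast at h3
      linear_combination h3 + (a.coeff p * f.coeff (2 * m + 2)) * h.hπ
    have h5 := congrArg ρ h4
    rw [map_mul, map_mul, h.ap, mul_one, ← coeff_map ρ (4 * m + 4), Wp,
      show 4 * m + 4 = (m + 1) * 4 by ring, coeff_pow_of_natDegree_le (QQ_deg _), QQ_c4] at h5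
    exact h5
  have thp : QQ (ρ c) * derivative (derivative (f.map ρ)) + Qh (ρ c) * derivative (f.map ρ) =
      C (ρ c) * X ^ 2 - C (ρ κ) := by
    have h3 := congrArg (Polynomial.map ρ) th
    simp only [Polynomial.map_mul, Polynomial.map_pow, Polynomial.map_add, Polynomial.map_sub,
      QQ_map, Qh_map, hF, map_C, map_X, map_p_eq_zero, ← derivative_map, map_mul, map_sub, ρπ,
      map_zero] at h3
    apply mul_left_cancel₀ (C_ne_zero.2 h.hπ')
    linear_combination h3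
  set fb := f.map ρ with hfb
  set cb := ρ c
  have dfb : fb.natDegree ≤ 2 * m + 2 := natDegree_map_le.trans df
  have dfb' : (derivative fb).natDegree ≤ 2 * m + 1 :=
    (natDegree_derivative_le fb).trans (by omega)
  set G := 63 * derivative fb * QQ cb ^ (m + 1 + 1) + 8 * (16 * X - 32 * X ^ 3) * QQ cb ^ (m + 1)
    with hG
  have hc : (63 : (ZMod p)[X]) * C cb = 256 := by
    have := congrArg (fun x => C (ρ x)) h.hc
    simpa only [map_mul, map_ofNat] using this
  have hκ : (21 : (ZMod p)[X]) * C (ρ κ) = 32 := by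
    have := congrArg (fun x => C (ρ x)) h.hκ
    simpa only [map_mul, map_ofNat] using this
  have hm : 2 * (m : (ZMod p)[X]) + 3 = 0 := by
    have : ((p : ℕ) : (ZMod p)[X]) = 0 := by rw [← map_natCast C, ZMod.natCast_self, map_zero]
    have h3 : ((p : ℕ) : (ZMod p)[X]) = ((2 * (m + 1) + 1 : ℕ) : (ZMod p)[X]) :=
      congrArg Nat.cast hn
    rw [this] at h3
    push_cast at h3
    linear_combination -h3
  have dG : derivative G = QQ cb ^ m * (32 * QQ cb - 4 * C cb * X ^ 4) := by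
    simp only [hG, derivative_add, derivative_mul, derivative_pow_succ, QQ_deriv, derivative_ofNat,
      derivative_sub, derivative_X, derivative_X_pow, map_add, map_natCast, map_one]
    push_cast
    have hQ : QQ cb = 1 - 4 * X ^ 2 + C cb * X ^ 4 := rfl
    have hQh : Qh cb = -4 * X + 2 * C cb * X ^ 3 := rfl
    linear_combination (63 * QQ cb ^ (m + 1)) * thp
      + (63 * derivative fb * QQ cb ^ (m + 1) * Qh cb
        + 8 * (16 * X - 32 * X ^ 3) * QQ cb ^ m * Qh cb) * hm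
      + (QQ cb ^ (m + 1) * X ^ 2 - 4 * QQ cb ^ m * X ^ 4) * hc - 3 * QQ cb ^ (m + 1) * hκ
      - (512 * X ^ 2 * QQ cb ^ m) * hQ - 8 * (16 * X - 32 * X ^ 3) * QQ cb ^ m * hQh
  have dQ : ∀ j, (QQ cb ^ j).natDegree ≤ j * 4 := fun j => natDegree_pow_le_of_le j (QQ_deg cb)
  have d5 : (8 * (16 * X - 32 * X ^ 3) * QQ cb ^ (m + 1)).natDegree ≤ 3 + (m + 1) * 4 :=
    natDegree_mul_le_of_le (by compute_degree) (dQ _)
  have d6 : (63 * derivative fb).natDegree ≤ 2 * m + 1 := by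
    rw [show (63 : (ZMod p)[X]) = C 63 from rfl]
    exact (natDegree_C_mul_le _ _).trans dfb'
  have degG : G.natDegree ≤ 6 * m + 9 :=
    natDegree_add_le_of_degree_le ((natDegree_mul_le_of_le d6 (dQ _)).trans (by omega))
      (d5.trans (by omega))
  have degG' : (derivative G).natDegree ≤ 4 * m + 4 := by
    rw [dG]
    refine (natDegree_mul_le_of_le (dQ m) (show _ ≤ 4 from ?_)).trans (by omega)
    unfold QQ; compute_degree
  refine ⟨a₁, f, W, G.coeff (6 * m + 9), G - C (G.coeff (6 * m + 9)) * X ^ (6 * m + 9),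
    ea, eF, da₁, df, eW, QW, Wp, th, ?_, ?_, ?_⟩
  · rw [show 6 * (m + 1) + 3 = 6 * m + 9 by ring]; ring
  · rw [natDegree_le_iff_coeff_eq_zero]
    intro N hN
    rw [coeff_sub, coeff_C_mul, coeff_X_pow]
    split_ifs with h3
    · rw [h3]; ring
    rw [mul_zero, sub_zero]
    rcases lt_or_gt_of_ne h3 with h3 | h3
    · obtain ⟨M, rfl⟩ : ∃ M, N = M + 1 := ⟨N - 1, by omega⟩
      have h4 : (derivative G).coeff M = 0 := coeff_eq_zero_of_natDegree_lt (by omega)
      rw [coeff_derivative] at h4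
      refine (mul_eq_zero.1 h4).resolve_right ?_
      intro h0
      have : ((M + 1 : ℕ) : ZMod p) = 0 := by push_cast; exact h0
      rw [ZMod.natCast_eq_zero_iff] at this
      obtain ⟨q, hq⟩ := this
      have q2 : 2 < q := by
        by_contra hh
        have : p * q ≤ p * 2 := Nat.mul_le_mul_left _ (by omega)
        omega
      have : p * 3 ≤ p * q := Nat.mul_le_mul_left _ (by omega)
      omega
    · exact coeff_eq_zero_of_natDegree_lt (by omega)
  · have e1 := coeff_mul_add_eq_of_natDegree_le d6 (dQ (m + 1 + 1))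
    rw [show 2 * m + 1 + (m + 1 + 1) * 4 = 6 * m + 9 by ring] at e1
    rw [hG, coeff_add, e1, coeff_eq_zero_of_natDegree_lt (d5.trans_lt (by omega)),
      coeff_pow_of_natDegree_le (QQ_deg _), QQ_c4, show (63 : (ZMod p)[X]) = C 63 from rfl,
      coeff_C_mul, coeff_derivative, hfb, coeff_map]
    have hm' : 2 * (m : ZMod p) + 3 = 0 := by
      have : ((p : ℕ) : ZMod p) = 0 := ZMod.natCast_self p
      have h3 : ((p : ℕ) : ZMod p) = ((2 * (m + 1) + 1 : ℕ) : ZMod p) := congrArg Nat.cast hn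
      rw [this] at h3
      push_cast at h3
      linear_combination -h3
    have hc' : (63 : ZMod p) * cb = 256 := by
      have := congrArg ρ h.hc
      simpa only [map_mul, map_ofNat] using this
    have hcp : cb ^ (m + 1) * cb ^ (m + 1 + 1) = cb := by
      rw [← pow_add, show m + 1 + (m + 1 + 1) = p by omega, ZMod.pow_card]
    push_cast
    rw [show 2 * m + 1 + 1 = 2 * m + 2 by ring]
    linear_combination (63 * (2 * m + 2) * cb ^ (m + 1 + 1)) * lead + (63 * (2 * m + 2)) * hcp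
      + (63 * cb) * hm' - hc'

end Pool.Agent.MP_d8ab80_nt

end

section

/-! The congruences modulo `p ^ 2` for the invariant differential and its derivative. -/

set_option linter.unusedSectionVars false
set_option linter.unusedSimpArgs false

namespace Pool.Agent.MP_d8ab80_nt
open PowerSeries

section
variable {A : Type*} [CommRing A]

lemma d_expand' {p n : ℕ} (hn : p = 2 * n + 1) (hp : p ≠ 0) (f : A⟦X⟧) :
    d⁄dX A (expand p hp f) = C (p : A) * X ^ (2 * n) * expand p hp (d⁄dX A f) := by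
  subst hn
  rw [d_expand]; simp [map_ofNat]

lemma Lam_expand' {p n : ℕ} (hn : p = 2 * n + 1) (hp : p ≠ 0) (f : A⟦X⟧) :
    Lam n (X ^ (2 * n) * expand p hp f) = 3 * coeff 0 f - coeff 2 f := by
  subst hn
  exact Lam_expand n f

lemma Lam_d' {p n : ℕ} (hn : p = 2 * n + 1) (f : A⟦X⟧) :
    Lam n (d⁄dX A f) = 3 * p * Psi n f := by
  rw [Lam_d, hn]; push_cast; ring

lemma aeval_QQ (s : A⟦X⟧) (c : A) :
    Polynomial.aeval s (QQ c) = 1 - 4 * s ^ 2 + C c * s ^ 4 := by
  simp [QQ, PowerSeries.algebraMap_apply, map_ofNat]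

lemma aeval_Qh (s : A⟦X⟧) (c : A) :
    Polynomial.aeval s (Qh c) = -4 * s + 2 * C c * s ^ 3 := by
  simp [Qh, PowerSeries.algebraMap_apply, map_ofNat]

lemma aeval_C' (s : A⟦X⟧) (c : A) : Polynomial.aeval s (Polynomial.C c) = C c := by
  simp [PowerSeries.algebraMap_apply]

lemma C_ne_zero' {a : A} (ha : a ≠ 0) : (C a : A⟦X⟧) ≠ 0 := by
  intro h
  have := congrArg constantCoeff h
  simp [ha] at this

/-- The uniformising data in the parameter `u`. -/
structure UData (c : A) (g ie s w iw ω : A⟦X⟧) : Prop where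
  hie : ie * (1 + X ^ 2) = 1
  hs : s = X * ie
  hiw : iw = (1 + X ^ 2) ^ 2 * g
  hω : ω = (1 - X ^ 2) * g
  hw : w * iw = 1
  hQ : w ^ 2 = 1 - 4 * s ^ 2 + C c * s ^ 4
  ds : d⁄dX A s = ω * w

lemma exists_udata (c : A) {g : A⟦X⟧} (hg : ((1 - X ^ 4) ^ 2 + C c * X ^ 4) * g ^ 2 = 1) :
    ∃ ie s w iw ω, UData c g ie s w iw ω := by
  obtain ⟨ie, hie⟩ := exists_inv (f := (1 + X ^ 2 : A⟦X⟧)) (by simp)
  have die : d⁄dX A ie = -2 * X * ie ^ 2 := by
    have := congrArg (d⁄dX A) hie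
    simp only [d_mul, d_sq, map_add, derivative_one, derivative_X] at this
    linear_combination ie * this - d⁄dX A ie * hie
  refine ⟨ie, X * ie, ((1 - X ^ 4) ^ 2 + C c * X ^ 4) * g * ie ^ 2, _, _, hie, rfl, rfl, rfl,
    ?_, ?_, ?_⟩
  · linear_combination (ie * (1 + X ^ 2)) ^ 2 * hg + (ie * (1 + X ^ 2) + 1) * hie
  · linear_combination ((1 - X ^ 4) ^ 2 + C c * X ^ 4) * ie ^ 4 * hg
      + ((ie * (1 + X ^ 2) + 1) * ((ie * (1 + X ^ 2)) ^ 2 + 1 - 4 * X ^ 2 * ie ^ 2)) * hie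
  · rw [d_mul, die, derivative_X]
    linear_combination (-(1 - X ^ 2) * ie ^ 2) * hg - ie * hie

lemma UData.dw [IsDomain A] [CharZero A] {c : A} {g ie s w iw ω : A⟦X⟧}
    (U : UData c g ie s w iw ω) : d⁄dX A w = (-4 * s + 2 * C c * s ^ 3) * ω := by
  have := congrArg (d⁄dX A) U.hQ
  simp only [d_mul, d_sq, d_four, map_add, map_sub, derivative_one, derivative_C, d_ofNat,
    U.ds] at this
  have two : (2 : A⟦X⟧) ≠ 0 := by
    rw [show (2 : A⟦X⟧) = C 2 from (map_ofNat C 2).symm]; exact C_ne_zero' two_ne_zero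
  apply mul_left_cancel₀ two
  linear_combination iw * this - (2 * d⁄dX A w - 2 * (-4 * s + 2 * C c * s ^ 3) * ω) * U.hw

lemma UData.diw [IsDomain A] [CharZero A] {c : A} {g ie s w iw ω : A⟦X⟧}
    (U : UData c g ie s w iw ω) : d⁄dX A iw = -(-4 * s + 2 * C c * s ^ 3) * ω * iw ^ 2 := by
  have := congrArg (d⁄dX A) U.hw
  simp only [d_mul, derivative_one, U.dw] at this
  linear_combination iw * this - d⁄dX A iw * U.hw

lemma UData.cc_s {c : A} {g ie s w iw ω : A⟦X⟧}
    (U : UData c g ie s w iw ω) : constantCoeff s = 0 := by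
  rw [U.hs]; simp

end

variable {A : Type*} [CommRing A] [IsDomain A] [CharZero A] {p : ℕ} [hp : Fact p.Prime]

/-- The comparison of the multiplication by `π` with the Frobenius lift `u ↦ u ^ p`. -/
structure VData (n : ℕ) (ρ : A →+* ZMod p) (c π' : A) (a F : Polynomial A)
    (s iw ω iF k j : A⟦X⟧) : Prop where
  hiF : iF * Polynomial.aeval s F = 1
  riF : PowerSeries.map ρ iF = 1
  hk : Polynomial.aeval s a * iF = expand p hp.out.ne_zero s + C (p : A) * k
  e1 : ω = C π' * (X ^ (2 * n) * expand p hp.out.ne_zero ω +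
    d⁄dX A k * expand p hp.out.ne_zero iw) - C (p : A) * ω * j * expand p hp.out.ne_zero iw
  e2 : ∃ M R : A⟦X⟧, C 2 * ω = C π' * (C 2 * (X ^ (2 * n) * expand p hp.out.ne_zero ω) +
    C 2 * d⁄dX A (k * expand p hp.out.ne_zero iw) - C (p : A) * d⁄dX A M) + C ((p : A) ^ 2) * R

lemma exists_vdata {n : ℕ} {ρ : A →+* ZMod p} {c κ π π' : A} {a F a₁ f W : Polynomial A}
    {γ : ZMod p} {Γ : Polynomial (ZMod p)} (h : Pack n ρ c κ π π' a F)
    (h2 : Pack2 n ρ c κ π π' a F a₁ f W γ Γ) {g ie s w iw ω : A⟦X⟧}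
    (U : UData c g ie s w iw ω) : ∃ iF k j, VData n ρ c π' a F s iw ω iF k j := by
  have hn := h.hn
  have hp0 : (p : A) ≠ 0 := by exact_mod_cast hp.out.ne_zero
  have hπ0 : π ≠ 0 := by
    intro h0; apply hp0; rw [← h.hπ, h0, zero_mul]
  have hπC : C π * C π' = (C (p : A) : A⟦X⟧) := by rw [← map_mul, h.hπ]
  obtain ⟨iF, hiF⟩ := exists_inv (f := Polynomial.aeval s F) (by rw [cc_aeval U.cc_s, h.F0])
  have rP : PowerSeries.map ρ (C (p : A)) = 0 := by rw [map_C, map_p_eq_zero, map_zero]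
  have rF : PowerSeries.map ρ (Polynomial.aeval s F) = 1 := by
    rw [h2.eF, map_add, map_mul, map_one, aeval_C', map_add, map_mul, rP, zero_mul, map_one,
      add_zero]
  have riF : PowerSeries.map ρ iF = 1 := by
    have := congrArg (PowerSeries.map ρ) hiF
    rwa [map_mul, rF, mul_one, map_one] at this
  have ra : PowerSeries.map ρ (Polynomial.aeval s a) = PowerSeries.map ρ s ^ p := by
    rw [h2.ea, map_add, map_mul, map_pow, aeval_C', Polynomial.aeval_X, map_add, map_mul, rP,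
      zero_mul, map_pow, add_zero]
  have rW : PowerSeries.map ρ (Polynomial.aeval s W) = PowerSeries.map ρ w ^ (2 * n) := by
    rw [map_aeval', h2.Wp, map_pow, aeval_QQ, pow_mul, ← map_pow _ w, U.hQ]
    simp only [map_add, map_sub, map_mul, map_pow, map_one, map_ofNat, map_C]
  set σ := expand (R := A) p hp.out.ne_zero with hσ
  obtain ⟨k, hk⟩ := series_lift ρ h.hρ (f := Polynomial.aeval s a * iF) (g := σ s) (by
    rw [map_mul, ra, riF, mul_one, hσ, map_expand_zmod])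
  obtain ⟨j, hj⟩ := series_lift ρ h.hρ (f := w * Polynomial.aeval s W * iF ^ 2) (g := σ w) (by
    rw [map_mul, map_mul, map_pow, rW, riF, hσ, map_expand_zmod, one_pow, mul_one, ← pow_succ',
      ← hn])
  have σC : σ (C c) = C c := expand_C _ _ _
  have σw : σ w * σ iw = 1 := by rw [← map_mul, U.hw, map_one]
  have σQ : σ w ^ 2 = 1 - 4 * σ s ^ 2 + C c * σ s ^ 4 := by
    rw [← map_pow, U.hQ]; simp only [map_add, map_sub, map_mul, map_pow, map_one, map_ofNat, σC]
  have dσ : ∀ x, d⁄dX A (σ x) = C (p : A) * X ^ (2 * n) * σ (d⁄dX A x) :=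
    fun x => d_expand' hn _ x
  have diF : d⁄dX A iF =
      -Polynomial.aeval s (Polynomial.derivative F) * (ω * w) * iF ^ 2 := by
    have := congrArg (d⁄dX A) hiF
    rw [d_mul, d_aeval, U.ds, derivative_one] at this
    linear_combination iF * this - d⁄dX A iF * hiF
  have eW := congrArg (Polynomial.aeval s) h2.eW
  have QW := congrArg (Polynomial.aeval s) h2.QW
  simp only [map_sub, map_mul, map_add, map_pow, aeval_C', aeval_QQ, map_ofNat] at eW QW
  have dk := congrArg (d⁄dX A) hk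
  rw [d_mul, d_aeval, diF, U.ds, map_add, dσ, U.ds, d_mul, derivative_C, map_mul σ] at dk
  have dW0 := dσ iw
  rw [U.diw] at dW0
  simp only [map_mul, map_neg, map_add, map_pow, map_ofNat, σC] at dW0
  set as := Polynomial.aeval s a
  set Fs := Polynomial.aeval s F
  set Ws := Polynomial.aeval s W
  set as' := Polynomial.aeval s (Polynomial.derivative a)
  set Fs' := Polynomial.aeval s (Polynomial.derivative F)
  set P : A⟦X⟧ := C (p : A) with hP
  set v := σ s
  set W0 := σ iw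
  set Wσ := σ w
  set k' := d⁄dX A k with hk'
  set ωσ := σ ω
  set Y : A⟦X⟧ := X ^ (2 * n)
  have hD : ω * (Wσ + P * j) = C π' * (Y * ωσ * Wσ + k') := by
    apply mul_left_cancel₀ (C_ne_zero' hπ0)
    rw [← hj]
    linear_combination dk - (ω * w * iF ^ 2) * eW + (ω * w * iF * as') * hiF
      - (Y * ωσ * Wσ + k') * hπC
  have hwπ : (Wσ + P * j) ^ 2 = 1 - 4 * (v + P * k) ^ 2 + C c * (v + P * k) ^ 4 := by
    rw [← hj, ← hk]
    linear_combination (Ws ^ 2 * iF ^ 4) * U.hQ + iF ^ 4 * QW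
      + ((iF * Fs + 1) * ((iF * Fs) ^ 2 + 1 - 4 * as ^ 2 * iF ^ 2)) * hiF
  have hj2 : 2 * j * Wσ = 2 * k * (-4 * v + 2 * C c * v ^ 3) + P * (-j ^ 2 - 4 * k ^ 2
      + C c * (6 * v ^ 2 * k ^ 2 + 4 * v * P * k ^ 3 + P ^ 2 * k ^ 4)) := by
    apply mul_left_cancel₀ (C_ne_zero' hp0)
    linear_combination hwπ - σQ
  refine ⟨iF, k, j, hiF, riF, hk, ?_, ?_⟩
  · linear_combination W0 * hD - (ω - C π' * Y * ωσ) * σw
  · have dM := dσ ((-4 * s + 2 * C c * s ^ 3) * iw ^ 3)
    have eM : σ ((-4 * s + 2 * C c * s ^ 3) * iw ^ 3) = (-4 * v + 2 * C c * v ^ 3) * W0 ^ 3 := by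
      simp only [map_mul, map_neg, map_add, map_pow, map_ofNat, σC]; rfl
    rw [eM] at dM
    set M := (-4 * v + 2 * C c * v ^ 3) * W0 ^ 3 with hM
    set r := -j ^ 2 - 4 * k ^ 2 + C c * (6 * v ^ 2 * k ^ 2 + 4 * v * P * k ^ 3 + P ^ 2 * k ^ 4)
    refine ⟨k ^ 2 * M, C π' * k ^ 2 * Y * σ (d⁄dX A ((-4 * s + 2 * C c * s ^ 3) * iw ^ 3))
      - C π' * (Y * ωσ * Wσ + k') * r * W0 ^ 3 + 2 * ω * j ^ 2 * W0 ^ 2, ?_⟩
    rw [d_mul, d_mul, d_sq, dM, dW0, map_pow, map_ofNat, ← hk', ← hP]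
    linear_combination 2 * (W0 - P * j * W0 ^ 2) * hD
      - P * C π' * (Y * ωσ * Wσ + k') * W0 ^ 3 * hj2
      + (2 * ω * (P * j * W0 - 1) + 2 * P * C π' * (Y * ωσ * Wσ + k') * j * W0 ^ 2
        + C π' * (2 * Y * ωσ - 2 * P * k * Y * ωσ * (-4 * v + 2 * C c * v ^ 3) * W0 ^ 2)) * σw

lemma psi_expand_iw {B : Type*} [CommRing B] {n : ℕ} (hn : p = 2 * n + 1) {g g₁ : B⟦X⟧}
    (hg : g = 1 + X ^ 4 * g₁) (x : B⟦X⟧) :
    Psi n (x * expand p hp.out.ne_zero ((1 + X ^ 2) ^ 2 * g)) =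
      Psi n (x * expand p hp.out.ne_zero (1 + X ^ 2) ^ 2) := by
  have : x * expand p hp.out.ne_zero ((1 + X ^ 2) ^ 2 * g) =
      x * expand p hp.out.ne_zero (1 + X ^ 2) ^ 2 + X ^ (p * 4) *
        (x * expand p hp.out.ne_zero (1 + X ^ 2) ^ 2 * expand p hp.out.ne_zero g₁) := by
    rw [hg, map_mul, map_pow, map_add _ 1 (X ^ 4 * g₁), map_mul, map_pow, map_one, expand_X,
      pow_mul]
    ring
  rw [this, Psi_add, Psi_X_pow_mul n (by omega), add_zero]

lemma psi_k {n : ℕ} {ρ : A →+* ZMod p} {c κ π π' : A} {a F a₁ f W : Polynomial A}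
    {γ : ZMod p} {Γ : Polynomial (ZMod p)} (h : Pack n ρ c κ π π' a F)
    (h2 : Pack2 n ρ c κ π π' a F a₁ f W γ Γ) {g ie s w iw ω g₁ iF k j : A⟦X⟧}
    (U : UData c g ie s w iw ω) (hg : g = 1 + X ^ 4 * g₁)
    (V : VData n ρ c π' a F s iw ω iF k j) :
    (p : A) ∣ Psi n (k * expand p hp.out.ne_zero iw) := by
  have hn := h.hn
  have hp0 : (p : A) ≠ 0 := by exact_mod_cast hp.out.ne_zero
  rw [U.hiw, psi_expand_iw hn hg]
  set σ := expand (R := A) p hp.out.ne_zero with hσ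
  obtain ⟨hh, ehh⟩ := series_lift ρ h.hρ (f := (1 + X ^ 2) ^ p) (g := σ (1 + X ^ 2)) (by
    rw [hσ, map_expand_zmod, map_pow])
  have σe : σ (1 + X ^ 2) = 1 + X ^ (p * 2) := by
    rw [map_add, map_one, map_pow, hσ, expand_X, pow_mul]
  have p1 : Psi n (X ^ p * hh) = 0 := by
    apply mul_left_cancel₀ hp0
    have e : C (p : A) * (X ^ p * hh) = X ^ p * (1 + X ^ 2) ^ p - X ^ p - X ^ (p * 3) := by
      rw [ehh, σe]; ring
    rw [← Psi_C, e, Psi_sub, Psi_sub, Psi_pal n p p (by omega), Psi, Psi, coeff_X_pow, coeff_X_pow,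
      coeff_X_pow, coeff_X_pow, if_pos hn.symm, if_neg (by omega), if_neg (by omega),
      if_pos (by omega)]
    ring
  have db : (a₁ - Polynomial.X ^ p * f).natDegree ≤ 4 * n + 2 := by
    refine (Polynomial.natDegree_sub_le _ _).trans (max_le (h2.da.trans (by omega)) ?_)
    exact (Polynomial.natDegree_mul_le_of_le (Polynomial.natDegree_X_pow_le p) h2.df).trans
      (by omega)
  have p2 := Psi_pal_aeval n U.hie _ db
  have hvE : σ s * σ (1 + X ^ 2) = X ^ p := by
    rw [← map_mul, U.hs, mul_assoc, U.hie, mul_one, hσ, expand_X]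
  have hse : s ^ p * (1 + X ^ 2) ^ p = X ^ p := by
    rw [← mul_pow, U.hs, mul_assoc, U.hie, mul_one]
  have hk := V.hk
  have hiF := V.hiF
  rw [h2.ea, map_add, map_mul, map_pow, aeval_C', Polynomial.aeval_X] at hk
  rw [h2.eF, map_add, map_mul, map_one, aeval_C'] at hiF
  rw [← U.hs, map_sub, map_mul, map_pow, Polynomial.aeval_X,
    show 4 * n + 2 = p * 2 by omega, pow_mul] at p2
  set a₁s := Polynomial.aeval s a₁
  set fs := Polynomial.aeval s f
  have key : k * σ (1 + X ^ 2) ^ 2 = σ (1 + X ^ 2) ^ 2 * (a₁s - σ s * fs)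
      - s ^ p * hh * σ (1 + X ^ 2) - C (p : A) * (k * fs * σ (1 + X ^ 2) ^ 2) := by
    apply mul_left_cancel₀ (C_ne_zero' hp0)
    linear_combination (-σ (1 + X ^ 2) ^ 2 * (1 + C (p : A) * fs)) * hk
      + σ (1 + X ^ 2) ^ 2 * (s ^ p + C (p : A) * a₁s) * hiF
      - σ (1 + X ^ 2) * hvE + σ (1 + X ^ 2) * hse - σ (1 + X ^ 2) * s ^ p * ehh
  have red : PowerSeries.map ρ (k * σ (1 + X ^ 2) ^ 2) = PowerSeries.map ρ
      (((1 + X ^ 2) ^ p) ^ 2 * (a₁s - s ^ p * fs) - X ^ p * hh) := by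
    have r1 : PowerSeries.map ρ (σ (1 + X ^ 2)) = PowerSeries.map ρ ((1 + X ^ 2) ^ p) := by
      rw [hσ, map_expand_zmod, map_pow]
    have r2 : PowerSeries.map ρ (σ s) = PowerSeries.map ρ (s ^ p) := by
      rw [hσ, map_expand_zmod, map_pow]
    have rP : PowerSeries.map ρ (C (p : A)) = 0 := by rw [map_C, map_p_eq_zero, map_zero]
    rw [key, ← hse]
    simp only [map_sub, map_mul, map_pow _ _ 2, r1, r2, rP]
    ring
  rw [← h.hρ, ← Psi_map, red, Psi_map, Psi_sub, p1, p2, sub_zero, map_zero]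

lemma lam_omega {n : ℕ} {ρ : A →+* ZMod p} {c κ π π' : A} {a F a₁ f W : Polynomial A}
    {γ : ZMod p} {Γ : Polynomial (ZMod p)} (h : Pack n ρ c κ π π' a F)
    (h2 : Pack2 n ρ c κ π π' a F a₁ f W γ Γ) {g ie s w iw ω g₁ iF k j : A⟦X⟧}
    (U : UData c g ie s w iw ω) (hg : g = 1 + X ^ 4 * g₁)
    (V : VData n ρ c π' a F s iw ω iF k j) : (p : A) ^ 2 ∣ Lam n ω - 4 * π' := by
  have hn := h.hn
  obtain ⟨x, hx⟩ := psi_k h h2 U hg V
  obtain ⟨M, R, e⟩ := V.e2
  have := congrArg (Lam n) e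
  simp only [Lam_add, Lam_sub, Lam_C, Lam_d' hn, Lam_expand' hn, hx] at this
  have c0 : coeff 0 ω = 1 := by rw [U.hω, hg]; simp
  have c2 : coeff 2 ω = -1 := by
    have : ω = 1 - X ^ 2 + X ^ 4 * ((1 - X ^ 2) * g₁) := by rw [U.hω, hg]; ring
    rw [this, map_add, coeff_X_pow_mul', if_neg (by omega), map_sub, coeff_X_pow, coeff_one]
    simp
  rw [c0, c2] at this
  apply cancel_unit ρ h.hρ (u := 2) (by rw [map_ofNat]; exact two_ne_zero_zmod hn)
  exact ⟨π' * (6 * x - 3 * Psi n M) + Lam n R, by linear_combination this⟩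

lemma psi_T {n : ℕ} {ρ : A →+* ZMod p} {c κ π π' : A} {a F a₁ f W : Polynomial A}
    {γ : ZMod p} {Γ : Polynomial (ZMod p)} (h : Pack n ρ c κ π π' a F)
    (h2 : Pack2 n ρ c κ π π' a F a₁ f W γ Γ) {g ie s w iw ω g₁ iF k j : A⟦X⟧}
    (U : UData c g ie s w iw ω) (hg : g = 1 + X ^ 4 * g₁)
    (V : VData n ρ c π' a F s iw ω iF k j) :
    ρ (Psi n (C 63 * (w * Polynomial.aeval s (Polynomial.derivative f) * iF)
      + C 8 * ((16 * s - 32 * s ^ 3) * iw))) = -γ := by
  have hn := h.hn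
  rw [← Psi_map]
  have hw := congrArg (PowerSeries.map ρ) U.hw
  have hQ := congrArg (PowerSeries.map ρ) U.hQ
  have hie := congrArg (PowerSeries.map ρ) U.hie
  have hs := congrArg (PowerSeries.map ρ) U.hs
  have hiw := congrArg (PowerSeries.map ρ) U.hiw
  have hg' := congrArg (PowerSeries.map ρ) hg
  have eΓ := congrArg (Polynomial.aeval (PowerSeries.map ρ s)) h2.eΓ
  simp only [map_mul, map_add, map_sub, map_pow, map_one, map_ofNat, map_C, map_X, V.riF,
    map_aeval', aeval_QQ, aeval_C', Polynomial.aeval_X, ← Polynomial.derivative_map]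
    at hw hQ hie hs hiw hg' eΓ ⊢
  set sb := PowerSeries.map ρ s
  set wb := PowerSeries.map ρ w
  set iwb := PowerSeries.map ρ iw
  set ieb := PowerSeries.map ρ ie
  set f' := Polynomial.aeval sb (Polynomial.derivative (f.map ρ))
  rw [← hQ] at eΓ
  have h1 : wb ^ (2 * n + 1) * iwb ^ p = 1 := by rw [← hn, ← mul_pow, hw, one_pow]
  have e1 : 63 * (wb * f' * 1) + 8 * ((16 * sb - 32 * sb ^ 3) * iwb) =
      (Polynomial.aeval sb Γ + C γ * sb ^ (6 * n + 3)) * iwb ^ p := by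
    rw [← eΓ]
    linear_combination (-63 * wb * f' - 8 * (16 * sb - 32 * sb ^ 3) * iwb) * h1
      + (8 * (16 * sb - 32 * sb ^ 3) * wb ^ (2 * n) * iwb ^ p) * hw
  rw [e1, ← expand_zmod hp.out.ne_zero, hiw, psi_expand_iw hn hg', expand_zmod, ← pow_mul,
    show p * 2 = 4 * n + 2 by omega, add_mul, Psi_add, mul_comm, hs, Psi_pal_aeval n hie _ h2.dΓ,
    mul_assoc, Psi_C]
  have e2 : (X * ieb) ^ (6 * n + 3) * (1 + X ^ 2) ^ (4 * n + 2) =
      X ^ (6 * n + 3) * ieb ^ (2 * n + 1) := by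
    have : ieb ^ (4 * n + 2) * (1 + X ^ 2) ^ (4 * n + 2) = 1 := by rw [← mul_pow, hie, one_pow]
    linear_combination (X ^ (6 * n + 3) * ieb ^ (2 * n + 1)) * this
  have c0 : constantCoeff ieb = 1 := by
    have := congrArg constantCoeff hie
    simpa using this
  rw [e2, Psi, coeff_X_pow_mul', coeff_X_pow_mul', if_neg (by omega), if_pos le_rfl]
  simp [c0]

lemma lam_eta {n : ℕ} {ρ : A →+* ZMod p} {c κ π π' : A} {a F a₁ f W : Polynomial A}
    {γ : ZMod p} {Γ : Polynomial (ZMod p)} (h : Pack n ρ c κ π π' a F)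
    (h2 : Pack2 n ρ c κ π π' a F a₁ f W γ Γ) {g ie s w iw ω g₁ iF k j : A⟦X⟧}
    (U : UData c g ie s w iw ω) (hg : g = 1 + X ^ 4 * g₁)
    (V : VData n ρ c π' a F s iw ω iF k j) :
    (p : A) ^ 2 ∣ Lam n ((C c * s ^ 2 - C κ) * ω) - π * (-4 * κ - c)
      - 3 * p * Psi n (w * Polynomial.aeval s (Polynomial.derivative f) * iF) := by
  have hn := h.hn
  obtain ⟨π₁, hπ₁⟩ := (h.hρ π).1 h.ρπ
  set σ := expand (R := A) p hp.out.ne_zero with hσ
  have dσ : ∀ x, d⁄dX A (σ x) = C (p : A) * X ^ (2 * n) * σ (d⁄dX A x) :=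
    fun x => d_expand' hn _ x
  have σC : ∀ x, σ (C x) = C x := fun x => expand_C _ _ _
  have dF' : Polynomial.derivative F = Polynomial.C (p : A) * Polynomial.derivative f := by
    rw [h2.eF]; simp
  have hiF := V.hiF
  have diF : d⁄dX A iF =
      -(C (p : A) * Polynomial.aeval s (Polynomial.derivative f)) * (ω * w) * iF ^ 2 := by
    have := congrArg (d⁄dX A) hiF
    rw [d_mul, d_aeval, U.ds, derivative_one, dF', map_mul, aeval_C'] at this
    linear_combination iF * this - d⁄dX A iF * hiF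
  have th := congrArg (Polynomial.aeval s) h2.th
  simp only [map_sub, map_mul, map_add, map_pow, aeval_C', aeval_QQ, aeval_Qh, map_ofNat,
    Polynomial.aeval_X] at th
  have dL : C π' * d⁄dX A (w * Polynomial.aeval s (Polynomial.derivative f) * iF) =
      ω * (C κ * (C π - C π') + C c * C π' * s ^ 2
        - C c * C π * (Polynomial.aeval s a * iF) ^ 2) := by
    rw [d_mul, d_mul, d_aeval, U.dw, U.ds, diF]
    set f' := Polynomial.aeval s (Polynomial.derivative f)
    set f'' := Polynomial.aeval s (Polynomial.derivative (Polynomial.derivative f))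
    set Fs := Polynomial.aeval s F
    linear_combination (ω * iF ^ 2) * th
      + (C π' * ω * (f'' * iF - C (p : A) * f' ^ 2 * iF ^ 2)) * U.hQ
      + (ω * (C κ * (C π - C π') + C c * C π' * s ^ 2) * (iF * Fs + 1)
        - C π' * ω * iF * ((1 - 4 * s ^ 2 + C c * s ^ 4) * f'' + (-4 * s + 2 * C c * s ^ 3) * f'))
        * hiF
  have dM := dσ ((C c * s ^ 2 - C κ) * iw)
  have eM : σ ((C c * s ^ 2 - C κ) * iw) = (C c * σ s ^ 2 - C κ) * σ iw := by
    simp only [map_mul, map_sub, map_pow, σC]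
  have eη : σ ((C c * s ^ 2 - C κ) * ω) = (C c * σ s ^ 2 - C κ) * σ ω := by
    simp only [map_mul, map_sub, map_pow, σC]
  have e1 := V.e1
  have hk := V.hk
  rw [← hσ] at e1 hk
  rw [hk] at dL
  have hπC : (C π : A⟦X⟧) = C (p : A) * C π₁ := by rw [hπ₁, map_mul]
  have key : C π' * ((C c * s ^ 2 - C κ) * ω) =
      C π' * (C π * (X ^ (2 * n) * σ ((C c * s ^ 2 - C κ) * ω))
        + C π * d⁄dX A (k * σ ((C c * s ^ 2 - C κ) * iw))
        + d⁄dX A (w * Polynomial.aeval s (Polynomial.derivative f) * iF))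
      + C ((p : A) ^ 2) * (C π₁ * (C c * (2 * σ s * k + C (p : A) * k ^ 2) * ω
        - (C c * σ s ^ 2 - C κ) * ω * j * σ iw
        - C π' * k * X ^ (2 * n) * σ (d⁄dX A ((C c * s ^ 2 - C κ) * iw)))) := by
    rw [d_mul k, dM, eM, eη, map_pow C]
    linear_combination -dL + (C π * (C c * σ s ^ 2 - C κ)) * e1
      + (C (p : A) * (C c * (2 * σ s * k + C (p : A) * k ^ 2) * ω
        - (C c * σ s ^ 2 - C κ) * ω * j * σ iw
        - C π' * k * X ^ (2 * n) * σ (d⁄dX A ((C c * s ^ 2 - C κ) * iw)))) * hπC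
  have := congrArg (Lam n) key
  simp only [Lam_add, Lam_C, Lam_d' hn, hσ, Lam_expand' hn] at this
  have e3 : (C c * s ^ 2 - C κ) * ω = -C κ + C (c + κ) * X ^ 2 + X ^ 4 *
      (-C c - C c * (1 - X ^ 2) * (ie + ie ^ 2) + (C c * s ^ 2 - C κ) * (1 - X ^ 2) * g₁) := by
    rw [U.hω, hg, U.hs, map_add]
    linear_combination (C c * X ^ 2 * (1 - X ^ 2) * (ie + 1)) * U.hie
  have c0 : coeff 0 ((C c * s ^ 2 - C κ) * ω) = -κ := by rw [e3]; simp
  have c2 : coeff 2 ((C c * s ^ 2 - C κ) * ω) = c + κ := by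
    rw [e3, map_add, coeff_X_pow_mul', if_neg (by omega), map_add, coeff_C_mul, coeff_X_pow,
      map_neg, coeff_C]
    simp
  rw [c0, c2] at this
  apply cancel_unit ρ h.hρ h.hπ'
  have aux : ∀ L y₁ y₂ y₃ : A, π' * L = π' * (π * (3 * -κ - (c + κ)) + π * (3 * p * y₁)
      + 3 * p * y₂) + (p : A) ^ 2 * y₃ →
      (p : A) ^ 2 ∣ π' * (L - π * (-4 * κ - c) - 3 * p * y₂) := by
    intro L y₁ y₂ y₃ hh
    exact ⟨3 * π' * π₁ * y₁ + y₃, by linear_combination hh + (3 * π' * p * y₁) * hπ₁⟩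
  exact aux _ _ _ _ this

theorem main_cong {n : ℕ} {ρ : A →+* ZMod p} {c κ π π' : A} {a F : Polynomial A}
    (h : Pack n ρ c κ π π' a F) {g g₁ : A⟦X⟧}
    (hg0 : ((1 - X ^ 4) ^ 2 + C c * X ^ 4) * g ^ 2 = 1) (hg : g = 1 + X ^ 4 * g₁) :
    (p : A) ^ 2 ∣ Lam n ((1 - X ^ 2) * g) - 4 * π' ∧
    (p : A) ^ 2 ∣ Lam n (C c * X ^ 4 * (1 - X ^ 2) * g ^ 3) - 32 * (π' - π) := by
  have hn := h.hn
  obtain ⟨a₁, f, W, γ, Γ, h2⟩ := h.pack2
  obtain ⟨ie, s, w, iw, ω, U⟩ := exists_udata c hg0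
  obtain ⟨iF, k, j, V⟩ := exists_vdata h h2 U
  obtain ⟨x₁, l1⟩ := lam_omega h h2 U hg V
  obtain ⟨x₂, l2⟩ := lam_eta h h2 U hg V
  have l3 := psi_T h h2 U hg V
  refine ⟨⟨x₁, by rw [← U.hω, l1]⟩, ?_⟩
  obtain ⟨π₁, hπ₁⟩ := (h.hρ π).1 h.ρπ
  have hc : (63 : A⟦X⟧) * C c = 256 := by
    have := congrArg (C (R := A)) h.hc
    simpa only [map_mul, map_ofNat] using this
  have hκ : (21 : A⟦X⟧) * C κ = 32 := by
    have := congrArg (C (R := A)) h.hκ
    simpa only [map_mul, map_ofNat] using this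
  have e0 : C c * X ^ 4 * (1 - X ^ 2) * g ^ 3 = C c * s ^ 4 * ω * iw ^ 2 := by
    rw [U.hs, U.hω, U.hiw]
    linear_combination (-(C c * X ^ 4 * (1 - X ^ 2) * g ^ 3) * (ie * (1 + X ^ 2) + 1) *
      ((ie * (1 + X ^ 2)) ^ 2 + 1)) * U.hie
  have e1 : C (-4) * (C c * s ^ 4 * ω * iw ^ 2) = C (-32) * ω + C 63 * ((C c * s ^ 2 - C κ) * ω)
      + C 8 * d⁄dX A ((16 * s - 32 * s ^ 3) * iw) := by
    simp only [d_mul, map_sub, d_cube, d_ofNat, U.ds, U.diw, map_neg, map_ofNat]
    have hw := U.hw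
    have hQ := U.hQ
    linear_combination (-(s ^ 2 - 4 * s ^ 4 * iw ^ 2) * ω) * hc + 3 * ω * hκ
      - (8 * (16 - 96 * s ^ 2) * ω + 512 * s ^ 2 * ω * (w * iw + 1)) * hw
      + 512 * s ^ 2 * ω * iw ^ 2 * hQ
  have e2 := congrArg (Lam n) e1
  simp only [Lam_add, Lam_C, Lam_d' hn] at e2
  rw [Psi_add, Psi_C, Psi_C] at l3
  set y₁ := Psi n (w * Polynomial.aeval s (Polynomial.derivative f) * iF)
  set y₂ := Psi n ((16 * s - 32 * s ^ 3) * iw)
  obtain ⟨x₃, l4⟩ : (p : A) ∣ π' * (63 * y₁ + 8 * y₂) - 256 := by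
    rw [← h.hρ, map_sub, map_mul, l3, map_ofNat]
    linear_combination -h2.eγ
  apply cancel_unit ρ h.hρ (u := -4) (by
    rw [map_neg, neg_ne_zero, map_ofNat, show (4 : ZMod p) = 2 * 2 by norm_num]
    exact mul_ne_zero (two_ne_zero_zmod hn) (two_ne_zero_zmod hn))
  rw [e0]
  refine ⟨-32 * x₁ + 63 * x₂ + 3 * π₁ * x₃, ?_⟩
  linear_combination e2 - 32 * l1 + 63 * l2 + 3 * π * l4 - 3 * (63 * y₁ + 8 * y₂) * h.hπ
    + 3 * p * x₃ * hπ₁ - π * h.hc - 12 * π * h.hκ

end Pool.Agent.MP_d8ab80_nt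

end

section

/-! Vanishing of the Hasse invariant at inert primes. -/

set_option linter.unusedSectionVars false
set_option linter.unusedSimpArgs false

namespace Pool.Agent.MP_d8ab80_nt
open PowerSeries

variable {k : Type*} [Field k] {p : ℕ} [hp : Fact p.Prime] [CharP k p]

lemma charP_series : CharP k⟦X⟧ p :=
  charP_of_injective_ringHom (f := C (R := k)) C_injective p

lemma cast_ne_zero_of_lt {j : ℕ} (hj : j + 1 < p) : ((j : k) + 1) ≠ 0 := by
  intro h0
  have : ((j + 1 : ℕ) : k) = 0 := by push_cast; exact h0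
  rw [CharP.cast_eq_zero_iff k p] at this
  exact absurd (Nat.le_of_dvd (by omega) this) (by omega)

lemma cartier_pow {m : ℕ} (hm : p = m + 1) {τ : k⟦X⟧} (h0 : constantCoeff τ = 0) (j : ℕ) :
    coeff m (τ ^ j * d⁄dX k τ) = if j = m then coeff 1 τ ^ p else 0 := by
  rcases lt_or_ge j m with hj | hj
  · rw [if_neg hj.ne]
    have h1 := congrArg (coeff m) (d_pow τ j)
    have e : ((j : k⟦X⟧) + 1) = C ((j : k) + 1) := by simp
    have hp0 : ((m : k) + 1) = 0 := by
      have := CharP.cast_eq_zero k p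
      rw [hm] at this
      exact_mod_cast this
    rw [coeff_derivative, hp0, mul_zero, e, mul_assoc, coeff_C_mul] at h1
    exact (mul_eq_zero.1 h1.symm).resolve_left (cast_ne_zero_of_lt (p := p) (by omega))
  · obtain ⟨τ₁, rfl⟩ := X_dvd_iff.2 h0
    rw [mul_pow, mul_assoc, coeff_X_pow_mul']
    rcases hj.eq_or_lt with rfl | hj
    · rw [if_pos le_rfl, if_pos rfl, Nat.sub_self, d_mul, derivative_X, hm, pow_succ,
        coeff_succ_X_mul]
      simp
    · rw [if_neg (by omega), if_neg (by omega)]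

lemma cartier {m : ℕ} (hm : p = m + 1) {τ : k⟦X⟧} (h0 : constantCoeff τ = 0) (P : Polynomial k) :
    coeff m (Polynomial.aeval τ P * d⁄dX k τ) = P.coeff m * coeff 1 τ ^ p := by
  induction P using Polynomial.induction_on' with
  | add f g hf hg => rw [map_add, add_mul, map_add, hf, hg, Polynomial.coeff_add, add_mul]
  | monomial j a =>
    rw [← Polynomial.C_mul_X_pow_eq_monomial, map_mul (Polynomial.aeval τ), map_pow, aeval_C',
      Polynomial.aeval_X, mul_assoc, coeff_C_mul, cartier_pow hm h0, Polynomial.coeff_C_mul, Polynomial.coeff_X_pow]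
    by_cases h : j = m
    · simp [h]
    · rw [if_neg h, if_neg (Ne.symm h)]; simp

lemma coeff_pow_p_mul {m : ℕ} (hm : m < p) (u f : k⟦X⟧) :
    coeff m (u ^ p * f) = constantCoeff u ^ p * coeff m f := by
  have := charP_series (k := k) (p := p)
  obtain ⟨h, hh⟩ : (X : k⟦X⟧) ∣ u - C (constantCoeff u) := by rw [X_dvd_iff]; simp
  have e : u = C (constantCoeff u) + X * h := by rw [← hh]; ring
  have e2 : u ^ p * f = C (constantCoeff u ^ p) * f + X ^ p * (h ^ p * f) := by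
    conv_lhs => rw [e, add_pow_char, mul_pow, ← map_pow]
    ring
  rw [e2, map_add, coeff_C_mul, coeff_X_pow_mul', if_neg (by omega), add_zero]

/-- The scaled quadratic. -/
noncomputable def Qt (φ : k) : Polynomial k :=
  1 + Polynomial.C (3 * (2 * φ - 1)) * Polynomial.X - 16 * Polynomial.X ^ 2

theorem hasse_zero {n : ℕ} (hn : p = 2 * n + 1) {φ : k} (hφ : φ ^ 2 = φ - 2) (h0 : φ ≠ 0)
    (h1 : φ ^ (2 * n) ≠ 1) : (Qt φ ^ n).coeff n = 0 := by
  obtain ⟨I, hI⟩ := exists_inv (f := (1 + 4 * C φ * X : k⟦X⟧)) (by simp)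
  have hf : (C φ : k⟦X⟧) ^ 2 = C φ - 2 := by rw [← map_pow, hφ, map_sub, map_ofNat]
  have dI : d⁄dX k I = -4 * C φ * I ^ 2 := by
    have := congrArg (d⁄dX k) hI
    simp only [d_mul, map_add, derivative_one, derivative_X, derivative_C, d_ofNat] at this
    linear_combination I * this - d⁄dX k I * hI
  have cI : constantCoeff I = 1 := by
    have := congrArg constantCoeff hI
    simpa using this
  set τ : k⟦X⟧ := C φ ^ 2 * X * (1 + (3 * C φ - 1) * X) * I ^ 2 with hτ
  have dτ : d⁄dX k τ = C φ ^ 2 * (1 - 2 * (1 - C φ) * X) * I ^ 3 := by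
    simp only [hτ, d_mul, d_sq, map_add, map_sub, derivative_one, derivative_X, derivative_C,
      d_ofNat, dI]
    linear_combination (-C φ ^ 2 * (1 + 2 * (3 * C φ - 1) * X) * I ^ 2) * hI
  have aQ : ∀ s : k⟦X⟧, Polynomial.aeval s (Polynomial.X * Qt φ) =
      s * (1 + 3 * (2 * C φ - 1) * s - 16 * s ^ 2) := by
    intro s
    simp only [Qt, map_mul, map_add, map_sub, map_pow, map_one, map_ofNat, aeval_C',
      Polynomial.aeval_X]
  have key : d⁄dX k τ ^ 2 * Polynomial.aeval (X : k⟦X⟧) (Polynomial.X * Qt φ) =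
      C φ ^ 2 * Polynomial.aeval τ (Polynomial.X * Qt φ) := by
    rw [aQ, aQ, dτ, hτ]
    set f : k⟦X⟧ := C φ
    linear_combination I ^ 6 * (- 3*X^2*f^4 - 6*X^2*f^5 - 14*X^3*f^5 + 26*X^4*f^4 - 68*X^3*f^6
      + 5*X^4*f^5 - 32*X^5*f^4 + 9*X^4*f^6 + 48*X^5*f^5 - 294*X^4*f^7 + 8*X^5*f^6 + 120*X^5*f^7
      - 576*X^5*f^8 + 144*X^6*f^8 - 432*X^6*f^9) * hf
      + (f ^ 2 * (f ^ 2 * X * (1 + (3 * f - 1) * X)) * I ^ 2 * (I * (1 + 4 * f * X) + 1) *
        ((I * (1 + 4 * f * X)) ^ 2 + 1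
          + 3 * (2 * f - 1) * (f ^ 2 * X * (1 + (3 * f - 1) * X)) * I ^ 2)) * hI
  have c0 : constantCoeff τ = 0 := by simp [hτ]
  have c1 : constantCoeff (d⁄dX k τ) = φ ^ 2 := by rw [dτ]; simp [cI]
  have c2 : coeff 1 τ = φ ^ 2 := by
    rw [← c1, ← coeff_zero_eq_constantCoeff_apply, coeff_derivative]; simp
  have e1 : C (φ ^ (2 * n)) * (Polynomial.aeval τ ((Polynomial.X * Qt φ) ^ n) * d⁄dX k τ) =
      d⁄dX k τ ^ p * Polynomial.aeval (X : k⟦X⟧) ((Polynomial.X * Qt φ) ^ n) := by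
    have := congrArg (· ^ n) key
    simp only [mul_pow, ← pow_mul] at this
    rw [map_pow, map_pow, map_pow, hn, pow_succ]
    linear_combination (-d⁄dX k τ) * this
  have e2 := congrArg (coeff (2 * n)) e1
  have e3 := cartier hn (τ := (X : k⟦X⟧)) (by simp) ((Polynomial.X * Qt φ) ^ n)
  rw [derivative_X, mul_one, coeff_one_X, one_pow, mul_one] at e3
  rw [coeff_C_mul, cartier hn c0, coeff_pow_p_mul (by omega), c1, c2, e3, mul_pow, two_mul n,
    Polynomial.coeff_X_pow_mul, ← two_mul] at e2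
  have e4 : (φ ^ 2) ^ p * ((φ ^ (2 * n) - 1) * (Qt φ ^ n).coeff n) = 0 := by
    linear_combination e2
  exact (mul_eq_zero.1 ((mul_eq_zero.1 e4).resolve_left (pow_ne_zero _ (pow_ne_zero _ h0)))).resolve_left
    (sub_ne_zero.2 h1)

theorem coeff_omega {n : ℕ} (hn : p = 2 * n + 1) {c : k} {g g₁ : k⟦X⟧}
    (hg0 : ((1 - X ^ 4) ^ 2 + C c * X ^ 4) * g ^ 2 = 1) (hg : g = 1 + X ^ 4 * g₁) :
    coeff (2 * n) ((1 - X ^ 2) * g) = (QQ c ^ n).coeff (2 * n) := by
  obtain ⟨ie, s, w, iw, ω, U⟩ := exists_udata c hg0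
  have h1 : w ^ (2 * n + 1) * iw ^ p = 1 := by rw [← hn, ← mul_pow, U.hw, one_pow]
  have e : ω = iw ^ p * (Polynomial.aeval s (QQ c ^ n) * d⁄dX k s) := by
    rw [map_pow, aeval_QQ, ← U.hQ, U.ds]
    linear_combination (-ω) * h1
  have c0 : constantCoeff iw = 1 := by rw [U.hiw, hg]; simp
  have c1 : coeff 1 s = 1 := by
    have := congrArg constantCoeff U.hie
    rw [U.hs, coeff_succ_X_mul]
    simpa using this
  rw [← U.hω, e, coeff_pow_p_mul (by omega), cartier hn U.cc_s, c0, c1]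
  simp

end Pool.Agent.MP_d8ab80_nt

end
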