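import Mathlib
import Pool.Agent.Mg.Fd8ab80.Gb587c4
import Pool.Agent.Mg.Fd8ab80.G514de8
import Pool.Agent.Mg.Fd8ab80.G3f8edb

section

/-! The sign of the Frobenius element. -/

namespace Pool.Agent.MP_d8ab80_nt

/-- The character modulo four on odd integers. -/
def s4 (w : ℤ) : ℤ := if w % 4 = 1 then 1 else -1

lemma s4_sq (w : ℤ) : s4 w * s4 w = 1 := by unfold s4; split_ifs <;> rfl

lemma jac_odd {w : ℤ} {p : ℕ} (hw : w % 2 = 1) (hp : p % 2 = 1) :
    jacobiSym w p = jacobiSym p w.natAbs * (if p % 4 = 3 then s4 w else 1) := by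
  have hu : w.natAbs % 2 = 1 := by omega
  have h := jacobiSym.quadratic_reciprocity_if hu hp
  rcases Int.natAbs_eq w with e | e
  · have e1 : jacobiSym w p = jacobiSym (w.natAbs : ℤ) p := by rw [← e]
    rw [e1, ← h, s4]
    split_ifs <;> first | omega | ring1
  · have e1 : jacobiSym w p = jacobiSym (-(w.natAbs : ℤ)) p := by rw [← e]
    rw [e1, jacobiSym.neg _ (Nat.odd_iff.2 hp), ← h, s4, ZMod.χ₄_nat_eq_if_mod_four]
    split_ifs <;> first | omega | ring1

lemma jac_seven {w : ℤ} (hw : w % 2 = 1) : jacobiSym 7 w.natAbs = jacobiSym w 7 * s4 w := by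
  have h := jac_odd (p := 7) hw (by norm_num)
  rw [h, if_pos (by norm_num), mul_assoc, s4_sq, mul_one]; rfl

lemma exists_two_pow {v : ℤ} (hv : v ≠ 0) : ∃ (e : ℕ) (w : ℤ), w % 2 = 1 ∧ v = 2 ^ e * w := by
  obtain ⟨e, u, hu, h⟩ := Nat.exists_eq_two_pow_mul_odd (Int.natAbs_ne_zero.2 hv)
  have hu' := Nat.odd_iff.1 hu
  rcases Int.natAbs_eq v with e1 | e1
  · exact ⟨e, u, by omega, by rw [e1, h]; push_cast; ring⟩
  · exact ⟨e, -u, by omega, by rw [e1, h]; push_cast; ring⟩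

lemma jac_two_pow {p e : ℕ} {w t c d : ℤ} (hw : w % 2 = 1) (ht : t % 2 = 1) (he : e ≠ 0)
    (hcd : (c = 1 ∧ d = 7) ∨ (c = 7 ∧ d = 1)) (h : (p : ℤ) = c * t ^ 2 + d * (2 ^ e * w) ^ 2) :
    jacobiSym 2 p ^ e = if (2 ^ e * w) % 4 = 2 then -1 else 1 := by
  obtain ⟨a, ha⟩ := Int.eight_dvd_sq_sub_one_of_odd (Int.odd_iff.2 ht)
  obtain ⟨b, hb⟩ := Int.eight_dvd_sq_sub_one_of_odd (Int.odd_iff.2 hw)
  obtain ⟨e, rfl⟩ := Nat.exists_eq_succ_of_ne_zero he
  rcases e with _ | e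
  · have h1 : (p : ℤ) = c * (8 * a + 1) + d * (4 * (8 * b + 1)) := by
      rw [h]; norm_num; linear_combination c * ha + 4 * d * hb
    have hp : p % 2 = 1 := by rcases hcd with ⟨rfl, rfl⟩ | ⟨rfl, rfl⟩ <;> omega
    rw [jacobiSym.at_two (Nat.odd_iff.2 hp), ZMod.χ₈_nat_eq_if_mod_eight]
    norm_num
    rcases hcd with ⟨rfl, rfl⟩ | ⟨rfl, rfl⟩ <;> split_ifs <;> omega
  · have h1 : (p : ℤ) = c * (8 * a + 1) + d * (16 * (2 ^ e * w) ^ 2) := by
      rw [h, Nat.succ_eq_add_one]; linear_combination c * ha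
    have h2 : (2 : ℤ) ^ (e + 1).succ * w = 4 * (2 ^ e * w) := by
      rw [Nat.succ_eq_add_one]; ring
    rw [h2]
    generalize (2 ^ e * w) ^ 2 = q at h1
    have hp : p % 2 = 1 := by rcases hcd with ⟨rfl, rfl⟩ | ⟨rfl, rfl⟩ <;> omega
    have h3 : jacobiSym 2 p = 1 := by
      rw [jacobiSym.at_two (Nat.odd_iff.2 hp), ZMod.χ₈_nat_eq_if_mod_eight]
      rcases hcd with ⟨rfl, rfl⟩ | ⟨rfl, rfl⟩ <;> split_ifs <;> omega
    rw [h3, one_pow, if_neg (by omega)]

lemma jac_p_of_dvd {p : ℕ} {c t w q : ℤ} (h : (p : ℤ) = c * t ^ 2 + w * q) (hc : IsCoprime t w) :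
    jacobiSym p w.natAbs = jacobiSym c w.natAbs := by
  have h1 : jacobiSym p w.natAbs = jacobiSym (c * t ^ 2) w.natAbs := by
    apply jacobiSym.mod_left'
    apply Int.ModEq.eq
    apply Int.ModEq.symm
    rw [Int.modEq_iff_dvd, h, add_sub_cancel_left]
    exact Int.natAbs_dvd.2 (dvd_mul_right _ _)
  rw [h1, jacobiSym.mul_left, jacobiSym.sq_one', mul_one]
  rw [← Int.isCoprime_iff_gcd_eq_one]
  rcases Int.natAbs_eq w with e | e
  · rwa [← e]
  · have : ((w.natAbs : ℕ) : ℤ) = -w := by omega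
    rw [this]; exact hc.neg_right

lemma coprime_xy {p : ℕ} (hp : p.Prime) {x y : ℤ} (h : (p : ℤ) = x ^ 2 + 7 * y ^ 2) :
    IsCoprime x y := by
  rw [Int.isCoprime_iff_gcd_eq_one]
  have h1 : ((Int.gcd x y * Int.gcd x y : ℕ) : ℤ) ∣ p := by
    rw [h]; push_cast
    obtain ⟨a, ha⟩ := Int.gcd_dvd_left x y
    obtain ⟨b, hb⟩ := Int.gcd_dvd_right x y
    exact ⟨a ^ 2 + 7 * b ^ 2, by
      linear_combination (x + (Int.gcd x y : ℤ) * a) * ha + 7 * (y + (Int.gcd x y : ℤ) * b) * hb⟩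
  exact Nat.isUnit_iff.1 (hp.squarefree _ (Int.natCast_dvd_natCast.1 h1))

theorem sign_main {p : ℕ} (hp : p.Prime) (hp2 : p % 2 = 1) {x y : ℤ}
    (h : (p : ℤ) = x ^ 2 + 7 * y ^ 2) (hx0 : x ≠ 0) :
    s4 (x + y) * jacobiSym (x * y) p = jacobiSym x 7 := by
  have hc := coprime_xy hp h
  have hy0 : y ≠ 0 := by
    rintro rfl
    have : x = 1 ∨ x = -1 := Int.isUnit_iff.1 (isCoprime_zero_right.1 hc)
    have h1 := hp.one_lt
    rcases this with rfl | rfl <;> omega
  rw [jacobiSym.mul_left]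
  rcases Int.emod_two_eq_zero_or_one x with hx | hx
  · have hy : y % 2 = 1 := by
      rcases Int.emod_two_eq_zero_or_one y with hy | hy
      · exfalso
        obtain ⟨a, rfl⟩ := Int.dvd_of_emod_eq_zero hx
        obtain ⟨b, rfl⟩ := Int.dvd_of_emod_eq_zero hy
        have : (p : ℤ) = 2 * (2 * a ^ 2 + 14 * b ^ 2) := by rw [h]; ring
        omega
      · exact hy
    have p4 : p % 4 = 3 := by
      obtain ⟨a, rfl⟩ := Int.dvd_of_emod_eq_zero hx
      obtain ⟨b, hb⟩ := Int.eight_dvd_sq_sub_one_of_odd (Int.odd_iff.2 hy)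
      have : (p : ℤ) = 4 * (a ^ 2 + 14 * b + 1) + 3 := by rw [h]; linear_combination 7 * hb
      omega
    obtain ⟨e, w, hw, rfl⟩ := exists_two_pow hx0
    have he : e ≠ 0 := by rintro rfl; omega
    have j2 := jac_two_pow (p := p) (c := 7) (d := 1) hw hy he (Or.inr ⟨rfl, rfl⟩) (by rw [h]; ring)
    have jy : jacobiSym p y.natAbs = 1 := by
      rw [jac_p_of_dvd (c := 1) (t := 2 ^ e * w) (q := 7 * y) (by rw [h]; ring) hc,
        jacobiSym.one_left]
    have jw : jacobiSym p w.natAbs = jacobiSym w 7 * s4 w := by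
      rw [jac_p_of_dvd (c := 7) (t := y) (q := (2 ^ e) ^ 2 * w) (by rw [h]; ring)
        hc.symm.of_mul_right_right, jac_seven hw]
    have j7 : jacobiSym 2 7 = 1 := by norm_num
    rw [jacobiSym.mul_left _ _ p, jacobiSym.mul_left _ _ 7, jacobiSym.pow_left, jacobiSym.pow_left,
      j2, j7, jac_odd hw hp2, jac_odd hy hp2, jy, jw, if_pos p4, if_pos p4]
    have := s4_sq w
    generalize 2 ^ e * w = v at *
    have h5 : s4 (v + y) * (if v % 4 = 2 then -1 else 1) * s4 y = 1 := by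
      unfold s4; split_ifs <;> omega
    linear_combination (jacobiSym w 7 * s4 w * s4 w) * h5 + jacobiSym w 7 * this
  · have hy : y % 2 = 0 := by
      rcases Int.emod_two_eq_zero_or_one y with hy | hy
      · exact hy
      · exfalso
        obtain ⟨a, ha⟩ := Int.eight_dvd_sq_sub_one_of_odd (Int.odd_iff.2 hx)
        obtain ⟨b, hb⟩ := Int.eight_dvd_sq_sub_one_of_odd (Int.odd_iff.2 hy)
        have : (p : ℤ) = 2 * (4 * a + 28 * b + 4) := by rw [h]; linear_combination ha + 7 * hb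
        omega
    have p4 : ¬ p % 4 = 3 := by
      obtain ⟨a, rfl⟩ := Int.dvd_of_emod_eq_zero hy
      obtain ⟨b, hb⟩ := Int.eight_dvd_sq_sub_one_of_odd (Int.odd_iff.2 hx)
      have : (p : ℤ) = 4 * (7 * a ^ 2 + 2 * b) + 1 := by rw [h]; linear_combination hb
      omega
    obtain ⟨e, w, hw, rfl⟩ := exists_two_pow hy0
    have he : e ≠ 0 := by rintro rfl; omega
    have j2 := jac_two_pow (p := p) (c := 1) (d := 7) hw hx he (Or.inl ⟨rfl, rfl⟩) (by rw [h]; ring)
    have jw : jacobiSym p w.natAbs = 1 := by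
      rw [jac_p_of_dvd (c := 1) (t := x) (q := 7 * (2 ^ e) ^ 2 * w) (by rw [h]; ring)
        hc.of_mul_right_right, jacobiSym.one_left]
    have jx : jacobiSym p x.natAbs = jacobiSym x 7 * s4 x := by
      rw [jac_p_of_dvd (c := 7) (t := 2 ^ e * w) (q := x) (by rw [h]; ring) hc.symm, jac_seven hx]
    rw [jacobiSym.mul_left _ _ p, jacobiSym.pow_left,
      j2, jac_odd hw hp2, jac_odd hx hp2, jx, jw, if_neg p4, if_neg p4]
    generalize 2 ^ e * w = v at *
    have h5 : s4 (x + v) * (if v % 4 = 2 then -1 else 1) * s4 x = 1 := by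
      unfold s4; split_ifs <;> omega
    linear_combination (jacobiSym x 7) * h5

lemma sign_three {p n : ℕ} (hp : p.Prime) (hn : p = 2 * n + 1) (h3 : p ≠ 3) :
    (-1) ^ n * jacobiSym p 3 * jacobiSym 3 p = 1 := by
  have h := jacobiSym.quadratic_reciprocity (a := 3) (b := p) (by decide) ⟨n, hn⟩
  have h1 : jacobiSym p 3 ^ 2 = 1 := by
    apply jacobiSym.sq_one
    exact_mod_cast (Nat.coprime_primes hp Nat.prime_three).2 h3
  rw [show 3 / 2 * (p / 2) = n by omega] at h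
  push_cast at h
  have h2 : ((-1 : ℤ) ^ n) ^ 2 = 1 := by rw [← pow_mul, mul_comm, pow_mul]; simp
  rw [h]
  linear_combination ((-1) ^ n) ^ 2 * h1 + h2

end Pool.Agent.MP_d8ab80_nt

end

section

/-! Part (a) in a ring where `-7` is a square. -/

set_option linter.unusedSectionVars false
set_option linter.unusedSimpArgs false

namespace Pool.Agent.MP_d8ab80_nt

section
open Polynomial
variable {A : Type*} [CommRing A]

lemma coeff_comp2 (μ : A) (P : A[X]) (k : ℕ) :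
    (P.comp (C μ * X ^ 2)).coeff (2 * k) = P.coeff k * μ ^ k := by
  induction P using Polynomial.induction_on' with
  | add p q hp hq => rw [add_comp, coeff_add, hp, hq, coeff_add, add_mul]
  | monomial m a =>
    rw [← C_mul_X_pow_eq_monomial, mul_comp, C_comp, pow_comp, X_comp, mul_pow, ← pow_mul, ← C_pow,
      coeff_C_mul, coeff_C_mul, coeff_C_mul, coeff_X_pow, coeff_X_pow]
    by_cases h : k = m
    · simp [h]
    · rw [if_neg h, if_neg (by omega)]; simp

lemma natDegree_comp2 (μ : A) {P : A[X]} {n : ℕ} (h : P.natDegree ≤ n) :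
    (P.comp (C μ * X ^ 2)).natDegree ≤ 2 * n := by
  refine natDegree_comp_le.trans ?_
  rw [mul_comm]
  exact Nat.mul_le_mul (by compute_degree) h

lemma derivative_comp2 (μ : A) (P : A[X]) : derivative (P.comp (C μ * X ^ 2)) =
    2 * C μ * X * (derivative P).comp (C μ * X ^ 2) := by
  rw [derivative_comp, derivative_C_mul, derivative_X_pow]
  simp only [map_natCast]; push_cast; ring

variable [IsDomain A] [CharZero A] {p : ℕ} [hp : Fact p.Prime]

theorem pack_of_cm {n : ℕ} (hn : p = 2 * n + 1) (ρ : A →+* ZMod p)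
    (hρ : ∀ x, ρ x = 0 ↔ (p : A) ∣ x) {φ i σ : A} (hφ : φ ^ 2 = φ - 2) (hi : 63 * i = 1)
    (hσ : σ ^ 2 = 1) {x y : ℤ} (h : (p : ℤ) = x ^ 2 + 7 * y ^ 2)
    (hπ' : ρ (x - y * (2 * φ - 1)) ≠ 0)
    (hs : ρ (σ * (s4 (x + y) * 4 ^ n * (12 * i * (2 * φ - 1)) ^ n)) = 1) :
    ∃ a F, Pack n ρ (256 * i) (96 * i) (σ * (x + y * (2 * φ - 1))) (σ * (x - y * (2 * φ - 1)))
      a F := by
  have hxy : (x - y) % 2 = 1 := by
    have : (p : ℤ) = (x - y) + 2 * (x * (x - 1) / 2 + y * (y - 1) / 2 + 3 * y ^ 2 + y) := by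
      have h1 := Int.two_mul_ediv_two_of_even (Int.even_mul_pred_self x)
      have h2 := Int.two_mul_ediv_two_of_even (Int.even_mul_pred_self y)
      rw [h]; linear_combination -h1 - h2
    omega
  have hn' : (p : ℤ) = 2 * n + 1 := by exact_mod_cast hn
  obtain ⟨B, F, G⟩ := exists_goodOdd hφ (a := x - y) (b := 2 * y) (n := n) hxy (by omega)
    (by rw [← hn', h]; ring)
  have hal : al φ (x - y) (2 * y) = x + y * (2 * φ - 1) := by simp only [al]; push_cast; ring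
  have hpA : (p : A) = x ^ 2 + 7 * y ^ 2 := by exact_mod_cast congrArg (Int.cast : ℤ → A) h
  have hnA : (p : A) = 2 * n + 1 := by exact_mod_cast congrArg (Nat.cast : ℕ → A) hn
  set r := 2 * φ - 1 with hr
  have hr2 : r ^ 2 = -7 := by rw [hr]; linear_combination 4 * hφ
  set μ := 12 * i * r with hμ
  set π := (x : A) + y * r with hπ
  have e1 : 3 * r * μ = -4 := by rw [hμ]; linear_combination 36 * i * hr2 - 4 * hi
  have e2 : 16 * μ ^ 2 = -(256 * i) := by
    rw [hμ]; linear_combination 2304 * i ^ 2 * hr2 - 256 * i * hi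
  have e3 : μ * (8 * ((2 * y : ℤ) : A) * π) = 96 * i * ((σ * π) ^ 2 - p) := by
    rw [hμ, hπ, hpA]; push_cast
    linear_combination (-96 * i * (x + y * r) ^ 2) * hσ + (96 * i * y ^ 2) * hr2
  have E1 : (C (3 * r) * C μ : A[X]) = -4 := by rw [← C_mul, e1]; simp [map_ofNat]
  have E2 : (16 * C μ ^ 2 : A[X]) = -C (256 * i) := by
    rw [← map_neg, ← e2]; simp [map_ofNat]
  have E3 : (C μ * C (8 * ((2 * y : ℤ) : A) * π) : A[X]) = C (96 * i * ((σ * π) ^ 2 - p)) := by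
    rw [← C_mul, e3]
  have E4 : (C σ : A[X]) ^ 2 = 1 := by rw [← C_pow, hσ, C_1]
  have E5 : (C (p : A) : A[X]) = 2 * n + 1 := by rw [hnA]; simp [map_ofNat]
  have w := congrArg (fun P => P.comp (C μ * X ^ 2)) G.wronski
  have t := congrArg (fun P => P.comp (C μ * X ^ 2)) G.theta
  simp only [hal, ← hr, mul_comp, add_comp, sub_comp, pow_comp, C_comp, X_comp, ofNat_comp,
    one_comp, natCast_comp, Nat.cast_ofNat] at w t
  have σ0 : ρ σ ≠ 0 := by
    intro h0
    rw [map_mul, h0, zero_mul] at hs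
    exact zero_ne_one hs
  refine ⟨C σ * (X * B.comp (C μ * X ^ 2)), F.comp (C μ * X ^ 2), hn, hρ,
    by linear_combination 256 * hi, by linear_combination 32 * hi, ?_, ?_, ?_, ?_, ?_,
    natDegree_comp2 μ G.dF, ?_, ?_, ?_, ?_⟩
  · rw [hpA]; linear_combination (x ^ 2 - y ^ 2 * r ^ 2) * hσ - y ^ 2 * hr2
  · rw [map_mul]; exact mul_ne_zero σ0 hπ'
  · simp only [derivative_mul, derivative_comp2, derivative_C, derivative_X, QQ, map_mul C σ]
    set b := B.comp (C μ * X ^ 2)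
    set b' := (derivative B).comp (C μ * X ^ 2)
    set f := F.comp (C μ * X ^ 2)
    set f' := (derivative F).comp (C μ * X ^ 2)
    linear_combination C σ ^ 2 * w
      - C σ ^ 2 * X ^ 2 * (((b + 2 * C μ * X ^ 2 * b') * f - 2 * C μ * X ^ 2 * b * f') ^ 2
        - C π ^ 2 * b ^ 2 * f ^ 2) * E1
      + C σ ^ 2 * X ^ 4 * (((b + 2 * C μ * X ^ 2 * b') * f - 2 * C μ * X ^ 2 * b * f') ^ 2
        - C π ^ 2 * b ^ 4) * E2
      + C σ ^ 2 * C π ^ 2 * (4 * X ^ 2 * b ^ 2 * f ^ 2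
        - C (256 * i) * X ^ 4 * b ^ 4 * (C σ ^ 2 + 1)) * E4
  · rw [← E3]
    simp only [derivative_mul, derivative_comp2, derivative_C, derivative_X, QQ, Qh, map_mul C σ,
      derivative_ofNat, map_mul C (256 * i), map_pow C, E5]
    set b := B.comp (C μ * X ^ 2)
    set f := F.comp (C μ * X ^ 2)
    set f' := (derivative F).comp (C μ * X ^ 2)
    set f'' := (derivative (derivative F)).comp (C μ * X ^ 2)
    linear_combination C μ * t
      - (4 * C μ ^ 2 * X ^ 4 * (f * f'' - f' ^ 2) + 4 * C μ * X ^ 2 * f * f') * E1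
      + (4 * C μ ^ 2 * X ^ 6 * (f * f'' - f' ^ 2) + 6 * C μ * X ^ 4 * f * f'
        - f ^ 2 * (2 * n + 1) * X ^ 2 + C π ^ 2 * X ^ 2 * b ^ 2) * E2
      + (C (256 * i) * C π ^ 2 * X ^ 2 * b ^ 2 * (C σ ^ 2 + 1)) * E4
  · refine (natDegree_C_mul_le _ _).trans ?_
    refine (natDegree_mul_le_of_le natDegree_X_le (natDegree_comp2 μ G.dA)).trans (by omega)
  · simp
  · have := coeff_comp2 μ B 0
    rw [coeff_C_mul, coeff_X_mul, this, coeff_zero_eq_eval_zero, G.A0, hal]; simp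
  · have := coeff_comp2 μ F 0
    rw [this, coeff_zero_eq_eval_zero, G.F0]; simp
  · have e : (X * B.comp (C μ * X ^ 2)).coeff p = (B.comp (C μ * X ^ 2)).coeff (2 * n) := by
      rw [← coeff_X_mul (B.comp _) (2 * n), ← hn]
    rw [coeff_C_mul, e, coeff_comp2, G.cA, ← hs, s4,
      show x - y + 2 * y = x + y by ring]
    split_ifs <;> simp

end

section
open PowerSeries Finset
variable {A : Type*} [CommRing A]

lemma coeff_expand4 (H : A⟦X⟧) (N : ℕ) : coeff (N + 2) ((1 - X ^ 2) * expand 4 (by omega) H) =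
    (if 4 ∣ N + 2 then coeff ((N + 2) / 4) H else 0) - if 4 ∣ N then coeff (N / 4) H else 0 := by
  rw [sub_mul, one_mul, map_sub, coeff_X_pow_mul, coeff_expand, coeff_expand]

lemma exists_j {p n : ℕ} (hn : p = 2 * n + 1) (h1 : 1 ≤ n) : ∃ j₁ j₂ : ℕ, j₁ < p ∧ j₂ < p ∧
    (p : ℤ) ∣ 16 * j₁ * (j₁ + 1) + 3 ∧ (p : ℤ) ∣ 16 * j₂ * (j₂ + 1) + 3 ∧
    (p : ℤ) ^ 2 ∣ 3 * (16 * j₁ * (j₁ + 1) + 3) + (16 * j₂ * (j₂ + 1) + 3) ∧
    (∀ H : A⟦X⟧, coeff (2 * n) ((1 - X ^ 2) * expand 4 (by omega) H) = (-1) ^ n * coeff j₁ H) ∧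
    ∀ H : A⟦X⟧, Lam n ((1 - X ^ 2) * expand 4 (by omega) H) =
      (-1) ^ n * (3 * coeff j₁ H + coeff j₂ H) := by
  rcases Nat.even_or_odd' n with ⟨m, rfl | rfl⟩
  · obtain ⟨m, rfl⟩ : ∃ k, m = k + 1 := ⟨m - 1, by omega⟩
    have c1 : ∀ H : A⟦X⟧, coeff (2 * (2 * (m + 1))) ((1 - X ^ 2) * expand 4 (by omega) H) =
        coeff (m + 1) H := by
      intro H
      rw [show 2 * (2 * (m + 1)) = (4 * m + 2) + 2 by ring, coeff_expand4, if_pos (by omega),
        if_neg (by omega), show (4 * m + 2 + 2) / 4 = m + 1 by omega, sub_zero]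
    refine ⟨m + 1, 3 * (m + 1), by omega, by omega, ⟨p + 2, by rw [hn]; push_cast; ring⟩,
      ⟨9 * p - 6, by rw [hn]; push_cast; ring⟩, ⟨12, by rw [hn]; push_cast; ring⟩, ?_, ?_⟩
    · intro H; rw [c1, pow_mul]; simp
    · intro H
      rw [Lam, c1, coeff_expand4, if_neg (by omega), if_pos (by omega),
        show 6 * (2 * (m + 1)) / 4 = 3 * (m + 1) by omega, pow_mul]
      simp
  · have c1 : ∀ H : A⟦X⟧, coeff (2 * (2 * m + 1)) ((1 - X ^ 2) * expand 4 (by omega) H) =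
        -coeff m H := by
      intro H
      rw [show 2 * (2 * m + 1) = (4 * m) + 2 by ring, coeff_expand4, if_neg (by omega),
        if_pos (by omega), show (4 * m) / 4 = m by omega, zero_sub]
    refine ⟨m, 3 * m + 2, by omega, by omega, ⟨p - 2, by rw [hn]; push_cast; ring⟩,
      ⟨9 * p + 6, by rw [hn]; push_cast; ring⟩, ⟨12, by rw [hn]; push_cast; ring⟩, ?_, ?_⟩
    · intro H; rw [c1, pow_succ, pow_mul]; simp
    · intro H
      rw [Lam, c1, coeff_expand4, if_pos (by omega), if_neg (by omega),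
        show (6 * (2 * m + 1) + 2) / 4 = 3 * m + 2 by omega, pow_succ, pow_mul]
      ring

lemma sum_interp {p j₁ j₂ : ℕ} (hp : p.Prime)
    (h₁ : (p : ℤ) ∣ 16 * j₁ * (j₁ + 1) + 3) (h₂ : (p : ℤ) ∣ 16 * j₂ * (j₂ + 1) + 3)
    (h : (p : ℤ) ^ 2 ∣ 3 * (16 * j₁ * (j₁ + 1) + 3) + (16 * j₂ * (j₂ + 1) + 3)) (i : A)
    (wt : ℕ → A) :
    (p : A) ^ 2 ∣ 4 * ∑ k ∈ range p, wt k * ((k.centralBinom : A) * (2 * k).centralBinom) * i ^ k
      - (3 * ∑ k ∈ range p, wt k * (bb j₁ k : A) * (-(64 * i)) ^ k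
        + ∑ k ∈ range p, wt k * (bb j₂ k : A) * (-(64 * i)) ^ k) := by
  rw [mul_sum, mul_sum, ← sum_add_distrib, ← sum_sub_distrib]
  refine dvd_sum fun k hk => ?_
  obtain ⟨u, hu⟩ := interp_sq hp (mem_range.1 hk) h₁ h₂ h
  have := congrArg (Int.cast : ℤ → A) hu
  push_cast at this
  refine ⟨wt k * i ^ k * u, ?_⟩
  rw [show -(64 * i) = -64 * i by ring, mul_pow]
  linear_combination wt k * i ^ k * this

variable [IsDomain A] [CharZero A]

lemma g_sq {i : A} (hi : 63 * i = 1) :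
    ((1 - X ^ 4) ^ 2 + C (256 * i) * X ^ 4) * expand 4 (by omega) (Gs (64 * i)) ^ 2 = 1 := by
  have hz : 64 * i ≠ 0 := by
    intro h0
    have : (64 : A) = 0 := by linear_combination 63 * h0 - 64 * hi
    norm_num at this
  have := congrArg (expand 4 (by omega)) (gf_sq hz)
  simp only [map_mul, map_add, map_sub, map_pow, map_one, map_ofNat, expand_X, expand_C] at this ⊢
  linear_combination this

lemma g_one (z : A) : ∃ g₁, expand 4 (by omega) (Gs z) = 1 + X ^ 4 * g₁ := by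
  obtain ⟨u, hu⟩ : (X : A⟦X⟧) ∣ Gs z - 1 := by rw [X_dvd_iff]; simp [cc_Gs]
  refine ⟨expand 4 (by omega) u, ?_⟩
  rw [show Gs z = 1 + X * u by rw [← hu]; ring]
  simp

lemma g_d {i : A} (hi : 63 * i = 1) :
    C (256 * i) * X ^ 4 * (1 - X ^ 2) * expand 4 (by omega) (Gs (64 * i)) ^ 3 =
      C (-2) * ((1 - X ^ 2) * expand 4 (by omega) (G1s (64 * i))) := by
  have hz : 64 * i ≠ 0 := by
    intro h0
    have : (64 : A) = 0 := by linear_combination 63 * h0 - 64 * hi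
    norm_num at this
  rw [gf_d hz]
  simp only [map_mul, map_neg, map_pow, map_ofNat, expand_X, expand_C]
  ring

variable {p : ℕ} [hp : Fact p.Prime]

theorem partA_gen (h3 : 3 < p) (ρ : A →+* ZMod p)
    (hρ : ∀ x, ρ x = 0 ↔ (p : A) ∣ x) {φ i : A} (hφ : φ ^ 2 = φ - 2) (hi : 63 * i = 1)
    {x y : ℤ} (h : (p : ℤ) = x ^ 2 + 7 * y ^ 2) (hx : jacobiSym x 7 = 1)
    (hπ : ρ (x + y * (2 * φ - 1)) = 0) :
    (p : A) ^ 2 ∣ ∑ k ∈ range p, ((k.centralBinom : A) * (2 * k).centralBinom) * i ^ k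
      - jacobiSym p 3 * (x - y * (2 * φ - 1)) ∧
    (p : A) ^ 2 ∣ ∑ k ∈ range p, ((k : A) + 8) * ((k.centralBinom : A) * (2 * k).centralBinom) * i ^ k
      - 8 * jacobiSym p 3 * x := by
  obtain ⟨n, hn⟩ : Odd p := hp.out.odd_of_ne_two (by omega)
  have hx0 : x ≠ 0 := by rintro rfl; norm_num at hx
  have two := two_ne_zero_zmod hn
  have hcop := coprime_xy hp.out h
  have hpz : (x : ZMod p) ^ 2 + 7 * y ^ 2 = 0 := by
    have := congrArg (Int.cast : ℤ → ZMod p) h
    push_cast at this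
    rw [← this, ZMod.natCast_self]
  simp only [map_add, map_mul, map_sub, map_intCast, map_ofNat, map_one] at hπ
  have hi' : 63 * ρ i = 1 := by
    have := congrArg ρ hi
    simpa only [map_mul, map_ofNat, map_one] using this
  have hr : (2 * ρ φ - 1) ^ 2 = -7 := by
    have := congrArg ρ hφ
    simp only [map_sub, map_pow, map_ofNat] at this
    linear_combination 4 * this
  have hxz : (x : ZMod p) ≠ 0 := by
    intro h0
    obtain ⟨u, v, huv⟩ := hcop
    have h1 := congrArg (Int.cast : ℤ → ZMod p) huv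
    push_cast at h1
    rw [h0] at h1 hπ
    have h2 : 2 * ρ φ - 1 = 0 := by linear_combination v * hπ - (2 * ρ φ - 1) * h1
    rw [h2] at hr
    have h7 : (7 : ZMod p) = 0 := by linear_combination hr
    have : (1 : ZMod p) = 0 := by linear_combination 9 * ρ i * h7 - hi'
    exact one_ne_zero this
  have h3z : (3 : ZMod p) ≠ 0 := by
    intro h0
    have : (1 : ZMod p) = 0 := by linear_combination 21 * ρ i * h0 - hi'
    exact one_ne_zero this
  have s3 := sign_three hp.out hn (by omega)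
  have sm := sign_main hp.out (by omega) h hx0
  have hJ : jacobiSym p 3 ^ 2 = 1 := by
    apply jacobiSym.sq_one
    exact_mod_cast (Nat.coprime_primes hp.out Nat.prime_three).2 (by omega)
  have hn1 : ((-1 : A) ^ n) ^ 2 = 1 := by rw [← pow_mul, mul_comm, pow_mul]; simp
  have hJA : ((jacobiSym p 3 : ℤ) : A) ^ 2 = 1 := by exact_mod_cast congrArg (Int.cast : ℤ → A) hJ
  obtain ⟨a, F, P⟩ := pack_of_cm hn ρ hρ (σ := (-1) ^ n * jacobiSym p 3) hφ hi
    (by rw [mul_pow, hn1, hJA, one_mul]) h (by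
      simp only [map_add, map_mul, map_sub, map_intCast, map_ofNat, map_one]
      intro h0
      exact mul_ne_zero two hxz (by linear_combination h0 + hπ)) (by
      have e1 := legendreSym.eq_pow p (3 * (x * y))
      rw [jacobiSym.legendreSym.to_jacobiSym, show p / 2 = n by omega, jacobiSym.mul_left] at e1
      have e2 : (-1) ^ n * jacobiSym p 3 * (s4 (x + y) * (jacobiSym 3 p * jacobiSym (x * y) p))
          = 1 := by
        linear_combination (s4 (x + y) * jacobiSym (x * y) p) * s3 + sm + hx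
      have e3 := congrArg (Int.cast : ℤ → ZMod p) e2
      have f1 : ((3 * x : ZMod p) ^ 2) ^ n = 1 := by
        rw [← pow_mul, show 2 * n = p - 1 by omega]
        exact ZMod.pow_card_sub_one_eq_one (mul_ne_zero h3z hxz)
      have f2 : ((4 : ZMod p) ^ 2) ^ n = 1 := by
        rw [← pow_mul, show 2 * n = p - 1 by omega]
        refine ZMod.pow_card_sub_one_eq_one ?_
        rw [show (4 : ZMod p) = 2 * 2 by norm_num]; exact mul_ne_zero two two
      have f3 : (4 * (12 * ρ i * (2 * ρ φ - 1))) * (3 * x : ZMod p) ^ 2 = 4 ^ 2 * (3 * (x * y)) := by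
        linear_combination (432 * ρ i * (2 * ρ φ - 1) * x) * hπ - (432 * ρ i * x * y) * hr
          + (48 * x * y) * hi'
      have f4 := congrArg (· ^ n) f3
      simp only [mul_pow (4 * _) ((3 * x : ZMod p) ^ 2), mul_pow (4 ^ 2 : ZMod p), f1, f2,
        mul_pow (4 : ZMod p) _ n] at f4
      push_cast at e1 e3
      simp only [map_add, map_mul, map_sub, map_intCast, map_ofNat, map_one, map_pow, map_neg]
      linear_combination e3 + ((-1) ^ n * (jacobiSym p 3 : ZMod p) * s4 (x + y)) * (f4 - e1))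
  obtain ⟨g₁, hg⟩ := g_one (64 * i)
  obtain ⟨⟨u₁, m1⟩, ⟨u₂, m2⟩⟩ := main_cong P (g_sq hi) hg
  obtain ⟨j₁, j₂, l₁, l₂, d₁, d₂, d₃, -, hL⟩ := exists_j (A := A) hn (by omega)
  rw [g_d hi, Lam_C] at m2
  rw [hL, coeff_Gs, coeff_Gs, pj_eq _ l₁, pj_eq _ l₂] at m1
  rw [hL, coeff_G1s, coeff_G1s, dj_eq _ l₁, dj_eq _ l₂] at m2
  obtain ⟨u₃, m3⟩ := sum_interp hp.out d₁ d₂ d₃ i (fun _ => 1)
  obtain ⟨u₄, m4⟩ := sum_interp hp.out d₁ d₂ d₃ i (fun k => k)
  simp only [one_mul] at m3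
  have four : ρ 4 ≠ 0 := by
    rw [map_ofNat, show (4 : ZMod p) = 2 * 2 by norm_num]; exact mul_ne_zero two two
  have eight : ρ 8 ≠ 0 := by
    rw [map_ofNat, show (8 : ZMod p) = 2 * (2 * 2) by norm_num]
    exact mul_ne_zero two (mul_ne_zero two two)
  constructor
  · apply cancel_unit ρ hρ four
    refine ⟨u₃ + (-1) ^ n * u₁, ?_⟩
    linear_combination m3 + (-1) ^ n * m1 - ((3 * ∑ k ∈ range p, (bb j₁ k : A) * (-(64 * i)) ^ k
      + ∑ k ∈ range p, (bb j₂ k : A) * (-(64 * i)) ^ k)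
      - 4 * jacobiSym p 3 * (x - y * (2 * φ - 1))) * hn1
  · apply cancel_unit ρ hρ eight
    simp only [add_mul, sum_add_distrib, mul_assoc (8 : A), ← mul_sum]
    refine ⟨16 * u₃ + 16 * (-1) ^ n * u₁ + 2 * u₄ - (-1) ^ n * u₂, ?_⟩
    linear_combination 16 * m3 + 16 * (-1) ^ n * m1 + 2 * m4 - (-1) ^ n * m2
      - (16 * (3 * ∑ k ∈ range p, (bb j₁ k : A) * (-(64 * i)) ^ k
      + ∑ k ∈ range p, (bb j₂ k : A) * (-(64 * i)) ^ k)
      + 2 * (3 * ∑ k ∈ range p, (k : A) * (bb j₁ k : A) * (-(64 * i)) ^ k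
      + ∑ k ∈ range p, (k : A) * (bb j₂ k : A) * (-(64 * i)) ^ k)
      - 64 * jacobiSym p 3 * x) * hn1

end

end Pool.Agent.MP_d8ab80_nt

end

section

/-! Part (b). -/

set_option linter.unusedSectionVars false
set_option linter.unusedSimpArgs false

namespace Pool.Agent.MP_d8ab80_nt
open Finset

lemma map_Gs {A B : Type*} [CommRing A] [CommRing B] (f : A →+* B) (z : A) :
    PowerSeries.map f (Gs z) = Gs (f z) := by
  ext n
  simp [coeff_Gs, pj]

theorem partB_field {k : Type*} [Field k] {p : ℕ} [hp : Fact p.Prime] [CharP k p] {n : ℕ}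
    (hn : p = 2 * n + 1) {φ i : k} (hφ : φ ^ 2 = φ - 2) (hi : 63 * i = 1)
    (h7 : (-7 : k) ^ n = -1)
    (hg : ((1 - PowerSeries.X ^ 4) ^ 2 + PowerSeries.C (256 * i) * PowerSeries.X ^ 4) *
      PowerSeries.expand 4 (by omega) (Gs (64 * i)) ^ 2 = 1) :
    ∑ j ∈ range p, ((j.centralBinom : k) * (2 * j).centralBinom) * i ^ j = 0 ∧
    ∑ j ∈ range p, ((j.centralBinom : k) * ((2 * j).centralBinom : k) ^ 2) * i ^ j = 0 := by
  have hp1 := hp.out.one_lt
  have two : (2 : k) ≠ 0 := by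
    have := cast_ne_zero_of_lt (k := k) (p := p) (j := 1) (by omega)
    intro h; apply this; push_cast; linear_combination h
  have hr : (2 * φ - 1) ^ 2 = -7 := by linear_combination 4 * hφ
  have h0 : φ ≠ 0 := by
    rintro rfl
    apply two; linear_combination hφ
  have h1 : φ ^ (2 * n) ≠ 1 := by
    intro h
    have e1 : φ ^ p = φ := by rw [hn, pow_succ, h, one_mul]
    have e2 : (2 : k) ^ p = 2 := by
      rw [show (2 : k) = 1 + 1 by norm_num, add_pow_char, one_pow]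
    have e3 : (2 * φ - 1) ^ p = 2 * φ - 1 := by rw [sub_pow_char, mul_pow, e1, e2, one_pow]
    rw [hn, pow_succ, pow_mul, hr, h7] at e3
    have e4 : 2 * φ - 1 = 0 := by
      apply mul_left_cancel₀ two; linear_combination -e3
    rw [e4] at hr
    have : (1 : k) = 0 := by linear_combination 9 * i * hr - hi
    exact one_ne_zero this
  have H := hasse_zero hn hφ h0 h1
  have hp0 : ((p : ℤ) : k) = 0 := by exact_mod_cast CharP.cast_eq_zero k p
  constructor
  · obtain ⟨g₁, hg1⟩ : ∃ g₁, PowerSeries.expand 4 (by omega) (Gs (64 * i)) =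
        1 + PowerSeries.X ^ 4 * g₁ := by
      obtain ⟨u, hu⟩ : (PowerSeries.X : PowerSeries k) ∣ Gs (64 * i) - 1 := by
        rw [PowerSeries.X_dvd_iff]; simp [cc_Gs]
      refine ⟨PowerSeries.expand 4 (by omega) u, ?_⟩
      rw [show Gs (64 * i) = 1 + PowerSeries.X * u by rw [← hu]; ring]
      simp
    have c := coeff_omega hn hg hg1
    obtain ⟨j₁, j₂, l₁, -, d₁, -, -, hc, -⟩ := exists_j (A := k) hn (by omega)
    have eQ : QQ (256 * i) = (Qt φ).comp (Polynomial.C (12 * i * (2 * φ - 1)) * Polynomial.X ^ 2) := by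
      have e1 : 3 * (2 * φ - 1) * (12 * i * (2 * φ - 1)) = -4 := by
        linear_combination 36 * i * hr - 4 * hi
      have e2 : 16 * (12 * i * (2 * φ - 1)) ^ 2 = -(256 * i) := by
        linear_combination 2304 * i ^ 2 * hr - 256 * i * hi
      have E1 := congrArg Polynomial.C e1
      have E2 := congrArg Polynomial.C e2
      rw [map_mul, map_neg, map_ofNat] at E1
      rw [map_mul, map_neg, map_ofNat, map_pow] at E2
      simp only [QQ, Qt, Polynomial.mul_comp, Polynomial.add_comp, Polynomial.sub_comp,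
        Polynomial.pow_comp, Polynomial.C_comp, Polynomial.X_comp, Polynomial.ofNat_comp,
        Polynomial.one_comp, Nat.cast_ofNat]
      linear_combination (-Polynomial.X ^ 2) * E1 + Polynomial.X ^ 4 * E2
    rw [hc, eQ, ← Polynomial.pow_comp, coeff_comp2, H, zero_mul, coeff_Gs, pj_eq _ l₁] at c
    rw [← (mul_eq_zero.1 c).resolve_left (pow_ne_zero _ (neg_ne_zero.2 one_ne_zero))]
    refine sum_congr rfl fun j hj => ?_
    obtain ⟨u, hu⟩ := interp_one hp.out (mem_range.1 hj) d₁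
    have := congrArg (Int.cast : ℤ → k) hu
    rw [Int.cast_mul (p : ℤ), hp0] at this
    push_cast at this
    rw [show -(64 * i) = -64 * i by ring, mul_pow]
    linear_combination i ^ j * this
  · have hchar : ∀ j < n, ((j : k) + 1) ≠ 0 := fun j hj =>
      cast_ne_zero_of_lt (p := p) (by omega)
    have e := even_sum (N := p) (by omega) hchar (t := 2 - 3 * φ) (y := 3 * i * (10 + φ))
      (c := 256 * i) (by linear_combination 18 * i * hφ + (3 * φ - 2) * hi) (by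
        have : (1 - 3 * i * (10 + φ)) = 3 * i * (11 - φ) := by linear_combination -hi
        rw [this]
        linear_combination (81 * i ^ 2 * (φ ^ 2 - φ - 112) + 18 * i ^ 2) * hφ + 256 * i * hi)
    have e2 : pj (2 - 3 * φ) n = 0 := by
      rw [pj_eq_coeff hchar, ← H, Qt]
      congr 2
      have hf : (Polynomial.C φ) ^ 2 = Polynomial.C φ - 2 := by
        rw [← map_pow, hφ, map_sub, map_ofNat]
      simp only [map_sub, map_mul, map_ofNat, map_one]
      linear_combination (9 * Polynomial.X ^ 2) * hf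
    rw [e2, mul_zero] at e
    rw [← e]
    refine sum_congr rfl fun j hj => ?_
    rcases lt_or_ge (2 * j) p with h | h
    · obtain ⟨u, hu⟩ := interp_c hp.out h hn
      have := congrArg (Int.cast : ℤ → k) hu
      rw [Int.cast_mul (p : ℤ), hp0] at this
      push_cast at this
      rw [pow_mul, show (-16 : k) ^ 2 = 256 by norm_num] at this
      rw [mul_pow]
      linear_combination (j.centralBinom * i ^ j) * this
    · have : (j.centralBinom : k) = 0 := by
        rw [CharP.cast_eq_zero_iff k p, Nat.centralBinom]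
        have hj' := mem_range.1 hj
        exact hp.out.dvd_choose hj' (by omega) h
      simp [this]

theorem partB_gen {A : Type*} [CommRing A] [IsDomain A] [CharZero A] {p : ℕ} [hp : Fact p.Prime]
    (h3 : 3 < p) (ρ : A →+* ZMod p) (hρ : ∀ x, ρ x = 0 ↔ (p : A) ∣ x) {i : A} (hi : 63 * i = 1)
    (h7 : jacobiSym p 7 = -1) :
    (p : A) ∣ ∑ j ∈ range p, ((j.centralBinom : A) * (2 * j).centralBinom) * i ^ j ∧
    (p : A) ∣ ∑ j ∈ range p, ((j.centralBinom : A) * ((2 * j).centralBinom : A) ^ 2) * i ^ j := by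
  obtain ⟨n, hn⟩ : Odd p := hp.out.odd_of_ne_two (by omega)
  let k := AlgebraicClosure (ZMod p)
  let f : A →+* k := (algebraMap (ZMod p) k).comp ρ
  have hf : ∀ x, f x = 0 → (p : A) ∣ x := fun x hx =>
    (hρ x).1 ((algebraMap (ZMod p) k).injective (by rw [map_zero]; exact hx))
  have two : (2 : k) ≠ 0 := by
    have := cast_ne_zero_of_lt (k := k) (p := p) (j := 1) (by omega)
    intro h; apply this; push_cast; linear_combination h
  obtain ⟨r, hr⟩ := IsAlgClosed.exists_pow_nat_eq (-7 : k) two_pos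
  have hφ : ((1 + r) / 2) ^ 2 = (1 + r) / 2 - 2 := by
    have h2 : (2 : k)⁻¹ * 2 = 1 := inv_mul_cancel₀ two
    rw [div_eq_mul_inv]
    generalize (2 : k)⁻¹ = t at h2
    linear_combination t ^ 2 * hr + ((1 + r) * t - 2 * (2 * t + 1)) * h2
  have hi' : 63 * f i = 1 := by
    have := congrArg f hi
    simpa only [map_mul, map_ofNat, map_one] using this
  have e1 : (-7 : k) ^ n = -1 := by
    have e2 := legendreSym.eq_pow p (-7)
    have e3 := jac_odd (w := -7) (p := p) (by norm_num) (by omega)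
    rw [show (-7 : ℤ).natAbs = 7 from rfl, h7, show s4 (-7) = 1 from rfl, ite_self] at e3
    rw [jacobiSym.legendreSym.to_jacobiSym, show p / 2 = n by omega, e3] at e2
    have := congrArg (algebraMap (ZMod p) k) e2
    simp only [map_pow, map_intCast] at this
    push_cast at this
    rw [← this]
  have hg := congrArg (PowerSeries.map f) (g_sq hi)
  simp only [map_mul (PowerSeries.map f), map_add, map_sub, map_pow, map_one, PowerSeries.map_X,
    PowerSeries.map_C, PowerSeries.map_expand, map_Gs, map_mul f, map_ofNat] at hg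
  obtain ⟨s1, s2⟩ := partB_field hn hφ hi' e1 hg
  constructor <;> apply hf <;> simp only [map_sum, map_mul, map_pow, map_natCast]
  · exact s1
  · exact s2

end Pool.Agent.MP_d8ab80_nt

end

section

/-! Transfer to the `p`-adic integers and to rational numbers. -/

set_option linter.unusedSectionVars false
set_option linter.unusedSimpArgs false

namespace Pool.Agent.MP_d8ab80_nt
open Finset

variable {p : ℕ} [hp : Fact p.Prime]

lemma toZMod_eq_zero (x : ℤ_[p]) : PadicInt.toZMod x = 0 ↔ (p : ℤ_[p]) ∣ x := by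
  rw [← RingHom.mem_ker, PadicInt.ker_toZMod, PadicInt.maximalIdeal_eq_span_p,
    Ideal.mem_span_singleton]

lemma norm_one_of_not_dvd {u : ℤ} (h : ¬ (p : ℤ) ∣ u) : ‖(u : ℤ_[p])‖ = 1 :=
  le_antisymm (PadicInt.norm_le_one _) (not_lt.1 (by rwa [PadicInt.norm_int_lt_one_iff_dvd]))

lemma exists_inv_int {u : ℤ} (h : ¬ (p : ℤ) ∣ u) : ∃ v : ℤ_[p], (u : ℤ_[p]) * v = 1 :=
  (PadicInt.isUnit_iff.2 (norm_one_of_not_dvd h)).exists_right_inv

lemma not_dvd_den {q : ℚ} {m : ℕ} {Z : ℤ_[p]} (hZ : (p : ℤ_[p]) ^ m ∣ Z) (h : (q : ℚ_[p]) = Z) :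
    ¬ p ∣ (q / (p : ℚ) ^ m).den := by
  obtain ⟨W, rfl⟩ := hZ
  have hp0 : (p : ℚ_[p]) ≠ 0 := by exact_mod_cast hp.out.ne_zero
  have h1 : ((q / (p : ℚ) ^ m : ℚ) : ℚ_[p]) = W := by
    push_cast
    rw [h]; push_cast
    field_simp
  have h2 := PadicInt.isUnit_den (p := p) (q / (p : ℚ) ^ m) (by rw [h1]; exact W.2)
  rw [PadicInt.isUnit_iff] at h2
  intro h3
  have : ‖(((q / (p : ℚ) ^ m).den : ℤ) : ℤ_[p])‖ < 1 := by
    rw [PadicInt.norm_int_lt_one_iff_dvd]; exact_mod_cast h3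
  rw [Int.cast_natCast, h2] at this
  exact lt_irrefl _ this

lemma exists_i63 (h3 : 3 < p) (h7 : p ≠ 7) : ∃ i : ℤ_[p], 63 * i = 1 := by
  have : ¬ (p : ℤ) ∣ (63 : ℤ) := by
    intro h
    have h1 : p ∣ 3 * (3 * 7) := by exact_mod_cast h
    rcases (Nat.Prime.dvd_mul hp.out).1 h1 with h | h
    · have := Nat.le_of_dvd (by norm_num) h; omega
    rcases (Nat.Prime.dvd_mul hp.out).1 h with h | h
    · have := Nat.le_of_dvd (by norm_num) h; omega
    · exact h7 ((Nat.prime_dvd_prime_iff_eq hp.out (by norm_num)).1 h)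
  simpa using exists_inv_int this

lemma cast_sum63 {i : ℤ_[p]} (hi : 63 * i = 1) (c : ℕ → ℕ) :
    ((∑ k ∈ range p, (c k : ℚ) / 63 ^ k : ℚ) : ℚ_[p]) =
      ((∑ k ∈ range p, (c k : ℤ_[p]) * i ^ k : ℤ_[p]) : ℚ_[p]) := by
  have h1 : (i : ℚ_[p]) = 63⁻¹ := by
    have := congrArg ((↑) : ℤ_[p] → ℚ_[p]) hi
    push_cast at this
    exact eq_inv_of_mul_eq_one_right this
  rw [PadicInt.coe_sum]
  push_cast
  refine sum_congr rfl fun k _ => ?_
  rw [h1, inv_pow, div_eq_mul_inv]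

lemma exists_root (h3 : 3 < p) (h7 : p ≠ 7) {x y : ℤ} (h : (p : ℤ) = x ^ 2 + 7 * y ^ 2) :
    ∃ φ u : ℤ_[p], φ ^ 2 = φ - 2 ∧ (p : ℤ_[p]) ∣ x + y * (2 * φ - 1) ∧ 2 * x * u = 1 := by
  have hc := coprime_xy hp.out h
  have hpz := Nat.prime_iff_prime_int.1 hp.out
  have hxy : ¬ ((p : ℤ) ∣ x ∧ (p : ℤ) ∣ y) := fun hh =>
    hpz.not_unit (hc.isUnit_of_dvd' hh.1 hh.2)
  have hy : ¬ (p : ℤ) ∣ y := by
    intro hy
    refine hxy ⟨hpz.dvd_of_dvd_pow (n := 2) ?_, hy⟩
    rw [show x ^ 2 = p - 7 * y * y by rw [h]; ring]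
    exact dvd_sub dvd_rfl (hy.mul_left _)
  have hx : ¬ (p : ℤ) ∣ x := by
    intro hx
    have h1 : (p : ℤ) ∣ 7 * y ^ 2 := by
      rw [show 7 * y ^ 2 = p - x * x by rw [h]; ring]
      exact dvd_sub dvd_rfl (hx.mul_left _)
    rcases hpz.dvd_or_dvd h1 with h2 | h2
    · exact h7 ((Nat.prime_dvd_prime_iff_eq hp.out (by norm_num)).1 (by exact_mod_cast h2))
    · exact hy (hpz.dvd_of_dvd_pow h2)
  have h2 : ¬ (p : ℤ) ∣ 2 := by
    intro h2
    have := Int.le_of_dvd (by norm_num) h2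
    omega
  have h2x : ¬ (p : ℤ) ∣ 2 * x := fun hh => (hpz.dvd_or_dvd hh).elim h2 hx
  obtain ⟨u, hu⟩ := exists_inv_int h2x
  obtain ⟨v, hv⟩ := exists_inv_int hy
  obtain ⟨t, ht⟩ := exists_inv_int h2
  have n2x := norm_one_of_not_dvd h2x
  let F : Polynomial ℤ_[p] :=
    Polynomial.X ^ 2 - Polynomial.C ((2 * x : ℤ) : ℤ_[p]) * Polynomial.X + Polynomial.C (p : ℤ_[p])
  have e0 : ∀ z : ℤ_[p], F.aeval z = z ^ 2 - ((2 * x : ℤ) : ℤ_[p]) * z + p := by
    intro z; simp [F]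
  have e1 : ‖F.derivative.aeval (0 : ℤ_[p])‖ = 1 := by
    rw [← n2x, ← norm_neg]
    simp only [F, Polynomial.derivative_add, Polynomial.derivative_sub, Polynomial.derivative_C,
      Polynomial.derivative_C_mul, Polynomial.derivative_X, Polynomial.derivative_X_pow]
    simp
  obtain ⟨z, hz, hz', -⟩ := hensels_lemma (F := F) (a := 0) (by
    rw [e0, e1, one_pow, PadicInt.norm_lt_one_iff_dvd]; simp)
  rw [e1, sub_zero, PadicInt.norm_lt_one_iff_dvd] at hz'
  rw [e0] at hz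
  have hA : (p : ℤ_[p]) = x ^ 2 + 7 * y ^ 2 := by exact_mod_cast congrArg (Int.cast : ℤ → ℤ_[p]) h
  push_cast at hz hu ht
  have hr : ((z - x) * v) ^ 2 = -7 := by
    linear_combination v ^ 2 * hz - v ^ 2 * hA - 7 * (y * v + 1) * hv
  refine ⟨(1 + (z - x) * v) * t, u, ?_, ?_, hu⟩
  · linear_combination t ^ 2 * hr + ((1 + (z - x) * v) * t - 2 * (2 * t + 1)) * ht
  · have : (x : ℤ_[p]) + y * (2 * ((1 + (z - x) * v) * t) - 1) = z := by
      linear_combination (y * (1 + (z - x) * v)) * ht + (z - x) * hv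
    rw [this]; exact hz'

theorem final_a (h3 : 3 < p) {x y : ℤ} (h7 : jacobiSym p 7 = 1) (h : (p : ℤ) = x ^ 2 + 7 * y ^ 2)
    (hx : jacobiSym x 7 = 1) :
    ¬ p ∣ (((∑ k ∈ range p, (((2 * k).choose k * (4 * k).choose (2 * k) : ℕ) : ℚ) / 63 ^ k)
      - jacobiSym p 3 * (2 * x - p / (2 * x))) / (p : ℚ) ^ 2).den ∧
    ¬ p ∣ (((∑ k ∈ range p,
        (((k + 8) * ((2 * k).choose k * (4 * k).choose (2 * k)) : ℕ) : ℚ) / 63 ^ k)
      - 8 * jacobiSym p 3 * x) / (p : ℚ) ^ 2).den := by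
  have h7' : p ≠ 7 := by rintro rfl; norm_num at h7
  obtain ⟨i, hi⟩ := exists_i63 h3 h7'
  obtain ⟨φ, u, hφ, hπ, hu⟩ := exists_root h3 h7' h
  obtain ⟨s1, s2⟩ := partA_gen h3 PadicInt.toZMod toZMod_eq_zero hφ hi h hx
    ((toZMod_eq_zero _).2 hπ)
  have hA : (p : ℤ_[p]) = x ^ 2 + 7 * y ^ 2 := by exact_mod_cast congrArg (Int.cast : ℤ → ℤ_[p]) h
  have e4 : ∀ k, 4 * k = 2 * (2 * k) := fun k => by ring
  constructor
  · have d : (p : ℤ_[p]) ^ 2 ∣ jacobiSym p 3 * ((x - y * (2 * φ - 1)) - (2 * x - p * u)) := by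
      obtain ⟨z, hz⟩ := hπ
      refine Dvd.dvd.mul_left ⟨-(z ^ 2 * u), ?_⟩ _
      linear_combination (-u * (x + y * (2 * φ - 1) + p * z)) * hz
        + (x + y * (2 * φ - 1)) * hu + u * hA + (4 * u * y ^ 2) * hφ
    apply not_dvd_den (dvd_add s1 d)
    have hu' : (u : ℚ_[p]) = (2 * x : ℚ_[p])⁻¹ := by
      have := congrArg ((↑) : ℤ_[p] → ℚ_[p]) hu
      push_cast at this
      exact eq_inv_of_mul_eq_one_right this
    rw [Rat.cast_sub, cast_sum63 hi]
    simp only [Nat.centralBinom, e4]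
    push_cast
    rw [hu', div_eq_mul_inv, show ((2 : ℤ_[p]) : ℚ_[p]) = 2 from rfl]
    ring
  · apply not_dvd_den s2
    rw [Rat.cast_sub, cast_sum63 hi]
    simp only [Nat.centralBinom, e4]
    push_cast
    rw [show ((8 : ℤ_[p]) : ℚ_[p]) = 8 from rfl]

theorem final_b (h3 : 3 < p) (h7 : jacobiSym p 7 = -1) :
    ¬ p ∣ ((∑ k ∈ range p, (((2 * k).choose k * (4 * k).choose (2 * k) : ℕ) : ℚ) / 63 ^ k)
      / (p : ℚ) ^ 1).den ∧
    ¬ p ∣ ((∑ k ∈ range p, (((2 * k).choose k * (4 * k).choose (2 * k) ^ 2 : ℕ) : ℚ) / 63 ^ k)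
      / (p : ℚ) ^ 1).den := by
  have h7' : p ≠ 7 := by rintro rfl; norm_num at h7
  obtain ⟨i, hi⟩ := exists_i63 h3 h7'
  obtain ⟨s1, s2⟩ := partB_gen h3 PadicInt.toZMod toZMod_eq_zero hi h7
  have e4 : ∀ k, 4 * k = 2 * (2 * k) := fun k => by ring
  rw [← pow_one (p : ℤ_[p])] at s1 s2
  constructor
  · apply not_dvd_den s1
    rw [cast_sum63 hi]
    simp only [Nat.centralBinom, e4]
    push_cast
    rfl
  · apply not_dvd_den s2
    rw [cast_sum63 hi]
    simp only [Nat.centralBinom, e4]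
    push_cast
    rfl

end Pool.Agent.MP_d8ab80_nt

end
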